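import Mathlib
import Pool.Agent.Work.MP_7b186b_nt.MO.Tab

set_option autoImplicit false
set_option maxRecDepth 100000

namespace Pool.Agent.Work.MP_7b186b_nt.MO

open Finset

private def accP : List ℕ → List ℕ → ℕ
  | q1 :: q2 :: qs, u :: us => (if q2 ≤ q1 then (q1 - q2) * u else 0) + accP (q2 :: qs) us
  | _, _ => 0

private def accN : List ℕ → List ℕ → ℕ
  | q1 :: q2 :: qs, l :: ls => (if q2 ≤ q1 then 0 else (q2 - q1) * l) + accN (q2 :: qs) ls
  | _, _ => 0

private def chk : ℕ → List ℕ → Bool
  | i, q :: qs => (match qs with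
      | [] => true
      | _ :: _ => Nat.blt 0 q && Nat.ble (i * 10 ^ 17 + 400 * q * accP (q :: qs) uL.tail)
          (1769 * 10 ^ 9 * 400 * q + 400 * q * accN (q :: qs) lL)) && chk (i + 1) qs
  | _, [] => true

private theorem chk_ok : chk 1 qL.tail = true := by decide +kernel

private theorem len_q : qL.length = 402 := by decide +kernel
private theorem len_u : uL.length = 401 := by decide +kernel
private theorem len_l : lL.length = 401 := by decide +kernel

theorem qn_last : qn 401 = 0 := by decide +kernel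

private theorem accP_eq (l us : List ℕ) (h : l.length ≤ us.length + 1) :
    accP l us = ∑ t ∈ range (l.length - 1), (if l.getD (t + 1) 0 ≤ l.getD t 0 then
      (l.getD t 0 - l.getD (t + 1) 0) * us.getD t 0 else 0) := by
  induction l generalizing us with
  | nil => simp [accP]
  | cons q1 l ih =>
    cases l with
    | nil => cases us <;> simp [accP]
    | cons q2 qs =>
      cases us with
      | nil => simp at h
      | cons u us =>
        rw [accP, ih us (by simpa using h)]
        have : (q1 :: q2 :: qs).length - 1 = (q2 :: qs).length - 1 + 1 := by simp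
        rw [this, Finset.sum_range_succ', add_comm]
        simp

private theorem accN_eq (l us : List ℕ) (h : l.length ≤ us.length + 1) :
    accN l us = ∑ t ∈ range (l.length - 1), (if l.getD (t + 1) 0 ≤ l.getD t 0 then 0 else
      (l.getD (t + 1) 0 - l.getD t 0) * us.getD t 0) := by
  induction l generalizing us with
  | nil => simp [accN]
  | cons q1 l ih =>
    cases l with
    | nil => cases us <;> simp [accN]
    | cons q2 qs =>
      cases us with
      | nil => simp at h
      | cons u us =>
        rw [accN, ih us (by simpa using h)]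
        have : (q1 :: q2 :: qs).length - 1 = (q2 :: qs).length - 1 + 1 := by simp
        rw [this, Finset.sum_range_succ', add_comm]
        simp

private theorem chk_drop (l : List ℕ) : ∀ (i : ℕ), chk i l = true → ∀ k, k + 1 < l.length →
    0 < l.getD k 0 ∧ (i + k) * 10 ^ 17 + 400 * l.getD k 0 * accP (l.drop k) uL.tail ≤
      1769 * 10 ^ 9 * 400 * l.getD k 0 + 400 * l.getD k 0 * accN (l.drop k) lL := by
  induction l with
  | nil => intro i _ k hk; simp at hk
  | cons q qs ih =>
    intro i hc k hk
    cases k with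
    | zero =>
      cases qs with
      | nil => simp at hk
      | cons q2 qs =>
        rw [chk] at hc
        simp only [Bool.and_eq_true] at hc
        obtain ⟨⟨h1, h2⟩, _⟩ := hc
        rw [Nat.blt_eq] at h1
        rw [Nat.ble_eq] at h2
        simpa using ⟨h1, h2⟩
    | succ k =>
      have hc' : chk (i + 1) qs = true := by
        cases qs with
        | nil => simp at hk
        | cons q2 qs =>
          rw [chk] at hc
          simp only [Bool.and_eq_true] at hc
          exact hc.2
      have := ih (i + 1) hc' k (by simpa using hk)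
      simp only [List.getD_cons_succ, List.drop_succ_cons]
      rw [show i + (k + 1) = i + 1 + k by ring]
      exact this

private theorem getD_tail (l : List ℕ) (k : ℕ) : l.tail.getD k 0 = l.getD (k + 1) 0 := by
  cases l <;> simp

private theorem getD_drop' (l : List ℕ) (i k : ℕ) : (l.drop i).getD k 0 = l.getD (i + k) 0 := by
  simp [List.getD_eq_getElem?_getD]

private theorem main_nat (i : ℕ) (h1 : 1 ≤ i) (h2 : i ≤ 400) :
    0 < qn i ∧ i * 10 ^ 17 + 400 * qn i * accP (qL.drop i) uL.tail ≤
      1769 * 10 ^ 9 * 400 * qn i + 400 * qn i * accN (qL.drop i) lL := by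
  have h := chk_drop qL.tail 1 chk_ok (i - 1) (by rw [List.length_tail, len_q]; omega)
  rw [getD_tail, show i - 1 + 1 = i by omega, show 1 + (i - 1) = i by omega] at h
  have h3 : qL.tail.drop (i - 1) = qL.drop i := by
    rw [List.drop_tail]; congr 1; omega
  rw [h3] at h
  exact h

theorem qn_pos (j : ℕ) (h1 : 1 ≤ j) (h2 : j ≤ 400) : 0 < qn j := (main_nat j h1 h2).1

/-- the certificate, in rational form -/
theorem cert_check (i : ℕ) (h1 : 1 ≤ i) (h2 : i ≤ 400) :
    (i : ℝ) / 400 / ((qn i : ℝ) / 10 ^ 5) + ∑ j ∈ Icc i 400,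
      (if qn (j + 1) ≤ qn j then
        ((qn j : ℝ) / 10 ^ 5 - (qn (j + 1) : ℝ) / 10 ^ 5) * ((un (j - i + 1) : ℝ) / 10 ^ 7)
      else ((qn j : ℝ) / 10 ^ 5 - (qn (j + 1) : ℝ) / 10 ^ 5) * ((ln (j - i) : ℝ) / 10 ^ 7)) ≤
      1769 / 1000 := by
  obtain ⟨hq, hm⟩ := main_nat i h1 h2
  set P := accP (qL.drop i) uL.tail with hP
  set N := accN (qL.drop i) lL with hN
  have hlen : (qL.drop i).length = 402 - i := by rw [List.length_drop, len_q]
  have eP : (P : ℝ) = ∑ t ∈ range (401 - i), (if qn (i + (t + 1)) ≤ qn (i + t) then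
      ((qn (i + t) : ℝ) - qn (i + (t + 1))) * un (t + 1) else 0) := by
    rw [hP, accP_eq _ _ (by rw [hlen, List.length_tail, len_u]; omega), hlen,
      show 402 - i - 1 = 401 - i by omega]
    push_cast
    refine Finset.sum_congr rfl fun t _ => ?_
    rw [getD_drop', getD_drop', getD_tail]
    change (if qn (i + (t + 1)) ≤ qn (i + t) then
      ((qn (i + t) - qn (i + (t + 1)) : ℕ) : ℝ) * ((un (t + 1) : ℕ) : ℝ) else 0) = _
    split_ifs with h
    · push_cast [Nat.cast_sub h]; ring
    · simp
  have eN : (N : ℝ) = ∑ t ∈ range (401 - i), (if qn (i + (t + 1)) ≤ qn (i + t) then 0 else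
      ((qn (i + (t + 1)) : ℝ) - qn (i + t)) * ln t) := by
    rw [hN, accN_eq _ _ (by rw [hlen, len_l]; omega), hlen,
      show 402 - i - 1 = 401 - i by omega]
    push_cast
    refine Finset.sum_congr rfl fun t _ => ?_
    rw [getD_drop', getD_drop']
    change (if qn (i + (t + 1)) ≤ qn (i + t) then 0 else
      ((qn (i + (t + 1)) - qn (i + t) : ℕ) : ℝ) * ((ln t : ℕ) : ℝ)) = _
    split_ifs with h
    · simp
    · push_cast [Nat.cast_sub (not_le.1 h).le]; ring
  have eS : ∑ j ∈ Icc i 400, (if qn (j + 1) ≤ qn j then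
        ((qn j : ℝ) / 10 ^ 5 - (qn (j + 1) : ℝ) / 10 ^ 5) * ((un (j - i + 1) : ℝ) / 10 ^ 7)
      else ((qn j : ℝ) / 10 ^ 5 - (qn (j + 1) : ℝ) / 10 ^ 5) * ((ln (j - i) : ℝ) / 10 ^ 7)) =
      ((P : ℝ) - N) / 10 ^ 12 := by
    rw [eP, eN, ← Finset.sum_sub_distrib, Finset.sum_div]
    have : Icc i 400 = Ico i 401 := by ext x; simp only [mem_Icc, mem_Ico]; omega
    rw [this, Finset.sum_Ico_eq_sum_range]
    refine Finset.sum_congr rfl fun t _ => ?_
    rw [show i + t + 1 = i + (t + 1) by ring, show i + t - i = t by omega]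
    split_ifs <;> ring
  rw [eS]
  have hq' : (0 : ℝ) < qn i := by exact_mod_cast hq
  have hm' : (i : ℝ) * 10 ^ 17 + 400 * qn i * P ≤
      1769 * 10 ^ 9 * 400 * qn i + 400 * qn i * N := by exact_mod_cast hm
  have e1 : (i : ℝ) / 400 / ((qn i : ℝ) / 10 ^ 5) = (i * 10 ^ 17) / (400 * qn i * 10 ^ 12) := by
    field_simp
  have e2 : ((P : ℝ) - N) / 10 ^ 12 = (400 * qn i * (P - N)) / (400 * qn i * 10 ^ 12) := by
    field_simp
  rw [e1, e2, ← add_div, div_le_iff₀ (by positivity)]
  nlinarith [hm']

end Pool.Agent.Work.MP_7b186b_nt.MO
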