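import Mathlib

set_option autoImplicit false

/-!
The Montgomery-Odlyzko functional for gaps between zeros of the zeta function
(Montgomery and Odlyzko 1981; Conrey, Ghosh and Gonek 1984).
-/

namespace Pool.Agent.Work.MP_7b186b_nt.MO

open Finset ArithmeticFunction

/-- `g_c(n) = 2 sin(π c log n / log T) / (π log n)`. -/
noncomputable def gMO (c T : ℝ) (n : ℕ) : ℝ :=
  2 * Real.sin (Real.pi * c * (Real.log n / Real.log T)) / (Real.pi * Real.log n)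

/-- `∑_{k ≤ X} |a_k|^2`. -/
noncomputable def norm2 (X : ℕ) (a : ℕ → ℂ) : ℝ := ∑ k ∈ Icc 1 X, ‖a k‖ ^ 2

/-- `Re ∑_{k n ≤ X} a_k conj(a_{k n}) g(n) Λ(n) n^{-1/2}`; the terms with `n = 1` vanish. -/
noncomputable def corr (X : ℕ) (a g : ℕ → ℂ) : ℝ :=
  ∑ k ∈ Icc 1 X, ∑ n ∈ Icc 2 (X / k),
    (a k * (starRingEnd ℂ) (a (k * n)) * g n).re * vonMangoldt n / Real.sqrt n

/-- The Montgomery-Odlyzko functional
`h(c) = c - Re (∑_{k n ≤ X} a_k conj(a_{k n}) g_c(n) Λ(n) n^{-1/2}) / ∑_{k ≤ X} |a_k|^2`. -/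
noncomputable def hMO (c T : ℝ) (X : ℕ) (a : ℕ → ℂ) : ℝ :=
  c - corr X a (fun n => (gMO c T n : ℂ)) / norm2 X a

/-- The density of zeros at normalized distance `u` in the mean weighted by `|A(t)|^2`,
`A(t) = ∑_{k ≤ X} a_k k^{-it}`, as given by the Landau-Gonek formula. -/
noncomputable def rho (T : ℝ) (X : ℕ) (a : ℕ → ℂ) (u : ℝ) : ℝ :=
  1 - corr X a (fun n => (2 / Real.log T : ℝ) *
    Complex.exp (2 * Real.pi * u * (Real.log n / Real.log T : ℝ) * Complex.I)) / norm2 X a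

/-- `G_c(x) = (sin(π c x) / (π x))^2`, with value `c^2` at `0`. -/
noncomputable def GG (c x : ℝ) : ℝ := (c * Real.sinc (Real.pi * c * x)) ^ 2

/-- `∫_0^z G_c`. -/
noncomputable def GI (c z : ℝ) : ℝ := ∫ x in (0 : ℝ)..z, GG c x

/-- `F(y) = (1 / log T) ∑_{2 ≤ n ≤ y} (Λ(n) / n) f(log n / log T)`. -/
noncomputable def FT (f : ℝ → ℝ) (T y : ℝ) : ℝ :=
  (∑ n ∈ Icc 2 ⌊y⌋₊, vonMangoldt n / n * f (Real.log n / Real.log T)) / Real.log T

end Pool.Agent.Work.MP_7b186b_nt.MO
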