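import Mathlib
import Pool.Agent.Work.MP_7b186b_nt.MO.Defs

set_option autoImplicit false

namespace Pool.Agent.Work.MP_7b186b_nt.MO

open Finset ArithmeticFunction

private theorem gf_sinc_int (x : ℝ) : Real.sinc x = ∫ t in (0 : ℝ)..1, Real.cos (x * t) := by
  by_cases hx : x = 0
  · rw [hx, Real.sinc_zero]
    simp
  · rw [Real.sinc_of_ne_zero hx, intervalIntegral.integral_comp_mul_left Real.cos hx,
      mul_zero, mul_one, integral_cos, Real.sin_zero, sub_zero, smul_eq_mul, inv_mul_eq_div]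

private theorem gf_sinc_lip (x y : ℝ) : |Real.sinc x - Real.sinc y| ≤ |x - y| := by
  rw [gf_sinc_int, gf_sinc_int, ← intervalIntegral.integral_sub]
  · have h1 : ‖∫ t in (0 : ℝ)..1, (Real.cos (x * t) - Real.cos (y * t))‖ ≤
        |x - y| * |(1 : ℝ) - 0| := by
      refine intervalIntegral.norm_integral_le_of_norm_le_const fun t ht => ?_
      rw [Set.uIoc_of_le zero_le_one] at ht
      rw [Real.norm_eq_abs]
      refine (Real.abs_cos_sub_cos_le _ _).trans ?_
      rw [← sub_mul, abs_mul, abs_of_pos ht.1]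
      exact mul_le_of_le_one_right (abs_nonneg _) ht.2
    rw [Real.norm_eq_abs, sub_zero, abs_one, mul_one] at h1
    exact h1
  · exact (Real.continuous_cos.comp (continuous_const.mul continuous_id)).intervalIntegrable _ _
  · exact (Real.continuous_cos.comp (continuous_const.mul continuous_id)).intervalIntegrable _ _

private theorem gf_val {c x : ℝ} (hx : x ≠ 0) :
    c * Real.sinc (Real.pi * c * x) = Real.sin (Real.pi * c * x) / (Real.pi * x) := by
  by_cases hc : c = 0
  · rw [hc]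
    simp
  · have hp := Real.pi_ne_zero
    rw [Real.sinc_of_ne_zero (mul_ne_zero (mul_ne_zero hp hc) hx)]
    field_simp

theorem GG_nonneg (c x : ℝ) : 0 ≤ GG c x := sq_nonneg _

theorem GG_le (c x : ℝ) : GG c x ≤ c ^ 2 := by
  unfold GG
  rw [mul_pow]
  refine mul_le_of_le_one_right (sq_nonneg _) ?_
  exact (sq_le_one_iff_abs_le_one _).2 (Real.abs_sinc_le_one _)

theorem GG_continuous (c : ℝ) : Continuous (GG c) := by
  unfold GG
  exact (continuous_const.mul (Real.continuous_sinc.comp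
    (continuous_const.mul continuous_id))).pow 2

theorem GG_lip (c : ℝ) (hc : 0 ≤ c) (x y : ℝ) :
    |GG c x - GG c y| ≤ 2 * Real.pi * c ^ 3 * |x - y| := by
  unfold GG
  set u := Real.sinc (Real.pi * c * x) with hu
  set v := Real.sinc (Real.pi * c * y) with hv
  have h1 : |u - v| ≤ Real.pi * c * |x - y| := by
    refine (gf_sinc_lip _ _).trans (le_of_eq ?_)
    rw [← mul_sub, abs_mul, abs_of_nonneg (mul_nonneg Real.pi_pos.le hc)]
  have h2 : |u + v| ≤ 2 := by
    refine (abs_add_le _ _).trans ?_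
    have := Real.abs_sinc_le_one (Real.pi * c * x)
    have := Real.abs_sinc_le_one (Real.pi * c * y)
    linarith
  have h3 : (c * u) ^ 2 - (c * v) ^ 2 = c ^ 2 * ((u + v) * (u - v)) := by ring
  rw [h3, abs_mul, abs_mul, abs_of_nonneg (sq_nonneg c)]
  calc c ^ 2 * (|u + v| * |u - v|) ≤ c ^ 2 * (2 * (Real.pi * c * |x - y|)) :=
        mul_le_mul_of_nonneg_left (mul_le_mul h2 h1 (abs_nonneg _) (by norm_num)) (sq_nonneg c)
    _ = 2 * Real.pi * c ^ 3 * |x - y| := by ring

theorem GG_eq (c x : ℝ) (hx : x ≠ 0) :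
    GG c x = (1 - Real.cos (2 * Real.pi * c * x)) / (2 * Real.pi ^ 2 * x ^ 2) := by
  unfold GG
  rw [gf_val hx]
  have h1 : 2 * Real.pi * c * x = 2 * (Real.pi * c * x) := by ring
  rw [h1, Real.cos_two_mul, Real.cos_sq']
  have hp := Real.pi_ne_zero
  field_simp
  ring

/-- for `n ≥ 2` and `T > 1`, `|g_c(n)| = (2 / log T) √G_c(log n / log T)` -/
theorem gMO_abs (c T : ℝ) (n : ℕ) (hT : 1 < T) (hn : 2 ≤ n) :
    |gMO c T n| = 2 / Real.log T * Real.sqrt (GG c (Real.log n / Real.log T)) := by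
  have hlT : 0 < Real.log T := Real.log_pos hT
  have hln : 0 < Real.log n := Real.log_pos (by exact_mod_cast hn)
  have hL : 0 < Real.log n / Real.log T := div_pos hln hlT
  unfold gMO GG
  rw [Real.sqrt_sq_eq_abs, gf_val hL.ne', abs_div, abs_div, abs_mul, abs_of_pos (by norm_num :
    (0 : ℝ) < 2), abs_of_pos (mul_pos Real.pi_pos hln), abs_of_pos (mul_pos Real.pi_pos hL)]
  have hp := Real.pi_ne_zero
  field_simp

end Pool.Agent.Work.MP_7b186b_nt.MO
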