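import Mathlib
import Pool.Agent.Work.MP_7b186b_nt.MO.GF

set_option autoImplicit false

namespace Pool.Agent.Work.MP_7b186b_nt.MO

open Finset

/-- partial sums of `∫_0^u (1 - cos v)/v^2 dv` -/
noncomputable def HP (K : ℕ) (u : ℝ) : ℝ :=
  ∑ k ∈ Icc 1 K, (-1 : ℝ) ^ (k + 1) * u ^ (2 * k - 1) / ((2 * k).factorial * (2 * k - 1 : ℕ))

/-
PROOF. GG c x = (1 - cos(2 pi c x))/(2 pi^2 x^2) for x <> 0 (GG_eq) >= 0. For every real v >= 0 and every k:
sum_{j=1}^{2k} (-1)^(j+1) v^(2j)/(2j)! <= 1 - cos v <= sum_{j=1}^{2k+1} (-1)^(j+1) v^(2j)/(2j)!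
(induction: integrate sin/cos inequalities from 0 to v, alternately). With v = 2 pi c x, divide by 2 pi^2 x^2 and integrate
over [0,z]: term j gives (c/pi) (2 pi c z)^(2j-1)/((2j)! (2j-1)).
-/

private theorem ns_nonneg {f f' : ℝ → ℝ} (h : ∀ x, HasDerivAt f (f' x) x) (h0 : f 0 = 0)
    (hf : ∀ x, 0 < x → 0 ≤ f' x) (x : ℝ) (hx : 0 ≤ x) : 0 ≤ f x := by
  have hm : MonotoneOn f (Set.Ici 0) := by
    apply monotoneOn_of_deriv_nonneg (convex_Ici 0)
    · exact fun y _ => (h y).continuousAt.continuousWithinAt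
    · exact fun y _ => (h y).differentiableAt.differentiableWithinAt
    · intro y hy
      rw [interior_Ici, Set.mem_Ioi] at hy
      rw [(h y).deriv]
      exact hf y hy
  have := hm (Set.mem_Ici.2 le_rfl) (Set.mem_Ici.2 hx) hx
  rwa [h0] at this

private noncomputable def CC (K : ℕ) (v : ℝ) : ℝ :=
  ∑ j ∈ range (K + 1), (-1 : ℝ) ^ j * v ^ (2 * j) / (2 * j).factorial

private noncomputable def SS (K : ℕ) (v : ℝ) : ℝ :=
  ∑ j ∈ range (K + 1), (-1 : ℝ) ^ j * v ^ (2 * j + 1) / (2 * j + 1).factorial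

private theorem SS_deriv (K : ℕ) (v : ℝ) : HasDerivAt (SS K) (CC K v) v := by
  unfold SS CC
  apply HasDerivAt.fun_sum
  intro j _
  have h1 : HasDerivAt (fun v : ℝ => v ^ (2 * j + 1)) ((2 * j + 1 : ℕ) * v ^ (2 * j)) v := by
    have := hasDerivAt_pow (2 * j + 1) v
    simpa using this
  have h2 := (h1.const_mul ((-1 : ℝ) ^ j)).div_const ((2 * j + 1).factorial : ℝ)
  refine h2.congr_deriv ?_
  rw [Nat.factorial_succ]
  push_cast
  have h3 : ((2 * j).factorial : ℝ) ≠ 0 := by positivity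
  have h4 : (2 * (j : ℝ) + 1) ≠ 0 := by positivity
  field_simp

private theorem CC_deriv (K : ℕ) (v : ℝ) : HasDerivAt (CC (K + 1)) (-SS K v) v := by
  have e : CC (K + 1) = fun v => (∑ j ∈ range (K + 1),
      (-1 : ℝ) ^ (j + 1) * v ^ (2 * (j + 1)) / (2 * (j + 1)).factorial) + 1 := by
    funext v
    unfold CC
    rw [sum_range_succ']
    simp
  rw [e]
  have h : HasDerivAt (fun v : ℝ => ∑ j ∈ range (K + 1),
      (-1 : ℝ) ^ (j + 1) * v ^ (2 * (j + 1)) / (2 * (j + 1)).factorial) (-SS K v) v := by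
    unfold SS
    rw [← sum_neg_distrib]
    apply HasDerivAt.fun_sum
    intro j _
    have h1 : HasDerivAt (fun v : ℝ => v ^ (2 * (j + 1))) ((2 * (j + 1) : ℕ) * v ^ (2 * j + 1)) v := by
      have := hasDerivAt_pow (2 * (j + 1)) v
      have e2 : 2 * (j + 1) - 1 = 2 * j + 1 := by omega
      rw [e2] at this
      exact this
    have h2 := (h1.const_mul ((-1 : ℝ) ^ (j + 1))).div_const ((2 * (j + 1)).factorial : ℝ)
    refine h2.congr_deriv ?_
    have e3 : 2 * (j + 1) = (2 * j + 1) + 1 := by ring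
    rw [e3, Nat.factorial_succ]
    push_cast
    have h3 : ((2 * j + 1).factorial : ℝ) ≠ 0 := by positivity
    have h4 : (2 * (j : ℝ) + 1 + 1) ≠ 0 := by positivity
    field_simp
    ring
  exact h.add_const 1

private theorem ns_main (K : ℕ) : (∀ v : ℝ, 0 ≤ v → 0 ≤ (-1 : ℝ) ^ K * (CC K v - Real.cos v)) ∧
    (∀ v : ℝ, 0 ≤ v → 0 ≤ (-1 : ℝ) ^ K * (SS K v - Real.sin v)) := by
  have step : ∀ K : ℕ, (∀ v : ℝ, 0 ≤ v → 0 ≤ (-1 : ℝ) ^ K * (CC K v - Real.cos v)) →
      (∀ v : ℝ, 0 ≤ v → 0 ≤ (-1 : ℝ) ^ K * (SS K v - Real.sin v)) := by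
    intro K h v hv
    apply ns_nonneg (f := fun v => (-1 : ℝ) ^ K * (SS K v - Real.sin v))
      (f' := fun v => (-1 : ℝ) ^ K * (CC K v - Real.cos v))
    · exact fun x => ((SS_deriv K x).sub (Real.hasDerivAt_sin x)).const_mul _
    · unfold SS
      simp
    · exact fun x hx => h x hx.le
    · exact hv
  induction K with
  | zero =>
    have h0 : ∀ v : ℝ, 0 ≤ v → 0 ≤ (-1 : ℝ) ^ 0 * (CC 0 v - Real.cos v) := by
      intro v _
      unfold CC
      simp
      exact Real.cos_le_one v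
    exact ⟨h0, step 0 h0⟩
  | succ K ih =>
    have h1 : ∀ v : ℝ, 0 ≤ v → 0 ≤ (-1 : ℝ) ^ (K + 1) * (CC (K + 1) v - Real.cos v) := by
      intro v hv
      apply ns_nonneg (f := fun v => (-1 : ℝ) ^ (K + 1) * (CC (K + 1) v - Real.cos v))
        (f' := fun v => (-1 : ℝ) ^ (K + 1) * (-SS K v - -Real.sin v))
      · exact fun x => ((CC_deriv K x).sub (Real.hasDerivAt_cos x)).const_mul _
      · unfold CC
        rw [sum_range_succ']
        simp
      · intro x hx
        have := ih.2 x hx.le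
        rw [pow_succ]
        linarith
      · exact hv
    exact ⟨h1, step (K + 1) h1⟩

private theorem ns_HP_deriv (K : ℕ) (u : ℝ) : HasDerivAt (HP K)
    (∑ k ∈ Icc 1 K, (-1 : ℝ) ^ (k + 1) * u ^ (2 * k - 2) / (2 * k).factorial) u := by
  unfold HP
  apply HasDerivAt.fun_sum
  intro k hk
  rw [mem_Icc] at hk
  have h1 : HasDerivAt (fun v : ℝ => v ^ (2 * k - 1)) ((2 * k - 1 : ℕ) * u ^ (2 * k - 2)) u := by
    have := hasDerivAt_pow (2 * k - 1) u
    have e2 : 2 * k - 1 - 1 = 2 * k - 2 := by omega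
    rw [e2] at this
    exact this
  have h2 := (h1.const_mul ((-1 : ℝ) ^ (k + 1))).div_const
    (((2 * k).factorial : ℝ) * ((2 * k - 1 : ℕ) : ℝ))
  refine h2.congr_deriv ?_
  have h3 : ((2 * k).factorial : ℝ) ≠ 0 := by positivity
  have h4 : ((2 * k - 1 : ℕ) : ℝ) ≠ 0 := by
    have : 0 < 2 * k - 1 := by omega
    positivity
  field_simp

private theorem ns_sum (K : ℕ) (u : ℝ) :
    u ^ 2 * ∑ k ∈ Icc 1 K, (-1 : ℝ) ^ (k + 1) * u ^ (2 * k - 2) / (2 * k).factorial =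
      1 - CC K u := by
  have h1 : CC K u = 1 - ∑ k ∈ Icc 1 K, (-1 : ℝ) ^ (k + 1) * u ^ (2 * k) / (2 * k).factorial := by
    unfold CC
    rw [Finset.range_eq_Ico, Finset.sum_eq_sum_Ico_succ_bot (by omega)]
    have e : Ico (0 + 1) (K + 1) = Icc 1 K := by
      ext x
      rw [mem_Ico, mem_Icc]
      omega
    rw [e]
    have h2 : ∑ k ∈ Icc 1 K, (-1 : ℝ) ^ k * u ^ (2 * k) / (2 * k).factorial =
        -∑ k ∈ Icc 1 K, (-1 : ℝ) ^ (k + 1) * u ^ (2 * k) / (2 * k).factorial := by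
      rw [← sum_neg_distrib]
      apply sum_congr rfl
      intro k _
      rw [pow_succ]
      ring
    rw [h2]
    simp
    ring
  rw [h1, sub_sub_cancel, mul_sum]
  apply sum_congr rfl
  intro k hk
  rw [mem_Icc] at hk
  have e : u ^ (2 * k) = u ^ 2 * u ^ (2 * k - 2) := by
    rw [← pow_add]
    congr 1
    omega
  rw [e]
  ring

private theorem ns_GI_deriv (c z : ℝ) : HasDerivAt (GI c) (GG c z) z :=
  ((GG_continuous c).integral_hasStrictDerivAt 0 z).hasDerivAt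

private theorem ns_GI_zero (c : ℝ) : GI c 0 = 0 := by
  unfold GI
  rw [intervalIntegral.integral_same]

private theorem ns_HP_zero (K : ℕ) : HP K 0 = 0 := by
  unfold HP
  apply sum_eq_zero
  intro k hk
  rw [mem_Icc] at hk
  rw [zero_pow (by omega)]
  simp

private theorem ns_diff (c : ℝ) (K : ℕ) (x : ℝ) : HasDerivAt
    (fun z => c / Real.pi * HP K (2 * Real.pi * c * z) - GI c z)
    (c / Real.pi * ((∑ k ∈ Icc 1 K, (-1 : ℝ) ^ (k + 1) * (2 * Real.pi * c * x) ^ (2 * k - 2) /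
      (2 * k).factorial) * (2 * Real.pi * c)) - GG c x) x := by
  have h1 : HasDerivAt (fun z : ℝ => 2 * Real.pi * c * z) (2 * Real.pi * c) x := by
    simpa using (hasDerivAt_id x).const_mul (2 * Real.pi * c)
  have h2 := (ns_HP_deriv K (2 * Real.pi * c * x)).comp x h1
  exact (h2.const_mul (c / Real.pi)).sub (ns_GI_deriv c x)

private theorem ns_val (c x : ℝ) (hc : 0 < c) (hx : 0 < x) (K : ℕ) :
    c / Real.pi * ((∑ k ∈ Icc 1 K, (-1 : ℝ) ^ (k + 1) * (2 * Real.pi * c * x) ^ (2 * k - 2) /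
      (2 * k).factorial) * (2 * Real.pi * c)) - GG c x =
    (Real.cos (2 * Real.pi * c * x) - CC K (2 * Real.pi * c * x)) / (2 * Real.pi ^ 2 * x ^ 2) := by
  have hpi := Real.pi_pos
  have h := ns_sum K (2 * Real.pi * c * x)
  obtain ⟨S, hS⟩ : ∃ S, S = ∑ k ∈ Icc 1 K, (-1 : ℝ) ^ (k + 1) *
      (2 * Real.pi * c * x) ^ (2 * k - 2) / (2 * k).factorial := ⟨_, rfl⟩
  rw [← hS] at h ⊢
  have h2 : CC K (2 * Real.pi * c * x) = 1 - (2 * Real.pi * c * x) ^ 2 * S := by linarith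
  rw [h2, GG_eq c x hx.ne']
  field_simp
  ring

theorem GI_mono (c x y : ℝ) (hxy : x ≤ y) : GI c x ≤ GI c y := by
  have hm : Monotone (GI c) := by
    apply monotone_of_deriv_nonneg (fun z => (ns_GI_deriv c z).differentiableAt)
    intro z
    rw [(ns_GI_deriv c z).deriv]
    exact GG_nonneg c z
  exact hm hxy

/-- odd partial sums are upper bounds, even partial sums are lower bounds -/
theorem GI_le_HP (c z : ℝ) (hc : 0 < c) (hz : 0 ≤ z) (k : ℕ) :
    GI c z ≤ c / Real.pi * HP (2 * k + 1) (2 * Real.pi * c * z) := by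
  have hpi := Real.pi_pos
  have h := ns_nonneg (ns_diff c (2 * k + 1)) (by simp [ns_GI_zero, ns_HP_zero]) (fun x hx => by
    rw [ns_val c x hc hx]
    apply div_nonneg _ (by positivity)
    have h1 := (ns_main (2 * k + 1)).1 (2 * Real.pi * c * x) (by positivity)
    rw [pow_succ, pow_mul, neg_one_sq, one_pow] at h1
    linarith) z hz
  linarith

theorem HP_le_GI (c z : ℝ) (hc : 0 < c) (hz : 0 ≤ z) (k : ℕ) :
    c / Real.pi * HP (2 * k) (2 * Real.pi * c * z) ≤ GI c z := by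
  have hpi := Real.pi_pos
  have hd : ∀ x, HasDerivAt (fun z => -(c / Real.pi * HP (2 * k) (2 * Real.pi * c * z) - GI c z))
      (-(c / Real.pi * ((∑ j ∈ Icc 1 (2 * k), (-1 : ℝ) ^ (j + 1) *
        (2 * Real.pi * c * x) ^ (2 * j - 2) / (2 * j).factorial) * (2 * Real.pi * c)) - GG c x)) x :=
    fun x => (ns_diff c (2 * k) x).neg
  have h := ns_nonneg hd (by simp [ns_GI_zero, ns_HP_zero]) (fun x hx => by
    rw [ns_val c x hc hx, ← neg_div]
    apply div_nonneg _ (by positivity)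
    have h1 := (ns_main (2 * k)).1 (2 * Real.pi * c * x) (by positivity)
    rw [pow_mul, neg_one_sq, one_pow] at h1
    linarith) z hz
  linarith

end Pool.Agent.Work.MP_7b186b_nt.MO
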