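import Mathlib
import Pool.Agent.Work.MP_7b186b_nt.MO.NumS
import Pool.Agent.Work.MP_7b186b_nt.MO.Tab

set_option autoImplicit false
set_option maxRecDepth 100000

namespace Pool.Agent.Work.MP_7b186b_nt.MO

open Finset

/-
PROOF. u_m = 2 pi (277/100) (m/400). GI is monotone in z, and for rational beta_lo <= 2 pi 277/40000 <= beta_hi
(Real.pi_gt_d20, Real.pi_lt_d20) one has, with z' = m beta_hi/(2 pi 277/100) >= m/400,
GI(m/400) <= GI(z') <= (277/100/pi) HP (2k+1) (m beta_hi), and 1/pi < 1/3.14159265358979. Take k about 20 (u <= 17.41).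
Everything on the right is rational: clear denominators ((2K)! and lcm(1,3,..,2K-1)) and check all m <= 400 in ONE kernel
computation with natural numbers or integers (a Boolean function by structural recursion over the list uL, proved by
decide/rfl; maxRecDepth large; no native_decide), then transfer. The entries of uL exceed 10^7 GI by at least 2, those of lL
are below by at least 3.
-/

private def go (x y : ℕ) : List ℕ → ℕ → ℕ → ℕ → ℕ × ℕ × ℕ
  | [], p, n, Y => (p, n, Y)
  | c :: cs, p, n, Y => go x y cs (c * Y + x * n) (x * p) (y * Y)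

/-- `72! * lcm(1,3,...,71)` -/
private def EE : ℕ := 5381019714917482393389147742539183432418141152985701775574014528020838705846147638507511629680531897640519915798528000000000000000000

/-- `EE / ((2i+2)! (2i+1))`, `i = 35, ..., 0` -/
private def cL : List ℕ := [
  1237685644295142061300956675,
  6510441738669715962801519233400,
  32384103257409794610788989774854000,
  152081727500474686531270164719288203200,
  673142693865196291099121990983706594640000,
  2803098598768224607866140519044544497443840000,
  10960685642932660228541260169908720417784555520000,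
  40162259708472200269002238580476058709797934489600000,
  137604664436071242965296724410583081007122588565258240000,
  439815663310763557704174813493448564577482386848202752000000,
  1308115268724636882625793348226808607186274379048166326272000000,
  3610718496439685462222526570089230974268530251326991672672256000000,
  9222696925480515739144985419983237839594405461102241495836262400000000,
  21731133342278889885622690978925837213508311107813174895255790551040000000,
  47075699321704153321994271271789342707867422783553424220769229996032000000000,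
  93411965707721051162540632526529116227835659706799326363534182330662912000000000,
  169104400074269786004556249683025863177375724272293488203031803613063151616000000000,
  278062478392393885959924384613926851775987542289900968169525808968074652549120000000000,
  413296178597974706725919609611020076659726397857292233317573475261062273568866304000000000,
  552313984126384380806456205571090466081634368045654166342575462394328674678394060800000000000,
  659676696008500260765801531208877277327051422943819069774199970019755274472329628876800000000000,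
  699530267436324138588618230611565311460740874426493932196420602691293593123209680938598400000000000,
  653672172126609556170031035493696029931647861547423774419099696514864346462910379632623616000000000000,
  533710255097934170421706939859892934518591845996240563337706520210456441600037066762444529991680000000000,
  377077897623540446493597294466228703735961630323430832792944824061735529391330536299553200537600000000000000,
  227970523248974738508700535740154267744369945646965612054248927918466394340587261374244163525017600000000000000,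
  116408948240081732263758557776367195034519853298255808850017005192892681994335663676469309185248460800000000000000,
  49439565076081770996725693361492420479366667106670996464536633970157950823476675984947553665734934528000000000000000,
  17145641168385158181664470457765571422244360152593501573901304660850777345581711231579811611276875294310400000000000000,
  4748023708168197650307084126765850547698438196102815820464976675312522957238012341052870907738211619962880000000000000000,
  1021256735775086876420596458538909308714045888361751111929103164889948119711376108993735687973509881166561280000000000000000,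
  164762753371714016062522895310944035139199403322362512724561977268911629980102012250989357659726260828205219840000000000000000,
  19065404318726907572949077885980666923250216670159090758127885941116917183411804274757339957768324467263746867200000000000000000,
  1494727698588189553719207706260884286782816986940472715437226257783566307179485455140975452689036638233477754388480000000000000000,
  74736384929409477685960385313044214339140849347023635771861312889178315358974272757048772634451831911673887719424000000000000000000,
  2690509857458741196694573871269591716209070576492850887787007264010419352923073819253755814840265948820259957899264000000000000000000]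

private theorem cL_eq : cL = ((List.range 36).map
    (fun i => EE / ((2 * i + 2).factorial * (2 * i + 1)))).reverse := by decide +kernel

private theorem cL_tail : cL.tail = ((List.range 35).map
    (fun i => EE / ((2 * i + 2).factorial * (2 * i + 1)))).reverse := by decide +kernel

private theorem EE_div : ∀ i < 36, EE / ((2 * i + 2).factorial * (2 * i + 1)) *
    ((2 * i + 2).factorial * (2 * i + 1)) = EE := by decide +kernel

private theorem EE_pos' : 0 < EE := by decide +kernel

private def chkU (cs : List ℕ) (E P Q : ℕ) : ℕ → List ℕ → Bool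
  | _, [] => true
  | m, u :: us => (match go (277 * m * P * (277 * m * P))
      (2000000000000000 * 2000000000000000) cs 0 0 1 with
      | (p, n, Y) => Nat.ble (277 * (277 * m * P) * 2000000000000000 * p *
          1000000000000000000) (100 * E * Y * Q * u +
          277 * (277 * m * P) * 2000000000000000 * n * 1000000000000000000)) &&
      chkU cs E P Q (m + 1) us

private def chkL (cs : List ℕ) (E P Q : ℕ) : ℕ → List ℕ → Bool
  | _, [] => true
  | m, u :: us => (match go (277 * m * P * (277 * m * P))
      (2000000000000000 * 2000000000000000) cs 0 0 1 with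
      | (p, n, Y) => Nat.ble (100 * E * Y * Q * u +
          277 * (277 * m * P) * 2000000000000000 * n * 1000000000000000000)
          (277 * (277 * m * P) * 2000000000000000 * p * 1000000000000000000)) &&
      chkL cs E P Q (m + 1) us

private theorem chkU_ok : chkU cL.tail EE 314159265359 314159265358 0 uL = true := by
  decide +kernel

private theorem chkL_ok : chkL cL EE 314159265358 314159265359 0 lL = true := by
  decide +kernel

private theorem go_spec (x y : ℕ) (hy : 0 < y) (cs : List ℕ) : ∀ (p n Y : ℕ) (r : ℝ), 0 < Y →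
    (y : ℝ) * ((p : ℝ) - n) = r * Y →
    0 < (go x y cs p n Y).2.2 ∧ (y : ℝ) * (((go x y cs p n Y).1 : ℝ) - (go x y cs p n Y).2.1) =
      cs.foldl (fun (r : ℝ) (c : ℕ) => (c : ℝ) - (x / y : ℝ) * r) r * (go x y cs p n Y).2.2 := by
  induction cs with
  | nil =>
    intro p n Y r hY h
    exact ⟨hY, h⟩
  | cons c cs ih =>
    intro p n Y r hY h
    have hy' : (y : ℝ) ≠ 0 := by positivity
    have h1 := ih (c * Y + x * n) (x * p) (y * Y) ((c : ℝ) - (x / y : ℝ) * r) (Nat.mul_pos hy hY) (by
      push_cast
      have e : ((c : ℝ) - x / y * r) * (y * Y) = y * (c * Y) - x * (r * Y) := by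
        field_simp
      rw [e, ← h]
      ring)
    exact h1

private theorem hval (t : ℝ) (K : ℕ) : ∀ c : ℕ → ℕ,
    List.foldl (fun (r : ℝ) (c : ℕ) => (c : ℝ) - t * r) 0 ((List.range K).map c).reverse =
      ∑ i ∈ range K, (-1 : ℝ) ^ i * c i * t ^ i := by
  induction K with
  | zero => intro c; simp
  | succ K ih =>
    intro c
    have h := ih (fun i => c (i + 1))
    rw [List.range_succ_eq_map, List.map_cons, List.map_map, List.reverse_cons, List.foldl_append]
    have e : (List.map (c ∘ Nat.succ) (List.range K)).reverse =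
        ((List.range K).map (fun i => c (i + 1))).reverse := rfl
    rw [e, h, List.foldl_cons, List.foldl_nil, sum_range_succ', mul_sum]
    have e2 : ∑ i ∈ range K, t * ((-1 : ℝ) ^ i * (c (i + 1) : ℝ) * t ^ i) =
        -∑ i ∈ range K, (-1 : ℝ) ^ (i + 1) * (c (i + 1) : ℝ) * t ^ (i + 1) := by
      rw [← sum_neg_distrib]
      apply sum_congr rfl
      intro i _
      ring
    rw [e2]
    simp
    ring

private theorem HP_val (K : ℕ) (E : ℕ) (hdiv : ∀ i < K, E / ((2 * i + 2).factorial * (2 * i + 1)) *
    ((2 * i + 2).factorial * (2 * i + 1)) = E) (u : ℝ) :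
    (E : ℝ) * HP K u = u * ∑ i ∈ range K, (-1 : ℝ) ^ i *
      ((E / ((2 * i + 2).factorial * (2 * i + 1)) : ℕ) : ℝ) * (u ^ 2) ^ i := by
  unfold HP
  have e : Icc 1 K = Ico (0 + 1) (K + 1) := by
    ext x
    rw [mem_Ico, mem_Icc]
    omega
  rw [e, ← sum_Ico_add', ← Finset.range_eq_Ico, mul_sum, mul_sum]
  apply sum_congr rfl
  intro i hi
  rw [mem_range] at hi
  have h1 := hdiv i hi
  have h2 : ((E / ((2 * i + 2).factorial * (2 * i + 1)) : ℕ) : ℝ) *
      ((2 * i + 2).factorial * (2 * i + 1)) = E := by
    exact_mod_cast h1
  obtain ⟨q, hq⟩ : ∃ q : ℝ, q = ((E / ((2 * i + 2).factorial * (2 * i + 1)) : ℕ) : ℝ) := ⟨_, rfl⟩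
  rw [← hq] at h2 ⊢
  rw [← h2]
  have e1 : 2 * (i + 1) - 1 = 2 * i + 1 := by omega
  have e2 : 2 * (i + 1) = 2 * i + 2 := by ring
  rw [e1, e2]
  have h3 : ((2 * i + 2).factorial : ℝ) ≠ 0 := by positivity
  have h5 : (2 * (i : ℝ) + 1) ≠ 0 := by positivity
  push_cast
  field_simp
  ring

private theorem core (K a E b : ℕ) (hb : 0 < b) (hdiv : ∀ i < K,
    E / ((2 * i + 2).factorial * (2 * i + 1)) * ((2 * i + 2).factorial * (2 * i + 1)) = E)
    (cs : List ℕ) (hcs : cs = ((List.range K).map
    (fun i => E / ((2 * i + 2).factorial * (2 * i + 1)))).reverse) (p n Y : ℕ)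
    (hgo : go (a * a) (b * b) cs 0 0 1 = (p, n, Y)) :
    0 < Y ∧ (E : ℝ) * HP K ((a : ℝ) / b) * Y = a * b * ((p : ℝ) - n) := by
  have h := go_spec (a * a) (b * b) (Nat.mul_pos hb hb) cs 0 0 1 0 (by norm_num) (by norm_num)
  rw [hgo] at h
  refine ⟨h.1, ?_⟩
  have h2 := h.2
  rw [hcs, hval] at h2
  rw [HP_val K E hdiv]
  have hb' : (b : ℝ) ≠ 0 := by positivity
  have e : (((a * a : ℕ) : ℝ) / ((b * b : ℕ) : ℝ)) = ((a : ℝ) / b) ^ 2 := by
    push_cast
    field_simp
  rw [e] at h2
  obtain ⟨S, hS⟩ : ∃ S : ℝ, S = ∑ i ∈ range K, (-1 : ℝ) ^ i *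
      ((E / ((2 * i + 2).factorial * (2 * i + 1)) : ℕ) : ℝ) * (((a : ℝ) / b) ^ 2) ^ i := ⟨_, rfl⟩
  rw [← hS] at h2 ⊢
  have h3 : ((b * b : ℕ) : ℝ) * ((p : ℝ) - n) = S * Y := h2
  rw [mul_assoc, ← h3]
  push_cast
  field_simp

private theorem chkU_spec (cs : List ℕ) (E P Q : ℕ) : ∀ (l : List ℕ) (m : ℕ),
    chkU cs E P Q m l = true → ∀ k < l.length, ∀ p n Y,
    go (277 * (m + k) * P * (277 * (m + k) * P)) (2000000000000000 * 2000000000000000) cs 0 0 1 =
      (p, n, Y) →
    277 * (277 * (m + k) * P) * 2000000000000000 * p * 1000000000000000000 ≤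
    100 * E * Y * Q * l.getD k 0 +
    277 * (277 * (m + k) * P) * 2000000000000000 * n * 1000000000000000000 := by
  intro l
  induction l with
  | nil => intro m _ k hk; exact absurd hk (Nat.not_lt_zero k)
  | cons u us ih =>
    intro m h k hk p n Y hgo
    rw [chkU, Bool.and_eq_true] at h
    cases k with
    | zero =>
      rw [Nat.add_zero] at hgo
      have h1 := h.1
      rw [hgo] at h1
      exact Nat.le_of_ble_eq_true h1
    | succ k =>
      have e : m + (k + 1) = m + 1 + k := by omega
      rw [e] at hgo ⊢
      rw [List.getD_cons_succ]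
      exact ih (m + 1) h.2 k (by simpa using hk) p n Y hgo

private theorem chkL_spec (cs : List ℕ) (E P Q : ℕ) : ∀ (l : List ℕ) (m : ℕ),
    chkL cs E P Q m l = true → ∀ k < l.length, ∀ p n Y,
    go (277 * (m + k) * P * (277 * (m + k) * P)) (2000000000000000 * 2000000000000000) cs 0 0 1 =
      (p, n, Y) →
    100 * E * Y * Q * l.getD k 0 +
    277 * (277 * (m + k) * P) * 2000000000000000 * n * 1000000000000000000 ≤
    277 * (277 * (m + k) * P) * 2000000000000000 * p * 1000000000000000000 := by
  intro l
  induction l with
  | nil => intro m _ k hk; exact absurd hk (Nat.not_lt_zero k)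
  | cons u us ih =>
    intro m h k hk p n Y hgo
    rw [chkL, Bool.and_eq_true] at h
    cases k with
    | zero =>
      rw [Nat.add_zero] at hgo
      have h1 := h.1
      rw [hgo] at h1
      exact Nat.le_of_ble_eq_true h1
    | succ k =>
      have e : m + (k + 1) = m + 1 + k := by omega
      rw [e] at hgo ⊢
      rw [List.getD_cons_succ]
      exact ih (m + 1) h.2 k (by simpa using hk) p n Y hgo

private theorem uL_len : uL.length = 401 := by decide +kernel
private theorem lL_len : lL.length = 401 := by decide +kernel

private theorem ng_upper (E a p n Y U : ℕ) (H : ℝ) (hE : 0 < E) (hY : 0 < Y)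
    (h4 : (E : ℝ) * H * Y = a * (2000000000000000 : ℕ) * ((p : ℝ) - n))
    (h1 : 277 * a * 2000000000000000 * p * 1000000000000000000 ≤
      100 * E * Y * 314159265358 * U + 277 * a * 2000000000000000 * n * 1000000000000000000) :
    277 * H * 1000000000000000000 ≤ 100 * 314159265358 * (U : ℝ) := by
  have h5 : (277 * (a : ℝ) * 2000000000000000 * p * 1000000000000000000) ≤
      100 * E * Y * 314159265358 * U + 277 * a * 2000000000000000 * n * 1000000000000000000 := by
    exact_mod_cast h1
  have hE' : (0 : ℝ) < E := by exact_mod_cast hE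
  have hY' : (0 : ℝ) < Y := by exact_mod_cast hY
  push_cast at h4
  have h7 : (E : ℝ) * Y * (277 * H * 1000000000000000000) ≤ E * Y * (100 * 314159265358 * U) := by
    have e1 : (E : ℝ) * Y * (277 * H * 1000000000000000000) =
        277 * 1000000000000000000 * (E * H * Y) := by ring
    rw [e1, h4]
    linarith
  exact le_of_mul_le_mul_left h7 (mul_pos hE' hY')

private theorem ng_lower (E a p n Y U : ℕ) (H : ℝ) (hE : 0 < E) (hY : 0 < Y)
    (h4 : (E : ℝ) * H * Y = a * (2000000000000000 : ℕ) * ((p : ℝ) - n))
    (h1 : 100 * E * Y * 314159265359 * U + 277 * a * 2000000000000000 * n * 1000000000000000000 ≤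
      277 * a * 2000000000000000 * p * 1000000000000000000) :
    100 * 314159265359 * (U : ℝ) ≤ 277 * H * 1000000000000000000 := by
  have h5 : 100 * E * Y * 314159265359 * U + 277 * a * 2000000000000000 * n * 1000000000000000000 ≤
      (277 * (a : ℝ) * 2000000000000000 * p * 1000000000000000000) := by
    exact_mod_cast h1
  have hE' : (0 : ℝ) < E := by exact_mod_cast hE
  have hY' : (0 : ℝ) < Y := by exact_mod_cast hY
  push_cast at h4
  have h7 : (E : ℝ) * Y * (100 * 314159265359 * U) ≤ E * Y * (277 * H * 1000000000000000000) := by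
    have e1 : (E : ℝ) * Y * (277 * H * 1000000000000000000) =
        277 * 1000000000000000000 * (E * H * Y) := by ring
    rw [e1, h4]
    linarith
  exact le_of_mul_le_mul_left h7 (mul_pos hE' hY')

private theorem ng_up (m U : ℕ) (u : ℝ)
    (hu : u = ((277 * m * 314159265359 : ℕ) : ℝ) / (2000000000000000 : ℕ))
    (h6 : 277 * HP 35 u * 1000000000000000000 ≤ 100 * 314159265358 * (U : ℝ)) :
    GI (277 / 100) ((m : ℝ) / 400) ≤ (U : ℝ) / 10 ^ 7 := by
  have hpi := Real.pi_pos
  have hp1 : (3.14159265358 : ℝ) < Real.pi := by linarith [Real.pi_gt_d20]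
  have hp2 : Real.pi < (3.14159265359 : ℝ) := by linarith [Real.pi_lt_d20]
  push_cast at hu
  obtain ⟨z, hz⟩ : ∃ z : ℝ, z = u / (2 * Real.pi * (277 / 100)) := ⟨_, rfl⟩
  have hm0 : (0 : ℝ) ≤ m := Nat.cast_nonneg m
  have hz0 : 0 ≤ z := by rw [hz, hu]; positivity
  have hmz : (m : ℝ) / 400 ≤ z := by
    rw [hz, hu, le_div_iff₀ (by positivity)]
    nlinarith
  have h8 := GI_le_HP (277 / 100) z (by norm_num) hz0 17
  have e2 : 2 * Real.pi * (277 / 100) * z = u := by
    rw [hz]; field_simp
  rw [e2] at h8
  refine (GI_mono _ _ _ hmz).trans (h8.trans ?_)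
  have hun : (0 : ℝ) ≤ U := Nat.cast_nonneg _
  have h9 : 277 / 100 * HP 35 u ≤ Real.pi * (U / 10 ^ 7) := by
    have : 277 / 100 * HP 35 u ≤ 3.14159265358 * (U / 10 ^ 7) := by
      norm_num
      linarith
    refine this.trans ?_
    apply mul_le_mul_of_nonneg_right hp1.le
    positivity
  rw [div_mul_eq_mul_div, div_le_iff₀ hpi]
  linarith

private theorem ng_lo (m U : ℕ) (u : ℝ)
    (hu : u = ((277 * m * 314159265358 : ℕ) : ℝ) / (2000000000000000 : ℕ))
    (h6 : 100 * 314159265359 * (U : ℝ) ≤ 277 * HP 36 u * 1000000000000000000) :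
    (U : ℝ) / 10 ^ 7 ≤ GI (277 / 100) ((m : ℝ) / 400) := by
  have hpi := Real.pi_pos
  have hp1 : (3.14159265358 : ℝ) < Real.pi := by linarith [Real.pi_gt_d20]
  have hp2 : Real.pi < (3.14159265359 : ℝ) := by linarith [Real.pi_lt_d20]
  push_cast at hu
  obtain ⟨z, hz⟩ : ∃ z : ℝ, z = u / (2 * Real.pi * (277 / 100)) := ⟨_, rfl⟩
  have hm0 : (0 : ℝ) ≤ m := Nat.cast_nonneg m
  have hz0 : 0 ≤ z := by rw [hz, hu]; positivity
  have hmz : z ≤ (m : ℝ) / 400 := by
    rw [hz, hu, div_le_iff₀ (by positivity)]
    nlinarith
  have h8 := HP_le_GI (277 / 100) z (by norm_num) hz0 18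
  have e2 : 2 * Real.pi * (277 / 100) * z = u := by
    rw [hz]; field_simp
  rw [e2] at h8
  refine le_trans (le_trans ?_ h8) (GI_mono _ _ _ hmz)
  have hln : (0 : ℝ) ≤ U := Nat.cast_nonneg _
  have h9 : Real.pi * (U / 10 ^ 7) ≤ 277 / 100 * HP 36 u := by
    have : 3.14159265359 * ((U : ℝ) / 10 ^ 7) ≤ 277 / 100 * HP 36 u := by
      norm_num
      linarith
    refine le_trans ?_ this
    apply mul_le_mul_of_nonneg_right hp2.le
    positivity
  rw [div_mul_eq_mul_div, le_div_iff₀ hpi]
  linarith

private theorem ng_final_up (cs : List ℕ) (E : ℕ) (hE : 0 < E) (hdiv : ∀ i < 35,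
    E / ((2 * i + 2).factorial * (2 * i + 1)) * ((2 * i + 2).factorial * (2 * i + 1)) = E)
    (hcs : cs = ((List.range 35).map
    (fun i => E / ((2 * i + 2).factorial * (2 * i + 1)))).reverse) (l : List ℕ)
    (hok : chkU cs E 314159265359 314159265358 0 l = true) (m : ℕ) (hm : m < l.length) :
    GI (277 / 100) ((m : ℝ) / 400) ≤ ((l.getD m 0 : ℕ) : ℝ) / 10 ^ 7 := by
  obtain ⟨⟨p, n, Y⟩, hr⟩ : ∃ r : ℕ × ℕ × ℕ, go (277 * m * 314159265359 * (277 * m * 314159265359))
    (2000000000000000 * 2000000000000000) cs 0 0 1 = r := ⟨_, rfl⟩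
  have h1 := chkU_spec cs E 314159265359 314159265358 l 0 hok m hm p n Y (by
    rw [Nat.zero_add]; exact hr)
  rw [Nat.zero_add] at h1
  obtain ⟨h3, h4⟩ := core 35 (277 * m * 314159265359) E 2000000000000000 (by norm_num) hdiv cs hcs
    p n Y hr
  exact ng_up m _ _ rfl (ng_upper E _ p n Y _ _ hE h3 h4 h1)

private theorem ng_final_lo (cs : List ℕ) (E : ℕ) (hE : 0 < E) (hdiv : ∀ i < 36,
    E / ((2 * i + 2).factorial * (2 * i + 1)) * ((2 * i + 2).factorial * (2 * i + 1)) = E)
    (hcs : cs = ((List.range 36).map
    (fun i => E / ((2 * i + 2).factorial * (2 * i + 1)))).reverse) (l : List ℕ)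
    (hok : chkL cs E 314159265358 314159265359 0 l = true) (m : ℕ) (hm : m < l.length) :
    ((l.getD m 0 : ℕ) : ℝ) / 10 ^ 7 ≤ GI (277 / 100) ((m : ℝ) / 400) := by
  obtain ⟨⟨p, n, Y⟩, hr⟩ : ∃ r : ℕ × ℕ × ℕ, go (277 * m * 314159265358 * (277 * m * 314159265358))
    (2000000000000000 * 2000000000000000) cs 0 0 1 = r := ⟨_, rfl⟩
  have h1 := chkL_spec cs E 314159265358 314159265359 l 0 hok m hm p n Y (by
    rw [Nat.zero_add]; exact hr)
  rw [Nat.zero_add] at h1
  obtain ⟨h3, h4⟩ := core 36 (277 * m * 314159265358) E 2000000000000000 (by norm_num) hdiv cs hcs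
    p n Y hr
  exact ng_lo m _ _ rfl (ng_lower E _ p n Y _ _ hE h3 h4 h1)

theorem GI_le_un (m : ℕ) (hm : m ≤ 400) : GI (277 / 100) ((m : ℝ) / 400) ≤ (un m : ℝ) / 10 ^ 7 :=
  ng_final_up cL.tail EE EE_pos' (fun i hi => EE_div i (Nat.lt_succ_of_lt hi)) cL_tail uL chkU_ok m
    (by rw [uL_len]; exact Nat.lt_succ_of_le hm)

theorem ln_le_GI (m : ℕ) (hm : m ≤ 400) : (ln m : ℝ) / 10 ^ 7 ≤ GI (277 / 100) ((m : ℝ) / 400) :=
  ng_final_lo cL EE EE_pos' EE_div cL_eq lL chkL_ok m
    (by rw [lL_len]; exact Nat.lt_succ_of_le hm)

end Pool.Agent.Work.MP_7b186b_nt.MO
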