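import Mathlib
import Pool.Agent.Work.MP_7b186b_nt.MO.Defs

set_option autoImplicit false

namespace Pool.Agent.Work.MP_7b186b_nt.MO

open Finset ArithmeticFunction

/-
PROOF. |Re(a_k conj(a_{kn}) g n)| Lambda(n)/sqrt n <= Lambda(n) |a_k| |a_{kn}| (b n)/sqrt n
  <= (1/2) Lambda(n) ( w(kn) |a_{kn}|^2 + (b n)^2/(n w(kn)) |a_k|^2 )   (2uv <= u^2+v^2).
Sum over k <= X, 2 <= n <= X/k. The second part is exactly (1/2) sum_m |a_m|^2 sum_{n<=X/m} Lambda(n)/n (b n)^2/w(mn).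
First part: regroup the pairs (k,n) by m = k n <= X: for fixed m the sum of Lambda(n) over the divisors n >= 2 of m
is log m (ArithmeticFunction.vonMangoldt_sum; Lambda(1) = 0). An inequality is enough (the pairs (k,n) inject into
pairs (m, n), n | m).
-/

private theorem schur_elem {A B W β r n : ℝ} (hW : 0 < W) (hr : 0 < r) (hn : r ^ 2 = n) :
    B * A * β / r ≤ (1 / 2) * (W * A ^ 2 + β ^ 2 / (n * W) * B ^ 2) := by
  have h1 : 0 ≤ (W * A - β * B / r) ^ 2 / W := by positivity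
  have h2 : (W * A - β * B / r) ^ 2 / W = W * A ^ 2 - 2 * (B * A * β / r) + β ^ 2 / (n * W) * B ^ 2 := by
    rw [← hn]
    field_simp
    ring
  rw [h2] at h1
  linarith

private theorem schur_first (X : ℕ) (F : ℕ → ℝ) (hF : ∀ m, 0 ≤ F m) :
    ∑ k ∈ Icc 1 X, ∑ n ∈ Icc 2 (X / k), F (k * n) * vonMangoldt n ≤
      ∑ m ∈ Icc 1 X, F m * Real.log m := by
  have h1 : ∀ m ∈ Icc 1 X, F m * Real.log m = ∑ n ∈ m.divisors, F m * vonMangoldt n := by
    intro m _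
    rw [← Finset.mul_sum, ArithmeticFunction.vonMangoldt_sum]
  rw [Finset.sum_congr rfl h1, Finset.sum_sigma', Finset.sum_sigma']
  have hinj : Set.InjOn (fun p : (_ : ℕ) × ℕ => (⟨p.1 * p.2, p.2⟩ : (_ : ℕ) × ℕ))
      ((Icc 1 X).sigma fun k => Icc 2 (X / k) : Finset ((_ : ℕ) × ℕ)) := by
    rintro ⟨k, n⟩ hp ⟨k', n'⟩ hp' he
    simp only [Finset.coe_sigma, Set.mem_sigma_iff, Finset.coe_Icc, Set.mem_Icc] at hp hp'
    simp only [Sigma.mk.injEq, heq_eq_eq] at he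
    obtain ⟨h2, h3⟩ := he
    subst h3
    have h4 : 0 < n := by omega
    have h5 := Nat.eq_of_mul_eq_mul_right h4 h2
    rw [h5]
  have h2 := Finset.sum_image (f := fun q : (_ : ℕ) × ℕ => F q.1 * vonMangoldt q.2) hinj
  rw [← h2]
  refine Finset.sum_le_sum_of_subset_of_nonneg ?_ fun q _ _ =>
    mul_nonneg (hF _) ArithmeticFunction.vonMangoldt_nonneg
  intro q hq
  obtain ⟨⟨k, n⟩, hp, rfl⟩ := Finset.mem_image.1 hq
  simp only [Finset.mem_sigma, Finset.mem_Icc] at hp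
  obtain ⟨⟨hk1, hk2⟩, hn1, hn2⟩ := hp
  simp only [Finset.mem_sigma, Finset.mem_Icc, Nat.mem_divisors]
  have h3 : k * n ≤ X := by
    rw [mul_comm]
    exact (Nat.le_div_iff_mul_le (by omega)).1 hn2
  have h4 : 0 < k * n := Nat.mul_pos (by omega) (by omega)
  exact ⟨⟨h4, h3⟩, Dvd.intro_left k rfl, by omega⟩

theorem schur (X : ℕ) (a g : ℕ → ℂ) (b w : ℕ → ℝ) (hb : ∀ n ∈ Icc 2 X, ‖g n‖ ≤ b n)
    (hb0 : ∀ n, 0 ≤ b n) (hw : ∀ m, 0 < w m) :
    |corr X a g| ≤ (1 / 2) * ∑ m ∈ Icc 1 X, ‖a m‖ ^ 2 * (w m * Real.log m +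
      ∑ n ∈ Icc 2 (X / m), vonMangoldt n / n * (b n ^ 2 / w (m * n))) := by
  have hF : ∀ m, 0 ≤ w m * ‖a m‖ ^ 2 := fun m => mul_nonneg (hw m).le (sq_nonneg _)
  have h1 := schur_first X (fun m => w m * ‖a m‖ ^ 2) hF
  have hterm : ∀ k ∈ Icc 1 X, ∀ n ∈ Icc 2 (X / k),
      |(a k * (starRingEnd ℂ) (a (k * n)) * g n).re * vonMangoldt n / Real.sqrt n| ≤
        (1 / 2) * ((w (k * n) * ‖a (k * n)‖ ^ 2) * vonMangoldt n +
          ‖a k‖ ^ 2 * (vonMangoldt n / n * (b n ^ 2 / w (k * n)))) := by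
    intro k hk n hn
    rw [Finset.mem_Icc] at hk hn
    have hnX : n ∈ Icc 2 X := Finset.mem_Icc.2 ⟨hn.1, hn.2.trans (Nat.div_le_self _ _)⟩
    have hn0 : (0 : ℝ) < n := by
      have : 0 < n := by omega
      exact_mod_cast this
    have hr : 0 < Real.sqrt n := Real.sqrt_pos.2 hn0
    have hL : 0 ≤ vonMangoldt n := ArithmeticFunction.vonMangoldt_nonneg
    have h2 : |(a k * (starRingEnd ℂ) (a (k * n)) * g n).re| ≤ ‖a k‖ * ‖a (k * n)‖ * b n := by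
      refine (Complex.abs_re_le_norm _).trans ?_
      rw [norm_mul, norm_mul, RCLike.norm_conj]
      exact mul_le_mul_of_nonneg_left (hb n hnX) (by positivity)
    have h3 := schur_elem (A := ‖a (k * n)‖) (B := ‖a k‖) (β := b n) (hw (k * n)) hr
      (Real.sq_sqrt hn0.le)
    rw [abs_div, abs_mul, abs_of_nonneg hL, abs_of_pos hr]
    calc |(a k * (starRingEnd ℂ) (a (k * n)) * g n).re| * vonMangoldt n / Real.sqrt n
        ≤ ‖a k‖ * ‖a (k * n)‖ * b n * vonMangoldt n / Real.sqrt n := by gcongr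
      _ = (‖a k‖ * ‖a (k * n)‖ * b n / Real.sqrt n) * vonMangoldt n := by ring
      _ ≤ ((1 / 2) * (w (k * n) * ‖a (k * n)‖ ^ 2 + b n ^ 2 / (n * w (k * n)) * ‖a k‖ ^ 2)) *
          vonMangoldt n := mul_le_mul_of_nonneg_right h3 hL
      _ = _ := by
        have h4 := (hw (k * n)).ne'
        field_simp
  unfold corr
  calc |∑ k ∈ Icc 1 X, ∑ n ∈ Icc 2 (X / k),
        (a k * (starRingEnd ℂ) (a (k * n)) * g n).re * vonMangoldt n / Real.sqrt n|
      ≤ ∑ k ∈ Icc 1 X, ∑ n ∈ Icc 2 (X / k),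
        |(a k * (starRingEnd ℂ) (a (k * n)) * g n).re * vonMangoldt n / Real.sqrt n| := by
        refine (Finset.abs_sum_le_sum_abs _ _).trans (Finset.sum_le_sum fun k _ => ?_)
        exact Finset.abs_sum_le_sum_abs _ _
    _ ≤ ∑ k ∈ Icc 1 X, ∑ n ∈ Icc 2 (X / k), (1 / 2) * ((w (k * n) * ‖a (k * n)‖ ^ 2) *
          vonMangoldt n + ‖a k‖ ^ 2 * (vonMangoldt n / n * (b n ^ 2 / w (k * n)))) :=
        Finset.sum_le_sum fun k hk => Finset.sum_le_sum fun n hn => hterm k hk n hn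
    _ = (1 / 2) * (∑ k ∈ Icc 1 X, ∑ n ∈ Icc 2 (X / k), (w (k * n) * ‖a (k * n)‖ ^ 2) *
          vonMangoldt n + ∑ k ∈ Icc 1 X, ‖a k‖ ^ 2 *
            ∑ n ∈ Icc 2 (X / k), vonMangoldt n / n * (b n ^ 2 / w (k * n))) := by
        rw [← Finset.sum_add_distrib, Finset.mul_sum]
        refine Finset.sum_congr rfl fun k _ => ?_
        rw [Finset.mul_sum, ← Finset.sum_add_distrib, Finset.mul_sum]
    _ ≤ (1 / 2) * (∑ m ∈ Icc 1 X, (w m * ‖a m‖ ^ 2) * Real.log m + ∑ k ∈ Icc 1 X, ‖a k‖ ^ 2 *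
            ∑ n ∈ Icc 2 (X / k), vonMangoldt n / n * (b n ^ 2 / w (k * n))) := by
        linarith
    _ = _ := by
        rw [← Finset.sum_add_distrib]
        congr 1
        refine Finset.sum_congr rfl fun m _ => ?_
        ring

end Pool.Agent.Work.MP_7b186b_nt.MO
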