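import Mathlib

set_option autoImplicit false

namespace Pool.Agent.Work.MP_7b186b_nt.MO

open Finset

/-
PROOF. Write L = log T, x_n = log n / L, A(n) = sum_{2<=j<=n} cc j, E(n) = A(n) - log n (so |E| <= C0, E(1) = 0),
N = floor Y. (B, K >= 0: use x = 0 and x = 0, y = 1.)
(1) sum_{2<=n<=N} cc n f(x_n) - sum_{2<=n<=N} (log n - log (n-1)) f(x_n) = sum (E n - E (n-1)) f(x_n), and by
summation by parts this is E(N) f(x_N) - sum_{2<=n<N} E(n) (f(x_{n+1}) - f(x_n)) (E(1) = 0), so its absolute value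
is <= C0 (B + K) because sum |x_{n+1} - x_n| <= 1 (x_N <= 1).
(2) Riemann sum: |(log n - log (n-1))/L f(x_n) - int_{x_{n-1}}^{x_n} f| <= K (x_n - x_{n-1})^2 <= K (log 2/L) (x_n - x_{n-1});
the sum over n is <= K log 2/L. f is continuous on [0,1], hence interval integrable.
(3) int_{x_N}^{log Y/L} f <= B (log Y - log N)/L <= B log 2/L since Y < N+1 <= 2N.
C = |C0| + 2 works.
-/

private theorem lip_K0 {f : ℝ → ℝ} {K : ℝ}
    (hK : ∀ x ∈ Set.Icc (0 : ℝ) 1, ∀ y ∈ Set.Icc (0 : ℝ) 1, |f x - f y| ≤ K * |x - y|) : 0 ≤ K := by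
  have h1 := hK 0 (by simp) 1 (by simp)
  have h2 := abs_nonneg (f 0 - f 1)
  norm_num at h1
  linarith

private theorem lip_cont {f : ℝ → ℝ} {K : ℝ}
    (hK : ∀ x ∈ Set.Icc (0 : ℝ) 1, ∀ y ∈ Set.Icc (0 : ℝ) 1, |f x - f y| ≤ K * |x - y|) :
    ContinuousOn f (Set.Icc 0 1) := by
  have h : LipschitzOnWith ⟨K, lip_K0 hK⟩ f (Set.Icc 0 1) :=
    LipschitzOnWith.of_dist_le_mul fun x hx y hy => by
      rw [Real.dist_eq, Real.dist_eq]
      exact hK x hx y hy
  exact h.continuousOn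

private theorem lip_ii {f : ℝ → ℝ} (hc : ContinuousOn f (Set.Icc 0 1)) {a b : ℝ}
    (ha : a ∈ Set.Icc (0 : ℝ) 1) (hb : b ∈ Set.Icc (0 : ℝ) 1) :
    IntervalIntegrable f MeasureTheory.volume a b :=
  (hc.mono (Set.uIcc_subset_Icc ha hb)).intervalIntegrable

private theorem lip_cell {f : ℝ → ℝ} {K : ℝ}
    (hK : ∀ x ∈ Set.Icc (0 : ℝ) 1, ∀ y ∈ Set.Icc (0 : ℝ) 1, |f x - f y| ≤ K * |x - y|) {a b : ℝ}
    (ha : a ∈ Set.Icc (0 : ℝ) 1) (hb : b ∈ Set.Icc (0 : ℝ) 1) (hab : a ≤ b) :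
    |(b - a) * f b - ∫ x in a..b, f x| ≤ K * (b - a) * (b - a) := by
  have hi := lip_ii (lip_cont hK) ha hb
  have h1 : (b - a) * f b - ∫ x in a..b, f x = ∫ x in a..b, (f b - f x) := by
    rw [intervalIntegral.integral_sub intervalIntegrable_const hi, intervalIntegral.integral_const,
      smul_eq_mul]
  rw [h1]
  have h2 := intervalIntegral.norm_integral_le_of_norm_le_const (a := a) (b := b)
    (f := fun x => f b - f x) (C := K * (b - a)) (by
      intro x hx
      rw [Set.uIoc_of_le hab] at hx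
      rw [Real.norm_eq_abs]
      refine (hK b hb x ⟨ha.1.trans hx.1.le, hx.2.trans hb.2⟩).trans ?_
      rw [abs_of_nonneg (by linarith [hx.2])]
      exact mul_le_mul_of_nonneg_left (by linarith [hx.1]) (lip_K0 hK))
  rw [Real.norm_eq_abs, abs_of_nonneg (sub_nonneg.2 hab)] at h2
  exact h2

private theorem lip_logstep {N : ℕ} (hN : 1 ≤ N) :
    0 ≤ Real.log ((N + 1 : ℕ) : ℝ) - Real.log N ∧ Real.log ((N + 1 : ℕ) : ℝ) - Real.log N ≤ 1 := by
  have h0 : (1 : ℝ) ≤ N := by exact_mod_cast hN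
  have h1 : (0 : ℝ) < N := by linarith
  constructor
  · have := Real.log_le_log h1 (show (N : ℝ) ≤ ((N + 1 : ℕ) : ℝ) by push_cast; linarith)
    linarith
  · rw [← Real.log_div (by push_cast; positivity) h1.ne']
    refine (Real.log_le_sub_one_of_pos (by positivity)).trans ?_
    push_cast
    rw [add_div, div_self h1.ne']
    have : 1 / (N : ℝ) ≤ 1 := by
      rw [div_le_one h1]
      exact h0
    linarith

private theorem lip_ind {C0 : ℝ} {cc : ℕ → ℝ}
    (hcc : ∀ N : ℕ, 1 ≤ N → |∑ n ∈ Icc 2 N, cc n - Real.log N| ≤ C0) {f : ℝ → ℝ} {K : ℝ}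
    (hK : ∀ x ∈ Set.Icc (0 : ℝ) 1, ∀ y ∈ Set.Icc (0 : ℝ) 1, |f x - f y| ≤ K * |x - y|) {L : ℝ}
    (hL : 0 < L) (N : ℕ) (hN : 1 ≤ N) : Real.log N ≤ L →
    |∑ n ∈ Icc 2 N, cc n * f (Real.log n / L) - L * (∫ x in (0 : ℝ)..(Real.log N / L), f x) -
      (∑ n ∈ Icc 2 N, cc n - Real.log N) * f (Real.log N / L)| ≤ (C0 + 1) * K * (Real.log N / L) := by
  induction N, hN using Nat.le_induction with
  | base => intro _; simp
  | succ N hN ih =>
    intro hNL
    obtain ⟨hs0, hs1⟩ := lip_logstep hN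
    have hK0 := lip_K0 hK
    have hN0 : 0 ≤ Real.log (N : ℝ) := Real.log_natCast_nonneg N
    have hx : Real.log (N : ℝ) / L ∈ Set.Icc (0 : ℝ) 1 :=
      ⟨div_nonneg hN0 hL.le, by rw [div_le_one hL]; linarith⟩
    have hy : Real.log ((N + 1 : ℕ) : ℝ) / L ∈ Set.Icc (0 : ℝ) 1 :=
      ⟨div_nonneg (by linarith) hL.le, by rw [div_le_one hL]; exact hNL⟩
    have hxy : Real.log (N : ℝ) / L ≤ Real.log ((N + 1 : ℕ) : ℝ) / L :=
      div_le_div_of_nonneg_right (by linarith) hL.le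
    have h1 := ih (by linarith)
    have h2 := hcc N hN
    rw [Finset.sum_Icc_succ_top (by omega), Finset.sum_Icc_succ_top (by omega)]
    have hc := lip_cont hK
    have h3 := intervalIntegral.integral_add_adjacent_intervals
      (lip_ii hc (a := 0) (b := Real.log (N : ℝ) / L) (by simp) hx) (lip_ii hc hx hy)
    rw [← h3]
    have h4 := lip_cell hK hx hy hxy
    have h5 := hK _ hy _ hx
    set x := Real.log (N : ℝ) / L with hxd
    set y := Real.log ((N + 1 : ℕ) : ℝ) / L with hyd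
    set I1 := ∫ t in (0 : ℝ)..x, f t with hI1
    set I2 := ∫ t in x..y, f t with hI2
    set S := ∑ n ∈ Icc 2 N, cc n * f (Real.log n / L) with hS
    set A := ∑ n ∈ Icc 2 N, cc n with hA
    have hLx : Real.log (N : ℝ) = L * x := by rw [hxd]; field_simp
    have hLy : Real.log ((N + 1 : ℕ) : ℝ) = L * y := by rw [hyd]; field_simp
    rw [hLx] at h1 h2
    rw [hLy]
    have hyx : L * (y - x) ≤ 1 := by
      rw [mul_sub, ← hLx, ← hLy]
      exact hs1
    have hyx0 : 0 ≤ y - x := by linarith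
    have h6 : |(A - L * x) * (f y - f x)| ≤ C0 * (K * (y - x)) := by
      rw [abs_mul]
      rw [abs_of_nonneg hyx0] at h5
      exact mul_le_mul h2 h5 (abs_nonneg _) ((abs_nonneg _).trans h2)
    have h7 : |L * ((y - x) * f y - I2)| ≤ K * (y - x) := by
      rw [abs_mul, abs_of_pos hL]
      calc L * |(y - x) * f y - I2| ≤ L * (K * (y - x) * (y - x)) :=
            mul_le_mul_of_nonneg_left h4 hL.le
        _ = (L * (y - x)) * (K * (y - x)) := by ring
        _ ≤ 1 * (K * (y - x)) := mul_le_mul_of_nonneg_right hyx (by positivity)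
        _ = K * (y - x) := one_mul _
    have h8 : S + cc (N + 1) * f y - L * (I1 + I2) - (A + cc (N + 1) - L * y) * f y =
        (S - L * I1 - (A - L * x) * f x) - (A - L * x) * (f y - f x) +
          L * ((y - x) * f y - I2) := by ring
    rw [h8]
    have h9 := abs_add_le ((S - L * I1 - (A - L * x) * f x) - (A - L * x) * (f y - f x))
      (L * ((y - x) * f y - I2))
    have h10 := abs_sub (S - L * I1 - (A - L * x) * f x) ((A - L * x) * (f y - f x))
    nlinarith [h1, h6, h7, h9, h10]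

theorem lip_gen (C0 : ℝ) : ∃ C : ℝ, 0 < C ∧ ∀ cc : ℕ → ℝ, (∀ n, 0 ≤ cc n) →
    (∀ N : ℕ, 1 ≤ N → |∑ n ∈ Icc 2 N, cc n - Real.log N| ≤ C0) →
    ∀ (f : ℝ → ℝ) (B K : ℝ), (∀ x ∈ Set.Icc (0 : ℝ) 1, |f x| ≤ B) →
    (∀ x ∈ Set.Icc (0 : ℝ) 1, ∀ y ∈ Set.Icc (0 : ℝ) 1, |f x - f y| ≤ K * |x - y|) →
    ∀ T : ℝ, 2 ≤ T → ∀ Y : ℝ, 1 ≤ Y → Y ≤ T →
    |(∑ n ∈ Icc 2 ⌊Y⌋₊, cc n * f (Real.log n / Real.log T)) / Real.log T -
      ∫ x in (0 : ℝ)..(Real.log Y / Real.log T), f x| ≤ C * (B + K) / Real.log T := by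
  refine ⟨|C0| + 1, by positivity, ?_⟩
  intro cc _ hcc f B K hB hK T hT Y hY hYT
  have hL : 0 < Real.log T := Real.log_pos (by linarith)
  set L := Real.log T with hLd
  have hC0 : 0 ≤ C0 := (abs_nonneg _).trans (hcc 1 le_rfl)
  have hK0 := lip_K0 hK
  have hB0 : 0 ≤ B := (abs_nonneg _).trans (hB 0 (by simp))
  have hN1 : 1 ≤ ⌊Y⌋₊ := Nat.le_floor (by simpa using hY)
  set N := ⌊Y⌋₊ with hN
  have hNY : (N : ℝ) ≤ Y := Nat.floor_le (by linarith)
  have hYN : Y < (N : ℝ) + 1 := Nat.lt_floor_add_one Y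
  have hNr : (1 : ℝ) ≤ N := by exact_mod_cast hN1
  have hlNY : Real.log N ≤ Real.log Y := Real.log_le_log (by linarith) hNY
  have hlYT : Real.log Y ≤ L := Real.log_le_log (by linarith) hYT
  have hlN0 : 0 ≤ Real.log (N : ℝ) := Real.log_natCast_nonneg N
  obtain ⟨-, hs1⟩ := lip_logstep hN1
  have hlYN : Real.log Y ≤ Real.log ((N + 1 : ℕ) : ℝ) :=
    Real.log_le_log (by linarith) (by push_cast; linarith)
  have h1 := lip_ind hcc hK hL N hN1 (by linarith)
  have h2 := hcc N hN1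
  have hx : Real.log (N : ℝ) / L ∈ Set.Icc (0 : ℝ) 1 :=
    ⟨div_nonneg hlN0 hL.le, by rw [div_le_one hL]; linarith⟩
  have hy : Real.log Y / L ∈ Set.Icc (0 : ℝ) 1 :=
    ⟨div_nonneg (by linarith) hL.le, by rw [div_le_one hL]; exact hlYT⟩
  have hxy : Real.log (N : ℝ) / L ≤ Real.log Y / L := div_le_div_of_nonneg_right hlNY hL.le
  have hc := lip_cont hK
  have h3 := intervalIntegral.integral_add_adjacent_intervals
    (lip_ii hc (a := 0) (b := Real.log (N : ℝ) / L) (by simp) hx) (lip_ii hc hx hy)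
  rw [← h3]
  have h4 : |∫ t in (Real.log (N : ℝ) / L)..(Real.log Y / L), f t| ≤ B / L := by
    have h5 := intervalIntegral.norm_integral_le_of_norm_le_const
      (a := Real.log (N : ℝ) / L) (b := Real.log Y / L) (f := f) (C := B) (by
        intro t ht
        rw [Set.uIoc_of_le hxy] at ht
        rw [Real.norm_eq_abs]
        exact hB t ⟨hx.1.trans ht.1.le, ht.2.trans hy.2⟩)
    rw [Real.norm_eq_abs, abs_of_nonneg (sub_nonneg.2 hxy)] at h5
    refine h5.trans ?_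
    rw [← sub_div, ← mul_div_assoc]
    refine div_le_div_of_nonneg_right ?_ hL.le
    have : Real.log Y - Real.log N ≤ 1 := by linarith
    nlinarith
  have h6 := hB _ hx
  set x := Real.log (N : ℝ) / L with hxd
  set I1 := ∫ t in (0 : ℝ)..x, f t with hI1
  set I2 := ∫ t in x..(Real.log Y / L), f t with hI2
  set S := ∑ n ∈ Icc 2 N, cc n * f (Real.log n / L) with hS
  set E := ∑ n ∈ Icc 2 N, cc n - Real.log N with hE
  have h7 : S / L - (I1 + I2) = (S - L * I1 - E * f x) / L + E * f x / L - I2 := by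
    field_simp
    ring
  rw [h7]
  have h8 : |(S - L * I1 - E * f x) / L| ≤ (C0 + 1) * K / L := by
    rw [abs_div, abs_of_pos hL]
    refine div_le_div_of_nonneg_right (h1.trans ?_) hL.le
    exact mul_le_of_le_one_right (by positivity) hx.2
  have h9 : |E * f x / L| ≤ C0 * B / L := by
    rw [abs_div, abs_of_pos hL, abs_mul]
    refine div_le_div_of_nonneg_right ?_ hL.le
    exact mul_le_mul h2 h6 (abs_nonneg _) hC0
  have h10 := abs_sub ((S - L * I1 - E * f x) / L + E * f x / L) I2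
  have h11 := abs_add_le ((S - L * I1 - E * f x) / L) (E * f x / L)
  have h12 : (|C0| + 1) * (B + K) / L = (C0 + 1) * K / L + C0 * B / L + B / L := by
    rw [abs_of_nonneg hC0]
    ring
  rw [h12]
  linarith

end Pool.Agent.Work.MP_7b186b_nt.MO
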