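import Mathlib
import Pool.Agent.Work.MP_7b186b_nt.MO.Defs

set_option autoImplicit false

namespace Pool.Agent.Work.MP_7b186b_nt.MO

open Finset ArithmeticFunction

/-- index of the cell `((j - 1)/N, j/N]` containing `x`; at least `1` -/
noncomputable def cell (N : ℕ) (x : ℝ) : ℕ := max 1 ⌈(N : ℝ) * x⌉₊

/-
PROOF. L = log T. For n >= 2, m n <= T put x = log(mn)/L in (0,1]; then cell N x = ceil(N x) in [1,N] and by telescoping
q(cell) = sum_{j=cell}^{N} (q j - q (j+1)) = sum_{j=1}^{N} (q j - q (j+1)) 1[cell <= j] since q(N+1) = 0. And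
cell <= j iff N x <= j iff log(mn) <= (j/N) L iff mn <= T^(j/N) iff n <= T^(j/N)/m iff n <= floor(T^(j/N)/m), and
T^(j/N)/m <= T/m. Exchange the two finite sums.
-/

private theorem stepA_tel (q : ℕ → ℝ) (c d : ℕ) :
    ∑ j ∈ Icc c (c + d), (q j - q (j + 1)) = q c - q (c + d + 1) := by
  induction d with
  | zero => simp
  | succ d ih =>
    rw [← add_assoc, Finset.sum_Icc_succ_top (by omega), ih]
    ring

private theorem stepA_tel2 (q : ℕ → ℝ) {c N : ℕ} (hc : 1 ≤ c) (hcN : c ≤ N) :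
    ∑ j ∈ Icc 1 N, (if c ≤ j then q j - q (j + 1) else 0) = q c - q (N + 1) := by
  rw [← Finset.sum_filter]
  have h1 : (Icc 1 N).filter (fun j => c ≤ j) = Icc c N := by
    ext j
    simp only [mem_filter, mem_Icc]
    omega
  rw [h1]
  obtain ⟨d, rfl⟩ := Nat.exists_eq_add_of_le hcN
  exact stepA_tel q c d

/-- summation by parts over the cells -/
theorem step_abel (N : ℕ) (hN : 1 ≤ N) (q : ℕ → ℝ) (hqN : q (N + 1) = 0) (f : ℝ → ℝ)
    (T : ℝ) (hT : 2 ≤ T) (m : ℕ) (hm : 1 ≤ m) (hmT : (m : ℝ) ≤ T) :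
    (∑ n ∈ Icc 2 ⌊T / m⌋₊, vonMangoldt n / n * f (Real.log n / Real.log T) *
      q (cell N (Real.log ((m * n : ℕ) : ℝ) / Real.log T))) / Real.log T =
    ∑ j ∈ Icc 1 N, (q j - q (j + 1)) * FT f T (T ^ ((j : ℝ) / N) / m) := by
  have hT0 : (0 : ℝ) < T := by linarith
  have hL : 0 < Real.log T := Real.log_pos (by linarith)
  have hm0 : (0 : ℝ) < m := by exact_mod_cast hm
  have hN0 : (0 : ℝ) < N := by exact_mod_cast hN
  set M := ⌊T / m⌋₊ with hM
  -- the condition
  have hiff : ∀ n : ℕ, 2 ≤ n → ∀ j : ℕ, 1 ≤ j →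
      (cell N (Real.log ((m * n : ℕ) : ℝ) / Real.log T) ≤ j ↔
        n ≤ ⌊T ^ ((j : ℝ) / N) / m⌋₊) := by
    intro n hn j hj
    have hn0 : (0 : ℝ) < n := by
      have : 0 < n := by omega
      exact_mod_cast this
    have hmn : (0 : ℝ) < ((m * n : ℕ) : ℝ) := by
      push_cast
      positivity
    have hpow : 0 < T ^ ((j : ℝ) / N) := Real.rpow_pos_of_pos hT0 _
    unfold cell
    rw [max_le_iff, Nat.ceil_le, Nat.le_floor_iff (by positivity)]
    constructor
    · rintro ⟨_, h⟩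
      have h1 : Real.log ((m * n : ℕ) : ℝ) ≤ (j : ℝ) / N * Real.log T := by
        rw [mul_div_assoc', div_le_iff₀ hL] at h
        rw [div_mul_eq_mul_div, le_div_iff₀ hN0]
        linarith
      rw [← Real.log_rpow hT0, Real.log_le_log_iff hmn hpow] at h1
      rw [le_div_iff₀ hm0]
      push_cast at h1
      linarith
    · intro h
      refine ⟨hj, ?_⟩
      rw [le_div_iff₀ hm0] at h
      have h1 : Real.log ((m * n : ℕ) : ℝ) ≤ Real.log (T ^ ((j : ℝ) / N)) := by
        apply Real.log_le_log hmn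
        push_cast
        linarith
      rw [Real.log_rpow hT0, div_mul_eq_mul_div, le_div_iff₀ hN0] at h1
      rw [mul_div_assoc', div_le_iff₀ hL]
      linarith
  have hK : ∀ j ∈ Icc 1 N, ⌊T ^ ((j : ℝ) / N) / m⌋₊ ≤ M := by
    intro j hj
    rw [mem_Icc] at hj
    apply Nat.floor_le_floor
    apply div_le_div_of_nonneg_right _ hm0.le
    calc T ^ ((j : ℝ) / N) ≤ T ^ (1 : ℝ) := by
          apply Real.rpow_le_rpow_of_exponent_le (by linarith)
          rw [div_le_one hN0]
          exact_mod_cast hj.2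
      _ = T := Real.rpow_one T
  have hq : ∀ n ∈ Icc 2 M, q (cell N (Real.log ((m * n : ℕ) : ℝ) / Real.log T)) =
      ∑ j ∈ Icc 1 N, (if n ≤ ⌊T ^ ((j : ℝ) / N) / m⌋₊ then q j - q (j + 1) else 0) := by
    intro n hn
    rw [mem_Icc] at hn
    have hc1 : 1 ≤ cell N (Real.log ((m * n : ℕ) : ℝ) / Real.log T) := le_max_left _ _
    have hcN : cell N (Real.log ((m * n : ℕ) : ℝ) / Real.log T) ≤ N := by
      rw [hiff n hn.1 N hN, div_self hN0.ne', Real.rpow_one]
      exact hn.2
    have h1 := stepA_tel2 q hc1 hcN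
    rw [hqN, sub_zero] at h1
    rw [← h1]
    apply Finset.sum_congr rfl
    intro j hj
    rw [mem_Icc] at hj
    by_cases h : n ≤ ⌊T ^ ((j : ℝ) / N) / m⌋₊
    · rw [if_pos h, if_pos ((hiff n hn.1 j hj.1).2 h)]
    · rw [if_neg h, if_neg (fun hh => h ((hiff n hn.1 j hj.1).1 hh))]
  have h2 : ∑ n ∈ Icc 2 M, vonMangoldt n / n * f (Real.log n / Real.log T) *
      q (cell N (Real.log ((m * n : ℕ) : ℝ) / Real.log T)) =
      ∑ j ∈ Icc 1 N, (q j - q (j + 1)) * ∑ n ∈ Icc 2 ⌊T ^ ((j : ℝ) / N) / m⌋₊,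
        vonMangoldt n / n * f (Real.log n / Real.log T) := by
    calc ∑ n ∈ Icc 2 M, vonMangoldt n / n * f (Real.log n / Real.log T) *
          q (cell N (Real.log ((m * n : ℕ) : ℝ) / Real.log T))
        = ∑ n ∈ Icc 2 M, ∑ j ∈ Icc 1 N, (if n ≤ ⌊T ^ ((j : ℝ) / N) / m⌋₊ then
            (q j - q (j + 1)) * (vonMangoldt n / n * f (Real.log n / Real.log T)) else 0) := by
          apply Finset.sum_congr rfl
          intro n hn
          rw [hq n hn, Finset.mul_sum]
          apply Finset.sum_congr rfl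
          intro j _
          split_ifs
          · ring
          · ring
      _ = ∑ j ∈ Icc 1 N, ∑ n ∈ Icc 2 M, (if n ≤ ⌊T ^ ((j : ℝ) / N) / m⌋₊ then
            (q j - q (j + 1)) * (vonMangoldt n / n * f (Real.log n / Real.log T)) else 0) :=
          Finset.sum_comm
      _ = ∑ j ∈ Icc 1 N, (q j - q (j + 1)) * ∑ n ∈ Icc 2 ⌊T ^ ((j : ℝ) / N) / m⌋₊,
            vonMangoldt n / n * f (Real.log n / Real.log T) := by
          apply Finset.sum_congr rfl
          intro j hj
          rw [Finset.mul_sum, ← Finset.sum_filter]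
          apply Finset.sum_congr _ (fun _ _ => rfl)
          have := hK j hj
          ext n
          simp only [mem_filter, mem_Icc]
          omega
  rw [h2, Finset.sum_div]
  apply Finset.sum_congr rfl
  intro j _
  unfold FT
  rw [mul_div_assoc]

end Pool.Agent.Work.MP_7b186b_nt.MO
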