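import Mathlib
import Pool.Agent.Work.MP_7b186b_nt.MO.StepA
import Pool.Agent.Work.MP_7b186b_nt.MO.Lip
import Pool.Agent.Work.MP_2dba45_nt.Mert

set_option autoImplicit false

namespace Pool.Agent.Work.MP_7b186b_nt.MO

open Finset ArithmeticFunction

/-
PROOF. L = log T, x = log m/L in [0,1], i = cell N x (so i in [1,N], x <= i/N, and (i-1)/N <= x). By step_abel (f = G) the
second term is sum_{j=1}^{N} d_j FT G T (T^(j/N)/m), d_j = q j - q (j+1). Put y_j = T^(j/N)/m.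
j < i: then j < N x (as i = ceil(N x) >= 2), so y_j < 1 and FT = 0 (empty sum).
j >= i: y_j >= 1, y_j <= T and log y_j/L = j/N - x, so |FT G T y_j - int_0^{j/N-x} G| <= C(B+K)/L by lip_gen (Mertens:
MP_2dba45_nt.Mert.sum_Lam_div). If d_j >= 0: d_j int_0^{j/N-x} G <= d_j int_0^{(j-i+1)/N} G (x >= (i-1)/N, G >= 0).
If d_j < 0: d_j int_0^{j/N-x} G <= d_j int_0^{(j-i)/N} G (x <= i/N). First term: x/q i <= (i/N)/q i. Use hcert at i.
The total error is (sum_j |d_j|) C (B+K)/L.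
-/

private theorem sb_mert (N : ℕ) (hN : 1 ≤ N) :
    |∑ n ∈ Icc 2 N, vonMangoldt n / n - Real.log N| ≤ 6 := by
  have h := Pool.Agent.Work.MP_2dba45_nt.Mert.sum_Lam_div N hN
  have h1 : ∑ k ∈ Ioc 0 N, vonMangoldt k / (k : ℝ) = ∑ n ∈ Icc 2 N, vonMangoldt n / (n : ℝ) := by
    symm
    apply Finset.sum_subset
    · intro n hn
      rw [Finset.mem_Icc] at hn
      rw [Finset.mem_Ioc]
      omega
    · intro n hn hn'
      rw [Finset.mem_Ioc] at hn
      rw [Finset.mem_Icc] at hn'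
      have : n = 1 := by omega
      subst this
      simp
  rw [← h1]
  exact h

private theorem sb_int_mono (G : ℝ → ℝ) (hG0 : ∀ x, 0 ≤ G x) (hGc : Continuous G) (a b : ℝ)
    (hab : a ≤ b) : ∫ x in (0 : ℝ)..a, G x ≤ ∫ x in (0 : ℝ)..b, G x := by
  have h1 := intervalIntegral.integral_add_adjacent_intervals (μ := MeasureTheory.volume)
    (hGc.intervalIntegrable 0 a) (hGc.intervalIntegrable a b)
  have h2 : 0 ≤ ∫ x in a..b, G x := intervalIntegral.integral_nonneg hab (fun u _ => hG0 u)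
  linarith

private theorem sb_FT_zero (f : ℝ → ℝ) (T y : ℝ) (hy : y < 2) : FT f T y = 0 := by
  unfold FT
  have h1 : Icc 2 ⌊y⌋₊ = ∅ := by
    apply Finset.Icc_eq_empty
    intro h
    have h2 : ((2 : ℕ) : ℝ) ≤ y := (Nat.le_floor_iff' (by norm_num)).1 h
    norm_num at h2
    linarith
  rw [h1]
  simp

/-- the bound in one row of the Schur test -/
theorem step_row (N : ℕ) (hN : 1 ≤ N) (q : ℕ → ℝ) (hq : ∀ j ∈ Icc 1 N, 0 < q j)
    (hqN : q (N + 1) = 0) (G : ℝ → ℝ) (B K L0 : ℝ) (hG0 : ∀ x, 0 ≤ G x) (hGc : Continuous G)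
    (hB : ∀ x ∈ Set.Icc (0 : ℝ) 1, |G x| ≤ B)
    (hK : ∀ x ∈ Set.Icc (0 : ℝ) 1, ∀ y ∈ Set.Icc (0 : ℝ) 1, |G x - G y| ≤ K * |x - y|)
    (hcert : ∀ i ∈ Icc 1 N, (i : ℝ) / N / q i + ∑ j ∈ Icc i N,
      (if q (j + 1) ≤ q j then (q j - q (j + 1)) * ∫ x in (0 : ℝ)..(((j : ℝ) - i + 1) / N), G x
        else (q j - q (j + 1)) * ∫ x in (0 : ℝ)..(((j : ℝ) - i) / N), G x) ≤ L0) :
    ∃ C : ℝ, 0 < C ∧ ∀ T : ℝ, 2 ≤ T → ∀ m : ℕ, 1 ≤ m → (m : ℝ) ≤ T →
      Real.log m / Real.log T / q (cell N (Real.log m / Real.log T)) +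
        (∑ n ∈ Icc 2 ⌊T / m⌋₊, vonMangoldt n / n * G (Real.log n / Real.log T) *
          q (cell N (Real.log ((m * n : ℕ) : ℝ) / Real.log T))) / Real.log T ≤
      L0 + C / Real.log T := by
  obtain ⟨C, hC, hlip⟩ := lip_gen 6
  have hl := hlip (fun n => vonMangoldt n / n)
    (fun n => div_nonneg vonMangoldt_nonneg (Nat.cast_nonneg n)) sb_mert G B K hB hK
  have hB0 : 0 ≤ B := (abs_nonneg _).trans (hB 0 ⟨le_refl _, zero_le_one⟩)
  have hK0 : 0 ≤ K := by
    have h := hK 0 ⟨le_refl _, zero_le_one⟩ 1 ⟨zero_le_one, le_refl _⟩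
    have h2 : |(0 : ℝ) - 1| = 1 := by norm_num
    rw [h2, mul_one] at h
    exact (abs_nonneg _).trans h
  set C' : ℝ := C * (B + K) with hC'
  have hC'0 : 0 ≤ C' := mul_nonneg hC.le (by linarith)
  set D : ℝ := ∑ j ∈ Icc 1 N, |q j - q (j + 1)| with hD
  have hD0 : 0 ≤ D := Finset.sum_nonneg (fun _ _ => abs_nonneg _)
  refine ⟨D * C' + 1, by positivity, ?_⟩
  intro T hT m hm hmT
  have hT0 : (0 : ℝ) < T := by linarith
  have hL : 0 < Real.log T := Real.log_pos (by linarith)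
  have hm1 : (1 : ℝ) ≤ m := by exact_mod_cast hm
  have hm0 : (0 : ℝ) < m := by linarith
  have hN0 : (0 : ℝ) < N := by exact_mod_cast hN
  rw [step_abel N hN q hqN G T hT m hm hmT]
  set L : ℝ := Real.log T with hLd
  set x : ℝ := Real.log m / L with hx
  have hx0 : 0 ≤ x := div_nonneg (Real.log_nonneg hm1) hL.le
  have hx1 : x ≤ 1 := by
    rw [hx, div_le_one hL]
    exact Real.log_le_log hm0 hmT
  set i : ℕ := cell N x with hi
  have hi1 : 1 ≤ i := le_max_left _ _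
  have hiN : i ≤ N := by
    apply max_le hN
    rw [Nat.ceil_le]
    nlinarith
  have hxi : x ≤ (i : ℝ) / N := by
    rw [le_div_iff₀ hN0, mul_comm]
    exact (Nat.le_ceil _).trans (by exact_mod_cast le_max_right _ _)
  have hxi' : ((i : ℝ) - 1) / N ≤ x := by
    rw [div_le_iff₀ hN0]
    have hcase : i = 1 ∨ i = ⌈(N : ℝ) * x⌉₊ := by
      rcases max_choice 1 ⌈(N : ℝ) * x⌉₊ with h | h
      · exact Or.inl h
      · exact Or.inr h
    rcases hcase with h | h
    · rw [h]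
      have : 0 ≤ x * N := mul_nonneg hx0 hN0.le
      push_cast
      linarith
    · have h1 : (i : ℝ) < N * x + 1 := by
        rw [h]
        exact Nat.ceil_lt_add_one (mul_nonneg hN0.le hx0)
      linarith
  have hmexp : (m : ℝ) = T ^ x := by
    rw [Real.rpow_def_of_pos hT0, hx, ← hLd, mul_div_cancel₀ _ hL.ne', Real.exp_log hm0]
  have hlow : ∀ j ∈ Icc 1 N, j < i → FT G T (T ^ ((j : ℝ) / N) / m) = 0 := by
    intro j hj hji
    apply sb_FT_zero
    have hj1 := (Finset.mem_Icc.1 hj).1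
    have hji' : j < ⌈(N : ℝ) * x⌉₊ := by
      rcases max_choice 1 ⌈(N : ℝ) * x⌉₊ with h | h
      · have : i = 1 := h
        omega
      · have : i = ⌈(N : ℝ) * x⌉₊ := h
        omega
    have h1 : (j : ℝ) < N * x := Nat.lt_ceil.1 hji'
    have h2 : (j : ℝ) / N < x := by
      rw [div_lt_iff₀ hN0]
      linarith
    have h3 : T ^ ((j : ℝ) / N) < m := by
      rw [hmexp]
      exact Real.rpow_lt_rpow_of_exponent_lt (by linarith) h2
    have h4 : T ^ ((j : ℝ) / N) / m < 1 := by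
      rw [div_lt_one hm0]
      exact h3
    linarith
  have hhigh : ∀ j ∈ Icc i N, |FT G T (T ^ ((j : ℝ) / N) / m) -
      ∫ u in (0 : ℝ)..((j : ℝ) / N - x), G u| ≤ C' / L := by
    intro j hj
    have hj1 := Finset.mem_Icc.1 hj
    have h1 : x ≤ (j : ℝ) / N := by
      refine hxi.trans ?_
      apply div_le_div_of_nonneg_right _ hN0.le
      exact_mod_cast hj1.1
    have h2 : (1 : ℝ) ≤ T ^ ((j : ℝ) / N) / m := by
      rw [one_le_div hm0, hmexp]
      exact Real.rpow_le_rpow_of_exponent_le (by linarith) h1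
    have h3 : T ^ ((j : ℝ) / N) ≤ T := by
      have h4 : (j : ℝ) / N ≤ 1 := by
        rw [div_le_one hN0]
        exact_mod_cast hj1.2
      calc T ^ ((j : ℝ) / N) ≤ T ^ (1 : ℝ) :=
            Real.rpow_le_rpow_of_exponent_le (by linarith) h4
        _ = T := Real.rpow_one T
    have h5 : T ^ ((j : ℝ) / N) / m ≤ T := by
      refine (div_le_self ?_ hm1).trans h3
      exact (Real.rpow_pos_of_pos hT0 _).le
    have h6 := hl T hT _ h2 h5
    have h7 : Real.log (T ^ ((j : ℝ) / N) / m) / L = (j : ℝ) / N - x := by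
      rw [Real.log_div (Real.rpow_pos_of_pos hT0 _).ne' hm0.ne', Real.log_rpow hT0, ← hLd, sub_div,
        mul_div_assoc, div_self hL.ne', mul_one]
    rw [← hLd, h7] at h6
    exact h6
  -- split the sum
  have hsplit : ∑ j ∈ Icc 1 N, (q j - q (j + 1)) * FT G T (T ^ ((j : ℝ) / N) / m) =
      ∑ j ∈ Icc i N, (q j - q (j + 1)) * FT G T (T ^ ((j : ℝ) / N) / m) := by
    symm
    apply Finset.sum_subset
    · exact Finset.Icc_subset_Icc_left hi1
    · intro j hj hj'
      have h1 := Finset.mem_Icc.1 hj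
      have h2 : j < i := by
        by_contra hcon
        exact hj' (Finset.mem_Icc.2 ⟨not_lt.1 hcon, h1.2⟩)
      rw [hlow j hj h2, mul_zero]
  have hterm : ∀ j ∈ Icc i N, (q j - q (j + 1)) * FT G T (T ^ ((j : ℝ) / N) / m) ≤
      (if q (j + 1) ≤ q j then (q j - q (j + 1)) * ∫ x in (0 : ℝ)..(((j : ℝ) - i + 1) / N), G x
        else (q j - q (j + 1)) * ∫ x in (0 : ℝ)..(((j : ℝ) - i) / N), G x) +
      |q j - q (j + 1)| * (C' / L) := by
    intro j hj
    have h1 := hhigh j hj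
    have h2 : (q j - q (j + 1)) * FT G T (T ^ ((j : ℝ) / N) / m) ≤
        (q j - q (j + 1)) * (∫ u in (0 : ℝ)..((j : ℝ) / N - x), G u) +
        |q j - q (j + 1)| * (C' / L) := by
      have h3 : (q j - q (j + 1)) * (FT G T (T ^ ((j : ℝ) / N) / m) -
          ∫ u in (0 : ℝ)..((j : ℝ) / N - x), G u) ≤ |q j - q (j + 1)| * (C' / L) := by
        refine (le_abs_self _).trans ?_
        rw [abs_mul]
        exact mul_le_mul_of_nonneg_left h1 (abs_nonneg _)
      linarith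
    refine h2.trans ?_
    have e1 : ((j : ℝ) - i + 1) / N = (j : ℝ) / N - ((i : ℝ) - 1) / N := by ring
    have e2 : ((j : ℝ) - i) / N = (j : ℝ) / N - (i : ℝ) / N := by ring
    split_ifs with hq1
    · have h4 : 0 ≤ q j - q (j + 1) := by linarith
      have h5 := sb_int_mono G hG0 hGc ((j : ℝ) / N - x) (((j : ℝ) - i + 1) / N) (by rw [e1]; linarith)
      have h6 := mul_le_mul_of_nonneg_left h5 h4
      linarith
    · have h4 : q j - q (j + 1) ≤ 0 := by linarith [not_le.1 hq1]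
      have h5 := sb_int_mono G hG0 hGc (((j : ℝ) - i) / N) ((j : ℝ) / N - x) (by rw [e2]; linarith)
      have h6 := mul_le_mul_of_nonpos_left h5 h4
      linarith
  have hsum := Finset.sum_le_sum hterm
  rw [Finset.sum_add_distrib, ← Finset.sum_mul] at hsum
  have hDle : ∑ j ∈ Icc i N, |q j - q (j + 1)| ≤ D :=
    Finset.sum_le_sum_of_subset_of_nonneg (Finset.Icc_subset_Icc_left hi1)
      (fun _ _ _ => abs_nonneg _)
  have hCL : 0 ≤ C' / L := div_nonneg hC'0 hL.le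
  have h8 := mul_le_mul_of_nonneg_right hDle hCL
  have hqi : 0 < q i := hq i (Finset.mem_Icc.2 ⟨hi1, hiN⟩)
  have h9 : x / q i ≤ (i : ℝ) / N / q i := div_le_div_of_nonneg_right hxi hqi.le
  have h10 := hcert i (Finset.mem_Icc.2 ⟨hi1, hiN⟩)
  have h11 : (D * C' + 1) / L = D * (C' / L) + 1 / L := by ring
  have h12 : 0 ≤ 1 / L := by positivity
  rw [hsplit, h11]
  linarith

end Pool.Agent.Work.MP_7b186b_nt.MO
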