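import Mathlib
import Pool.Agent.Work.MP_7b186b_nt.MO.StepB
import Pool.Agent.Work.MP_7b186b_nt.MO.Schur

set_option autoImplicit false

namespace Pool.Agent.Work.MP_7b186b_nt.MO

open Finset ArithmeticFunction

/-
PROOF. schur with b n = (2/L) sqrt(G(x_n)) (L = log T, x_n = log n/L) and
w m = if 0 < q(cell N x_m) then 2/(L q(cell N x_m)) else 1. For m <= X <= T the cell is in [1,N], so q > 0 and
(1/2) w m log m = x_m/q(cell), (1/2)(Lambda(n)/n) b^2/w(mn) = (1/L)(Lambda(n)/n) G(x_n) q(cell N x_{mn}) for mn <= X.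
All terms are >= 0, X/m <= floor(T/m) and for mn <= T still q(cell) > 0: extend the sum to n <= floor(T/m), apply step_row.
-/

private theorem sc_cell (N : ℕ) (hN : 1 ≤ N) (T : ℝ) (hT : 2 ≤ T) (m : ℕ) (hm : 1 ≤ m)
    (hmT : (m : ℝ) ≤ T) : cell N (Real.log m / Real.log T) ∈ Icc 1 N := by
  have hL : 0 < Real.log T := Real.log_pos (by linarith)
  have hm1 : (1 : ℝ) ≤ m := by exact_mod_cast hm
  rw [Finset.mem_Icc]
  refine ⟨le_max_left _ _, max_le hN ?_⟩
  rw [Nat.ceil_le]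
  have hx1 : Real.log m / Real.log T ≤ 1 := by
    rw [div_le_one hL]
    exact Real.log_le_log (by linarith) hmT
  have hN0 : (0 : ℝ) ≤ N := Nat.cast_nonneg N
  calc (N : ℝ) * (Real.log m / Real.log T) ≤ N * 1 := mul_le_mul_of_nonneg_left hx1 hN0
    _ = N := mul_one _

/-- the bound for the correlation sum from a step certificate -/
theorem step_bound (N : ℕ) (hN : 1 ≤ N) (q : ℕ → ℝ) (hq : ∀ j ∈ Icc 1 N, 0 < q j)
    (hqN : q (N + 1) = 0) (G : ℝ → ℝ) (B K L0 : ℝ) (hG0 : ∀ x, 0 ≤ G x) (hGc : Continuous G)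
    (hB : ∀ x ∈ Set.Icc (0 : ℝ) 1, |G x| ≤ B)
    (hK : ∀ x ∈ Set.Icc (0 : ℝ) 1, ∀ y ∈ Set.Icc (0 : ℝ) 1, |G x - G y| ≤ K * |x - y|)
    (hcert : ∀ i ∈ Icc 1 N, (i : ℝ) / N / q i + ∑ j ∈ Icc i N,
      (if q (j + 1) ≤ q j then (q j - q (j + 1)) * ∫ x in (0 : ℝ)..(((j : ℝ) - i + 1) / N), G x
        else (q j - q (j + 1)) * ∫ x in (0 : ℝ)..(((j : ℝ) - i) / N), G x) ≤ L0) :
    ∃ C : ℝ, 0 < C ∧ ∀ T : ℝ, 2 ≤ T → ∀ X : ℕ, (X : ℝ) ≤ T → ∀ a g : ℕ → ℂ,
      (∀ n ∈ Icc 2 X, ‖g n‖ ≤ 2 / Real.log T * Real.sqrt (G (Real.log n / Real.log T))) →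
      |corr X a g| ≤ (L0 + C / Real.log T) * norm2 X a := by
  obtain ⟨C, hC, hrow⟩ := step_row N hN q hq hqN G B K L0 hG0 hGc hB hK hcert
  refine ⟨C, hC, ?_⟩
  intro T hT X hX a g hg
  have hT0 : (0 : ℝ) < T := by linarith
  have hL : 0 < Real.log T := Real.log_pos (by linarith)
  have hrow' := hrow T hT
  set L : ℝ := Real.log T with hLd
  set b : ℕ → ℝ := fun n => 2 / L * Real.sqrt (G (Real.log n / L)) with hb
  set w : ℕ → ℝ := fun m => if 0 < q (cell N (Real.log (m : ℝ) / L)) then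
    2 / (L * q (cell N (Real.log (m : ℝ) / L))) else 1 with hw
  have hb0 : ∀ n, 0 ≤ b n := fun n => mul_nonneg (div_nonneg (by norm_num) hL.le) (Real.sqrt_nonneg _)
  have hw0 : ∀ m, 0 < w m := by
    intro m
    rw [hw]
    dsimp only
    split_ifs with h
    · positivity
    · norm_num
  have hsch := schur X a g b w hg hb0 hw0
  refine hsch.trans ?_
  unfold norm2
  rw [Finset.mul_sum, Finset.mul_sum]
  apply Finset.sum_le_sum
  intro m hm
  obtain ⟨hm1, hmX⟩ := Finset.mem_Icc.1 hm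
  have hmT : (m : ℝ) ≤ T := le_trans (by exact_mod_cast hmX) hX
  have hm0 : (0 : ℝ) < m := by exact_mod_cast (show 0 < m by omega)
  have hwm : ∀ k : ℕ, 1 ≤ k → (k : ℝ) ≤ T → 0 < q (cell N (Real.log (k : ℝ) / L)) ∧
      w k = 2 / (L * q (cell N (Real.log (k : ℝ) / L))) := by
    intro k hk hkT
    have h1 : 0 < q (cell N (Real.log (k : ℝ) / L)) := hq _ (sc_cell N hN T hT k hk hkT)
    exact ⟨h1, if_pos h1⟩
  have key : (1 / 2) * (w m * Real.log m +
      ∑ n ∈ Icc 2 (X / m), vonMangoldt n / n * (b n ^ 2 / w (m * n))) ≤ L0 + C / L := by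
    obtain ⟨hqm, hwm1⟩ := hwm m hm1 hmT
    have e1 : (1 / 2) * (w m * Real.log m) =
        Real.log m / L / q (cell N (Real.log m / L)) := by
      rw [hwm1]
      field_simp
    have hmn : ∀ n ∈ Icc 2 ⌊T / m⌋₊, ((m * n : ℕ) : ℝ) ≤ T ∧ 1 ≤ m * n := by
      intro n hn
      obtain ⟨hn2, hn3⟩ := Finset.mem_Icc.1 hn
      have h1 : (n : ℝ) ≤ T / m := by
        have h2 : ((n : ℕ) : ℝ) ≤ ⌊T / m⌋₊ := by exact_mod_cast hn3
        exact h2.trans (Nat.floor_le (by positivity))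
      rw [le_div_iff₀ hm0] at h1
      constructor
      · push_cast
        linarith
      · have h3 : 1 * 1 ≤ m * n := Nat.mul_le_mul hm1 (by omega)
        omega
    have hsub : Icc 2 (X / m) ⊆ Icc 2 ⌊T / m⌋₊ := by
      apply Finset.Icc_subset_Icc_right
      apply Nat.le_floor
      rw [le_div_iff₀ hm0]
      have h1 : X / m * m ≤ X := Nat.div_mul_le_self X m
      have h2 : ((X / m * m : ℕ) : ℝ) ≤ X := by exact_mod_cast h1
      push_cast at h2 ⊢
      linarith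
    have e2 : ∀ n ∈ Icc 2 (X / m), (1 / 2) * (vonMangoldt n / n * (b n ^ 2 / w (m * n))) =
        vonMangoldt n / n * G (Real.log n / L) *
          q (cell N (Real.log ((m * n : ℕ) : ℝ) / L)) / L := by
      intro n hn
      obtain ⟨h1, h2⟩ := hmn n (hsub hn)
      obtain ⟨h3, h4⟩ := hwm (m * n) h2 h1
      rw [h4]
      have h5 : b n ^ 2 = 4 / L ^ 2 * G (Real.log n / L) := by
        rw [hb]
        dsimp only
        rw [mul_pow, Real.sq_sqrt (hG0 _)]
        ring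
      rw [h5]
      have h6 := h3.ne'
      field_simp
      ring
    have e3 : (1 / 2) * ∑ n ∈ Icc 2 (X / m), vonMangoldt n / n * (b n ^ 2 / w (m * n)) =
        (∑ n ∈ Icc 2 (X / m), vonMangoldt n / n * G (Real.log n / L) *
          q (cell N (Real.log ((m * n : ℕ) : ℝ) / L))) / L := by
      rw [Finset.mul_sum, Finset.sum_div]
      exact Finset.sum_congr rfl e2
    have e4 : ∑ n ∈ Icc 2 (X / m), vonMangoldt n / n * G (Real.log n / L) *
          q (cell N (Real.log ((m * n : ℕ) : ℝ) / L)) ≤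
        ∑ n ∈ Icc 2 ⌊T / m⌋₊, vonMangoldt n / n * G (Real.log n / L) *
          q (cell N (Real.log ((m * n : ℕ) : ℝ) / L)) := by
      apply Finset.sum_le_sum_of_subset_of_nonneg hsub
      intro n hn _
      obtain ⟨h1, h2⟩ := hmn n hn
      obtain ⟨h3, _⟩ := hwm (m * n) h2 h1
      exact mul_nonneg (mul_nonneg (div_nonneg vonMangoldt_nonneg (Nat.cast_nonneg n)) (hG0 _))
        h3.le
    have e5 := div_le_div_of_nonneg_right e4 hL.le
    have e6 := hrow' m hm1 hmT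
    rw [mul_add, e1, e3]
    linarith
  have h1 := mul_le_mul_of_nonneg_left key (sq_nonneg ‖a m‖)
  linarith

end Pool.Agent.Work.MP_7b186b_nt.MO
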