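import Mathlib
import Pool.Agent.Work.MP_7b186b_nt.MO.StepC
import Pool.Agent.Work.MP_7b186b_nt.MO.NumG
import Pool.Agent.Work.MP_7b186b_nt.MO.NumC

set_option autoImplicit false

namespace Pool.Agent.Work.MP_7b186b_nt.MO

open Finset ArithmeticFunction

/-- the bound at `c = 277/100` -/
theorem corr_277 : ∃ C : ℝ, 0 < C ∧ ∀ T : ℝ, 2 ≤ T → ∀ X : ℕ, (X : ℝ) ≤ T → ∀ a g : ℕ → ℂ,
      (∀ n ∈ Icc 2 X, ‖g n‖ ≤
        2 / Real.log T * Real.sqrt (GG (277 / 100) (Real.log n / Real.log T))) →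
      |corr X a g| ≤ (1769 / 1000 + C / Real.log T) * norm2 X a := by
  refine step_bound 400 (by norm_num) (fun j => (qn j : ℝ) / 10 ^ 5) ?_ ?_ (GG (277 / 100))
    ((277 / 100) ^ 2) (2 * Real.pi * (277 / 100) ^ 3) (1769 / 1000) (GG_nonneg _)
    (GG_continuous _) ?_ ?_ ?_
  · intro j hj
    rw [mem_Icc] at hj
    have : (0 : ℝ) < qn j := by exact_mod_cast qn_pos j hj.1 hj.2
    positivity
  · have : qn (400 + 1) = 0 := qn_last
    simp [this]
  · intro x _
    rw [abs_of_nonneg (GG_nonneg _ _)]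
    exact GG_le _ _
  · intro x _ y _
    exact GG_lip _ (by norm_num) x y
  · intro i hi
    rw [mem_Icc] at hi
    refine le_trans ?_ (cert_check i hi.1 hi.2)
    have e0 : ((400 : ℕ) : ℝ) = 400 := by norm_num
    rw [e0]
    refine add_le_add le_rfl ?_
    refine Finset.sum_le_sum fun j hj => ?_
    rw [mem_Icc] at hj
    have hji : ((j - i : ℕ) : ℝ) = (j : ℝ) - i := by rw [Nat.cast_sub hj.1]
    have hiff : ((qn (j + 1) : ℝ) / 10 ^ 5 ≤ (qn j : ℝ) / 10 ^ 5) ↔ qn (j + 1) ≤ qn j := by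
      rw [div_le_div_iff_of_pos_right (by positivity)]
      exact Nat.cast_le
    by_cases hq : qn (j + 1) ≤ qn j
    · rw [if_pos (hiff.2 hq), if_pos hq]
      have h1 := GI_le_un (j - i + 1) (by omega)
      have e1 : (((j - i + 1 : ℕ) : ℝ)) / 400 = ((j : ℝ) - i + 1) / 400 := by
        push_cast [hji]; ring
      rw [e1] at h1
      exact mul_le_mul_of_nonneg_left h1 (sub_nonneg.2 (hiff.2 hq))
    · rw [if_neg (fun h => hq (hiff.1 h)), if_neg hq]
      have h1 := ln_le_GI (j - i) (by omega)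
      rw [hji] at h1
      refine mul_le_mul_of_nonpos_left h1 ?_
      have : (qn j : ℝ) ≤ qn (j + 1) := by exact_mod_cast (not_le.1 hq).le
      have h10 : (0 : ℝ) < 10 ^ 5 := by positivity
      rw [sub_nonpos, div_le_div_iff_of_pos_right h10]
      exact this

end Pool.Agent.Work.MP_7b186b_nt.MO
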