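import Mathlib
import Pool.Agent.Work.MP_7b186b_nt.MO.Schur
import Pool.Agent.Work.MP_7b186b_nt.MO.Lip
import Pool.Agent.Work.MP_2dba45_nt.Mert

set_option autoImplicit false

namespace Pool.Agent.Work.MP_7b186b_nt.MO

open Finset ArithmeticFunction

/-
PROOF. L = log T, x_m = log m/L <= 1 for m <= X <= T. Mertens: |sum_{2<=n<=N} Lambda(n)/n - log N| <= 6
(MP_2dba45_nt.Mert.sum_Lam_div; Ioc 0 N = Icc 1 N and Lambda(1) = 0).
corr_const: schur with b n = (2/L) sqrt(G(x_n)), w m = 2 kappa/L: (1/2) w log m = kappa x_m <= kappa;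
(1/2) sum_{n <= X/m} (Lambda(n)/n) b^2/w = (1/kappa) (1/L) sum_{n<=X/m} (Lambda(n)/n) G(x_n)
 <= (1/kappa)(int_0^{log(X/m)/L} G + C(B+K)/L) by lip_gen (Y = X/m, 1 <= X/m <= T), and G >= 0.
corr_one: b n = 2/L, w m = 2/L: (1/2) w log m = log m/L; second part (1/L) sum_{n<=X/m} Lambda(n)/n <= (log(X/m) + 6)/L
 <= (log X - log m + 6)/L. Sum: (log X + 6)/L.
-/

private theorem mert (N : ℕ) (hN : 1 ≤ N) :
    |∑ n ∈ Icc 2 N, vonMangoldt n / (n : ℝ) - Real.log N| ≤ 6 := by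
  have h1 := Pool.Agent.Work.MP_2dba45_nt.Mert.sum_Lam_div N hN
  have h2 : ∑ n ∈ Icc 2 N, vonMangoldt n / (n : ℝ) = ∑ n ∈ Ioc 0 N, vonMangoldt n / (n : ℝ) := by
    apply Finset.sum_subset
    · intro n hn
      rw [Finset.mem_Icc] at hn
      rw [Finset.mem_Ioc]
      omega
    · intro n hn hn2
      rw [Finset.mem_Ioc] at hn
      rw [Finset.mem_Icc] at hn2
      have h3 : n = 1 := by omega
      rw [h3, vonMangoldt_apply_one, zero_div]
  rw [h2]
  exact h1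

private theorem div_ge {X m : ℕ} (hm : m ∈ Icc 1 X) : 1 ≤ X / m := by
  rw [Finset.mem_Icc] at hm
  exact (Nat.one_le_div_iff (by omega)).2 hm.2

private theorem sum_bound {X : ℕ} {a : ℕ → ℂ} {D : ℝ} {f : ℕ → ℝ}
    (h : ∀ m ∈ Icc 1 X, f m ≤ 2 * D) : (1 / 2) * ∑ m ∈ Icc 1 X, ‖a m‖ ^ 2 * f m ≤ D * norm2 X a := by
  unfold norm2
  rw [Finset.mul_sum, Finset.mul_sum]
  apply Finset.sum_le_sum
  intro m hm
  have h1 := mul_le_mul_of_nonneg_left (h m hm) (sq_nonneg ‖a m‖)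
  linarith

/-- constant weight, general symbol `G` -/
theorem corr_const (G : ℝ → ℝ) (B K κ : ℝ) (hκ : 0 < κ) (hG0 : ∀ x, 0 ≤ G x)
    (hB : ∀ x ∈ Set.Icc (0 : ℝ) 1, |G x| ≤ B)
    (hK : ∀ x ∈ Set.Icc (0 : ℝ) 1, ∀ y ∈ Set.Icc (0 : ℝ) 1, |G x - G y| ≤ K * |x - y|) :
    ∃ C : ℝ, 0 < C ∧ ∀ T : ℝ, 2 ≤ T → ∀ X : ℕ, (X : ℝ) ≤ T → ∀ a g : ℕ → ℂ,
      (∀ n ∈ Icc 2 X, ‖g n‖ ≤ 2 / Real.log T * Real.sqrt (G (Real.log n / Real.log T))) →
      |corr X a g| ≤ (κ + (∫ x in (0 : ℝ)..1, G x) / κ + C / Real.log T) * norm2 X a := by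
  obtain ⟨C1, hC1, hlip⟩ := lip_gen 6
  have hB0 : 0 ≤ B := (abs_nonneg _).trans (hB 0 ⟨le_rfl, zero_le_one⟩)
  have hK0 : 0 ≤ K := by
    have h1 := hK 0 ⟨le_rfl, zero_le_one⟩ 1 ⟨zero_le_one, le_rfl⟩
    have h2 : |(0 : ℝ) - 1| = 1 := by norm_num
    rw [h2, mul_one] at h1
    exact (abs_nonneg _).trans h1
  have hcont : ContinuousOn G (Set.Icc (0 : ℝ) 1) := by
    have h1 : LipschitzOnWith (Real.toNNReal K) G (Set.Icc (0 : ℝ) 1) := by
      apply LipschitzOnWith.of_dist_le_mul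
      intro x hx y hy
      rw [Real.dist_eq, Real.dist_eq, Real.coe_toNNReal K hK0]
      exact hK x hx y hy
    exact h1.continuousOn
  have hint : IntervalIntegrable G MeasureTheory.volume 0 1 := by
    apply ContinuousOn.intervalIntegrable
    rw [Set.uIcc_of_le zero_le_one]
    exact hcont
  refine ⟨C1 * (B + K) / κ + 1, by positivity, ?_⟩
  intro T hT X hX a g hg
  have hT0 : (0 : ℝ) < T := by linarith
  have hL : 0 < Real.log T := Real.log_pos (by linarith)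
  obtain ⟨L, hLdef⟩ : ∃ L, L = Real.log T := ⟨_, rfl⟩
  rw [← hLdef] at hL hg ⊢
  have hs := schur X a g (fun n => 2 / L * Real.sqrt (G (Real.log n / L))) (fun _ => 2 * κ / L) hg
    (fun n => by positivity) (fun m => by positivity)
  refine hs.trans ?_
  apply sum_bound
  intro m hm
  have hm' := Finset.mem_Icc.1 hm
  have hdv := div_ge hm
  have hm0 : (0 : ℝ) < m := by
    have : 0 < m := by omega
    exact_mod_cast this
  have hmT : (m : ℝ) ≤ T := by
    have h1 : (m : ℝ) ≤ X := by exact_mod_cast hm'.2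
    linarith
  have hlm : Real.log m ≤ L := by
    rw [hLdef]
    exact Real.log_le_log hm0 hmT
  have hY1 : (1 : ℝ) ≤ ((X / m : ℕ) : ℝ) := by exact_mod_cast hdv
  have hYT : ((X / m : ℕ) : ℝ) ≤ T := by
    have h1 : ((X / m : ℕ) : ℝ) ≤ X := by exact_mod_cast Nat.div_le_self X m
    linarith
  have hl := hlip (fun n => vonMangoldt n / (n : ℝ))
    (fun n => div_nonneg vonMangoldt_nonneg (Nat.cast_nonneg n)) mert G B K hB hK T hT
    ((X / m : ℕ) : ℝ) hY1 hYT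
  rw [Nat.floor_natCast, ← hLdef] at hl
  have hlY0 : 0 ≤ Real.log ((X / m : ℕ) : ℝ) / L := div_nonneg (Real.log_nonneg hY1) hL.le
  have hlY1 : Real.log ((X / m : ℕ) : ℝ) / L ≤ 1 := by
    rw [div_le_one hL, hLdef]
    exact Real.log_le_log (by linarith) hYT
  have hmono : ∫ x in (0 : ℝ)..(Real.log ((X / m : ℕ) : ℝ) / L), G x ≤ ∫ x in (0 : ℝ)..1, G x := by
    apply intervalIntegral.integral_mono_interval le_rfl hlY0 hlY1
    · exact Filter.Eventually.of_forall (fun x => hG0 x)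
    · exact hint
  have hsum : ∑ n ∈ Icc 2 (X / m), vonMangoldt n / (n : ℝ) *
      ((2 / L * Real.sqrt (G (Real.log n / L))) ^ 2 / (2 * κ / L)) =
      2 / κ * ((∑ n ∈ Icc 2 (X / m), vonMangoldt n / (n : ℝ) * G (Real.log n / L)) / L) := by
    rw [Finset.sum_div, Finset.mul_sum]
    apply Finset.sum_congr rfl
    intro n _
    rw [mul_pow, Real.sq_sqrt (hG0 _)]
    field_simp
  rw [hsum]
  have h2 := (abs_le.1 hl).2
  have h3 : (∑ n ∈ Icc 2 (X / m), vonMangoldt n / (n : ℝ) * G (Real.log n / L)) / L ≤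
      (∫ x in (0 : ℝ)..1, G x) + C1 * (B + K) / L := by linarith
  have h4 : 2 / κ * ((∑ n ∈ Icc 2 (X / m), vonMangoldt n / (n : ℝ) * G (Real.log n / L)) / L) ≤
      2 / κ * ((∫ x in (0 : ℝ)..1, G x) + C1 * (B + K) / L) :=
    mul_le_mul_of_nonneg_left h3 (by positivity)
  have h5 : 2 * κ / L * Real.log m ≤ 2 * κ := by
    rw [div_mul_eq_mul_div, div_le_iff₀ hL]
    exact mul_le_mul_of_nonneg_left hlm (by positivity)
  have h6 : 2 / κ * ((∫ x in (0 : ℝ)..1, G x) + C1 * (B + K) / L) =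
      2 * ((∫ x in (0 : ℝ)..1, G x) / κ + (C1 * (B + K) / κ) / L) := by
    field_simp
  have h7 : (C1 * (B + K) / κ) / L ≤ (C1 * (B + K) / κ + 1) / L := by
    apply div_le_div_of_nonneg_right _ hL.le
    linarith
  linarith

/-- weight `1`, symbol `1`; sharp in the length `X` -/
theorem corr_one : ∃ C : ℝ, 0 < C ∧ ∀ T : ℝ, 2 ≤ T → ∀ X : ℕ, 1 ≤ X → (X : ℝ) ≤ T →
    ∀ a g : ℕ → ℂ, (∀ n ∈ Icc 2 X, ‖g n‖ ≤ 2 / Real.log T) →
      |corr X a g| ≤ (Real.log X + C) / Real.log T * norm2 X a := by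
  refine ⟨6, by norm_num, ?_⟩
  intro T hT X hX1 hX a g hg
  have hL : 0 < Real.log T := Real.log_pos (by linarith)
  obtain ⟨L, hLdef⟩ : ∃ L, L = Real.log T := ⟨_, rfl⟩
  rw [← hLdef] at hL hg ⊢
  have hs := schur X a g (fun _ => 2 / L) (fun _ => 2 / L) hg
    (fun n => by positivity) (fun m => by positivity)
  refine hs.trans ?_
  apply sum_bound
  intro m hm
  have hm' := Finset.mem_Icc.1 hm
  have hdv := div_ge hm
  have hm0 : (0 : ℝ) < m := by
    have : 0 < m := by omega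
    exact_mod_cast this
  have hX0 : (0 : ℝ) < X := by
    have : 0 < X := by omega
    exact_mod_cast this
  have hd0 : (0 : ℝ) < ((X / m : ℕ) : ℝ) := by
    have : 0 < X / m := by omega
    exact_mod_cast this
  have h1 := (abs_le.1 (mert (X / m) hdv)).2
  have h2 : Real.log ((X / m : ℕ) : ℝ) ≤ Real.log X - Real.log m := by
    rw [← Real.log_div hX0.ne' hm0.ne']
    exact Real.log_le_log hd0 Nat.cast_div_le
  have hsum : ∑ n ∈ Icc 2 (X / m), vonMangoldt n / (n : ℝ) * ((2 / L) ^ 2 / (2 / L)) =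
      2 / L * ∑ n ∈ Icc 2 (X / m), vonMangoldt n / (n : ℝ) := by
    rw [Finset.mul_sum]
    apply Finset.sum_congr rfl
    intro n _
    have h3 : (2 / L) ^ 2 / (2 / L) = 2 / L := by
      field_simp
    rw [h3, mul_comm]
  rw [hsum, ← mul_add]
  have h4 : 2 / L * (Real.log m + ∑ n ∈ Icc 2 (X / m), vonMangoldt n / (n : ℝ)) ≤
      2 / L * (Real.log X + 6) := mul_le_mul_of_nonneg_left (by linarith) (by positivity)
  have h5 : 2 / L * (Real.log X + 6) = 2 * ((Real.log X + 6) / L) := by ring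
  linarith

end Pool.Agent.Work.MP_7b186b_nt.MO
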