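import Mathlib
import Pool.Agent.Work.MP_7b186b_nt.MO.Defs

set_option autoImplicit false

namespace Pool.Agent.Work.MP_7b186b_nt.MO

open Finset ArithmeticFunction

private theorem window_g_cont (T : ℝ) (n : ℕ) : Continuous fun u : ℝ =>
    ((2 / Real.log T : ℝ) : ℂ) *
      Complex.exp (2 * Real.pi * u * (Real.log n / Real.log T : ℝ) * Complex.I) := by
  fun_prop

private theorem window_corr_cont (X : ℕ) (a : ℕ → ℂ) (g : ℝ → ℕ → ℂ)
    (hg : ∀ n, Continuous fun u => g u n) : Continuous fun u => corr X a (g u) := by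
  unfold corr
  refine continuous_finsetSum _ fun k _ => continuous_finsetSum _ fun n _ => ?_
  exact ((Complex.continuous_re.comp (continuous_const.mul (hg n))).mul
    continuous_const).div_const _

private theorem window_corr_int (X : ℕ) (a : ℕ → ℂ) (g : ℝ → ℕ → ℂ)
    (hg : ∀ n, Continuous fun u => g u n) (p q : ℝ) :
    ∫ u in p..q, corr X a (g u) = corr X a (fun n => ∫ u in p..q, g u n) := by
  have hc : ∀ k n, Continuous fun u =>
      (a k * (starRingEnd ℂ) (a (k * n)) * g u n).re * vonMangoldt n / Real.sqrt n := fun k n =>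
    ((Complex.continuous_re.comp (continuous_const.mul (hg n))).mul continuous_const).div_const _
  unfold corr
  rw [intervalIntegral.integral_finsetSum]
  · refine Finset.sum_congr rfl fun k _ => ?_
    rw [intervalIntegral.integral_finsetSum]
    · refine Finset.sum_congr rfl fun n _ => ?_
      rw [intervalIntegral.integral_div, intervalIntegral.integral_mul_const]
      congr 2
      have h1 : IntervalIntegrable (fun u => a k * (starRingEnd ℂ) (a (k * n)) * g u n)
          MeasureTheory.volume p q := (continuous_const.mul (hg n)).intervalIntegrable _ _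
      have h2 := Complex.reCLM.intervalIntegral_comp_comm h1
      simp only [Complex.reCLM_apply] at h2
      rw [h2, intervalIntegral.integral_const_mul]
    · exact fun n _ => (hc k n).intervalIntegrable _ _
  · exact fun k _ => (continuous_finsetSum _ fun n _ => hc k n).intervalIntegrable _ _

private theorem window_corr_congr (X : ℕ) (a g g' : ℕ → ℂ) (h : ∀ n, 2 ≤ n → g n = g' n) :
    corr X a g = corr X a g' := by
  unfold corr
  refine Finset.sum_congr rfl fun k _ => Finset.sum_congr rfl fun n hn => ?_
  rw [h n (Finset.mem_Icc.1 hn).1]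

private theorem window_g_int (c v T : ℝ) (hT : 1 < T) (n : ℕ) (hn : 2 ≤ n) :
    ∫ u in v..(v + c), ((2 / Real.log T : ℝ) : ℂ) *
      Complex.exp (2 * Real.pi * u * (Real.log n / Real.log T : ℝ) * Complex.I) =
    (gMO c T n : ℂ) *
      Complex.exp (2 * Real.pi * (v + c / 2) * (Real.log n / Real.log T : ℝ) * Complex.I) := by
  have hL : 0 < Real.log T := Real.log_pos hT
  have hn' : 0 < Real.log n := Real.log_pos (by exact_mod_cast hn)
  have hpi := Real.pi_pos
  set x : ℝ := Real.log n / Real.log T with hx
  clear_value x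
  have hx0 : 0 < x := hx ▸ div_pos hn' hL
  have hxc : (x : ℂ) ≠ 0 := Complex.ofReal_ne_zero.2 hx0.ne'
  have hpc : (Real.pi : ℂ) ≠ 0 := Complex.ofReal_ne_zero.2 hpi.ne'
  have hLc : (Real.log T : ℂ) ≠ 0 := Complex.ofReal_ne_zero.2 hL.ne'
  have hnc : (Real.log n : ℂ) ≠ 0 := Complex.ofReal_ne_zero.2 hn'.ne'
  have hI := Complex.I_ne_zero
  have hw : (2 * Real.pi * x * Complex.I : ℂ) ≠ 0 :=
    mul_ne_zero (mul_ne_zero (mul_ne_zero two_ne_zero hpc) hxc) hI
  have e1 : ∀ u : ℝ, (2 * Real.pi * u * x * Complex.I : ℂ) = (2 * Real.pi * x * Complex.I) * u :=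
    fun u => by ring
  simp only [e1]
  rw [intervalIntegral.integral_const_mul, integral_exp_mul_complex hw]
  have e2 : ((2 * Real.pi * x * Complex.I) * ((v + c : ℝ) : ℂ) : ℂ) =
      2 * Real.pi * (v + c / 2) * x * Complex.I + (Real.pi * c * x : ℝ) * Complex.I := by
    push_cast; ring
  have e3 : ((2 * Real.pi * x * Complex.I) * (v : ℂ) : ℂ) =
      2 * Real.pi * (v + c / 2) * x * Complex.I + -(Real.pi * c * x : ℝ) * Complex.I := by
    push_cast; ring
  have e4 : Complex.exp (((Real.pi * c * x : ℝ) : ℂ) * Complex.I) -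
      Complex.exp (-((Real.pi * c * x : ℝ) : ℂ) * Complex.I) =
      2 * (Real.sin (Real.pi * c * x) : ℂ) * Complex.I := by
    rw [Complex.ofReal_sin, Complex.sin]
    ring_nf
    rw [Complex.I_sq]
    ring
  rw [e2, e3, Complex.exp_add, Complex.exp_add, ← mul_sub, e4]
  unfold gMO
  rw [← hx]
  have e5 : Real.log n = x * Real.log T := by rw [hx]; field_simp
  rw [e5]
  generalize Complex.exp (2 * Real.pi * (v + c / 2) * x * Complex.I) = Y
  generalize Real.log T = L at hLc
  generalize Real.sin (Real.pi * c * x) = S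
  simp only [Complex.ofReal_div, Complex.ofReal_mul, Complex.ofReal_ofNat]
  field_simp

theorem rho_continuous (T : ℝ) (X : ℕ) (a : ℕ → ℂ) : Continuous (rho T X a) := by
  unfold rho
  exact continuous_const.sub
    ((window_corr_cont X a (fun u n => ((2 / Real.log T : ℝ) : ℂ) *
      Complex.exp (2 * Real.pi * u * (Real.log n / Real.log T : ℝ) * Complex.I))
      (window_g_cont T)).div_const _)

/-- the mass of a window -/
theorem rho_window (c v T : ℝ) (hT : 1 < T) (X : ℕ) (a : ℕ → ℂ) :
    ∫ u in v..(v + c), rho T X a u = c - corr X a (fun n => (gMO c T n : ℂ) *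
      Complex.exp (2 * Real.pi * (v + c / 2) * (Real.log n / Real.log T : ℝ) * Complex.I)) /
        norm2 X a := by
  have hc := window_corr_cont X a (fun u n => ((2 / Real.log T : ℝ) : ℂ) *
      Complex.exp (2 * Real.pi * u * (Real.log n / Real.log T : ℝ) * Complex.I))
      (window_g_cont T)
  have hi := window_corr_int X a (fun u n => ((2 / Real.log T : ℝ) : ℂ) *
      Complex.exp (2 * Real.pi * u * (Real.log n / Real.log T : ℝ) * Complex.I))
      (window_g_cont T) v (v + c)
  unfold rho
  rw [intervalIntegral.integral_sub (by simp) ((hc.div_const _).intervalIntegrable _ _),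
    intervalIntegral.integral_div, hi, intervalIntegral.integral_const]
  congr 1
  · simp
  · congr 1
    exact window_corr_congr X a _ _ fun n hn => window_g_int c v T hT n hn

theorem hMO_eq (c T : ℝ) (hT : 1 < T) (X : ℕ) (a : ℕ → ℂ) :
    hMO c T X a = ∫ u in (-(c / 2))..(-(c / 2) + c), rho T X a u := by
  rw [rho_window c _ T hT X a]
  unfold hMO
  congr 2
  refine window_corr_congr X a _ _ fun n _ => ?_
  have : (2 * Real.pi * (((-(c / 2) : ℝ) : ℂ) + c / 2) *
      (Real.log n / Real.log T : ℝ) * Complex.I : ℂ) = 0 := by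
    push_cast; ring
  rw [this, Complex.exp_zero, mul_one]

end Pool.Agent.Work.MP_7b186b_nt.MO
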