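import Mathlib
import Pool.Agent.Work.MP_7b186b_nt.MO.Cert
import Pool.Agent.Work.MP_7b186b_nt.MO.CorrC
import Pool.Agent.Work.MP_7b186b_nt.MO.Window
import Pool.Agent.Work.MP_7b186b_nt.MO.GF

set_option autoImplicit false

namespace Pool.Agent.Work.MP_7b186b_nt.MO

open Finset ArithmeticFunction

/-
PROOF. norm2 <> 0 gives 1 <= X. rho_window with c = 277/100: the window [v, v+277/100] has mass
277/100 - corr X a g/norm2 with |g n| = |gMO| = (2/log T) sqrt(GG) (gMO_abs, |exp(i real)| = 1), so mass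
>= 277/100 - 1769/1000 - C/log T by corr_277. For every u: rho u >= 1 - (log X + C')/log T >= - C'/log T (corr_one), so the
rest [v+277/100, v+c] has mass >= -(c - 277/100) C'/log T. Total >= 1.001 - o(1) > 1. main1h: hMO_eq.
rho_pos: log X <= log T - 2 log log T, so rho >= (2 log log T - C')/log T > 0 for T large.
-/

private theorem m1_norm {X : ℕ} {a : ℕ → ℂ} (h : norm2 X a ≠ 0) : 1 ≤ X ∧ 0 < norm2 X a := by
  refine ⟨?_, lt_of_le_of_ne (Finset.sum_nonneg fun k _ => sq_nonneg _) (Ne.symm h)⟩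
  by_contra hX
  have hX0 : X = 0 := by omega
  apply h
  rw [hX0]
  simp [norm2]

private theorem m1_rho : ∃ C : ℝ, 0 < C ∧ ∀ T : ℝ, 2 ≤ T → ∀ X : ℕ, (X : ℝ) ≤ T →
    ∀ a : ℕ → ℂ, norm2 X a ≠ 0 → ∀ u : ℝ,
      1 - (Real.log X + C) / Real.log T ≤ rho T X a u := by
  obtain ⟨C, hC, h⟩ := corr_one
  refine ⟨C, hC, fun T hT X hX a ha u => ?_⟩
  obtain ⟨hX1, hN⟩ := m1_norm ha
  have hlT : 0 < Real.log T := Real.log_pos (by linarith)
  have h1 := h T hT X hX1 hX a (fun n => ((2 / Real.log T : ℝ) : ℂ) *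
    Complex.exp (2 * Real.pi * u * (Real.log n / Real.log T : ℝ) * Complex.I)) (by
      intro n _
      have h2 : (2 * Real.pi * u * (Real.log n / Real.log T : ℝ) * Complex.I : ℂ) =
          ((2 * Real.pi * u * (Real.log n / Real.log T) : ℝ) : ℂ) * Complex.I := by
        push_cast
        ring
      rw [norm_mul, h2, Complex.norm_exp_ofReal_mul_I, mul_one, Complex.norm_real,
        Real.norm_of_nonneg (by positivity)])
  unfold rho
  have h2 : corr X a (fun n => ((2 / Real.log T : ℝ) : ℂ) *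
      Complex.exp (2 * Real.pi * u * (Real.log n / Real.log T : ℝ) * Complex.I)) / norm2 X a ≤
      (Real.log X + C) / Real.log T := by
    rw [div_le_iff₀ hN]
    exact (le_abs_self _).trans h1
  linarith

/-- every window of length `≥ 2.77` has mass `> 1` -/
theorem main1 (c : ℝ) (hc : 277 / 100 ≤ c) : ∃ T₀ : ℝ, ∀ T : ℝ, T₀ ≤ T → ∀ X : ℕ, (X : ℝ) ≤ T →
    ∀ a : ℕ → ℂ, norm2 X a ≠ 0 → ∀ v : ℝ, 1 < ∫ u in v..(v + c), rho T X a u := by
  obtain ⟨C₁, hC₁, h₁⟩ := corr_277
  obtain ⟨C₂, hC₂, h₂⟩ := m1_rho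
  set D : ℝ := C₁ + (c - 277 / 100) * C₂ with hD
  have hD0 : 0 < D := by
    have : 0 ≤ (c - 277 / 100) * C₂ := mul_nonneg (by linarith) hC₂.le
    linarith
  refine ⟨max 2 (Real.exp (1000 * D + 1)), fun T hT X hX a ha v => ?_⟩
  have hT2 : 2 ≤ T := (le_max_left _ _).trans hT
  have hT3 : Real.exp (1000 * D + 1) ≤ T := (le_max_right _ _).trans hT
  have hlT : 1000 * D + 1 ≤ Real.log T := by
    rw [Real.le_log_iff_exp_le (by linarith)]
    exact hT3
  have hlT0 : 0 < Real.log T := by linarith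
  obtain ⟨hX1, hN⟩ := m1_norm ha
  have hcont := rho_continuous T X a
  have hsplit : ∫ u in v..(v + c), rho T X a u =
      (∫ u in v..(v + 277 / 100), rho T X a u) + ∫ u in (v + 277 / 100)..(v + c), rho T X a u :=
    (intervalIntegral.integral_add_adjacent_intervals (hcont.intervalIntegrable _ _)
      (hcont.intervalIntegrable _ _)).symm
  have hfirst : 1001 / 1000 - C₁ / Real.log T ≤ ∫ u in v..(v + 277 / 100), rho T X a u := by
    rw [rho_window (277 / 100) v T (by linarith) X a]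
    have h3 := h₁ T hT2 X hX a (fun n => (gMO (277 / 100) T n : ℂ) *
      Complex.exp (2 * Real.pi * (v + (277 / 100 : ℝ) / 2) *
        (Real.log n / Real.log T : ℝ) * Complex.I)) (by
        intro n hn
        rw [Finset.mem_Icc] at hn
        have h4 : (2 * Real.pi * (v + (277 / 100 : ℝ) / 2) *
            (Real.log n / Real.log T : ℝ) * Complex.I : ℂ) =
            ((2 * Real.pi * (v + (277 / 100) / 2) * (Real.log n / Real.log T) : ℝ) : ℂ) *
              Complex.I := by
          push_cast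
          ring
        rw [norm_mul, h4, Complex.norm_exp_ofReal_mul_I, mul_one, Complex.norm_real,
          Real.norm_eq_abs, gMO_abs _ _ _ (by linarith) hn.1])
    have h5 : corr X a (fun n => (gMO (277 / 100) T n : ℂ) *
        Complex.exp (2 * Real.pi * (v + (277 / 100 : ℝ) / 2) *
          (Real.log n / Real.log T : ℝ) * Complex.I)) / norm2 X a ≤
        1769 / 1000 + C₁ / Real.log T := by
      rw [div_le_iff₀ hN]
      exact (le_abs_self _).trans h3
    linarith
  have hsecond : (c - 277 / 100) * (-(C₂ / Real.log T)) ≤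
      ∫ u in (v + 277 / 100)..(v + c), rho T X a u := by
    have h6 : ∀ u : ℝ, -(C₂ / Real.log T) ≤ rho T X a u := by
      intro u
      refine le_trans ?_ (h₂ T hT2 X hX a ha u)
      have h7 : Real.log X ≤ Real.log T :=
        Real.log_le_log (by exact_mod_cast hX1) hX
      have h8 : Real.log X / Real.log T ≤ 1 := (div_le_one hlT0).2 h7
      rw [add_div]
      linarith
    have h9 : ∫ _ in (v + 277 / 100)..(v + c), (-(C₂ / Real.log T)) =
        (c - 277 / 100) * (-(C₂ / Real.log T)) := by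
      rw [intervalIntegral.integral_const, smul_eq_mul]
      ring
    rw [← h9]
    exact intervalIntegral.integral_mono_on (by linarith) (by simp)
      (hcont.intervalIntegrable _ _) fun u _ => h6 u
  have hfin : D / Real.log T < 1 / 1000 := by
    rw [div_lt_iff₀ hlT0]
    linarith
  have h10 : D / Real.log T = C₁ / Real.log T + (c - 277 / 100) * (C₂ / Real.log T) := by
    rw [hD]
    field_simp
  rw [hsplit]
  linarith

theorem main1h (c : ℝ) (hc : 277 / 100 ≤ c) : ∃ T₀ : ℝ, ∀ T : ℝ, T₀ ≤ T → ∀ X : ℕ, (X : ℝ) ≤ T →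
    ∀ a : ℕ → ℂ, norm2 X a ≠ 0 → 1 < hMO c T X a := by
  obtain ⟨T₀, h⟩ := main1 c hc
  refine ⟨max 2 T₀, fun T hT X hX a ha => ?_⟩
  have hT2 : 2 ≤ T := (le_max_left _ _).trans hT
  rw [hMO_eq c T (by linarith) X a]
  exact h T ((le_max_right _ _).trans hT) X hX a ha _

/-- the density is positive for lengths `X ≤ T / (log T)^2` -/
theorem rho_pos : ∃ T₀ : ℝ, ∀ T : ℝ, T₀ ≤ T → ∀ X : ℕ, (X : ℝ) ≤ T / (Real.log T) ^ 2 →
    ∀ a : ℕ → ℂ, norm2 X a ≠ 0 → ∀ u : ℝ, 0 < rho T X a u := by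
  obtain ⟨C, hC, h⟩ := m1_rho
  refine ⟨Real.exp (Real.exp C), fun T hT X hX a ha u => ?_⟩
  have hT0 : 0 < T := (Real.exp_pos _).trans_le hT
  have hlT : Real.exp C ≤ Real.log T := by
    rw [Real.le_log_iff_exp_le hT0]
    exact hT
  have hlT0 : 0 < Real.log T := (Real.exp_pos _).trans_le hlT
  have hlT1 : 1 ≤ Real.log T := (Real.one_le_exp hC.le).trans hlT
  have hllT : C ≤ Real.log (Real.log T) := by
    rw [Real.le_log_iff_exp_le hlT0]
    exact hlT
  have hT2 : 2 ≤ T := by
    have h1 : Real.exp 1 ≤ T := by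
      rw [← Real.le_log_iff_exp_le hT0]
      exact hlT1
    have h2 := Real.add_one_le_exp (1 : ℝ)
    linarith
  have hXT : (X : ℝ) ≤ T := by
    refine hX.trans (div_le_self hT0.le ?_)
    exact one_le_pow₀ hlT1
  obtain ⟨hX1, hN⟩ := m1_norm ha
  have hX0 : (0 : ℝ) < X := by exact_mod_cast hX1
  have h3 : Real.log X ≤ Real.log T - 2 * Real.log (Real.log T) := by
    have h4 := Real.log_le_log hX0 hX
    rw [Real.log_div hT0.ne' (pow_ne_zero 2 hlT0.ne'), Real.log_pow] at h4
    exact_mod_cast h4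
  refine lt_of_lt_of_le ?_ (h T hT2 X hXT a ha u)
  rw [sub_pos, div_lt_one hlT0]
  linarith

end Pool.Agent.Work.MP_7b186b_nt.MO
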