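import Mathlib

set_option autoImplicit false

namespace Pool.Agent.Work.MP_7b186b_nt.MO

open MeasureTheory Filter

/-
PROOF. F(u) = int_0^u rho is C^1, strictly increasing, F(v+l) - F(v) >= 1, so F is a homeomorphism of R onto R. For theta in
[0,1) put x_n = F^{-1}(n+theta): F(x_n + l) >= F(x_n) + 1 = F(x_{n+1}), so x_{n+1} - x_n <= l; x_n -> +-oo. Change of variables
y = F(u): int_0^1 sum_n f(F^{-1}(n+theta)) dtheta = int_R f(F^{-1}(y)) dy = int f rho < oo (Tonelli, use lintegral /
ENNReal.ofReal), so some theta has sum_n f(x_n) <= int f rho (and finite, hence summable).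
-/

private theorem lint_per (g : ℝ → ENNReal) (hm : Measurable g) :
    ∫⁻ v, g v = ∫⁻ x in Set.Ioc (0 : ℝ) 1, ∑' n : ℤ, g (x + n) := by
  have h1 : ∫⁻ v, g v = ∑' n : ℤ, ∫⁻ v in Set.Ioc (n : ℝ) (n + 1), g v := by
    rw [← lintegral_iUnion (fun n => measurableSet_Ioc), iUnion_Ioc_intCast, Measure.restrict_univ]
    exact Set.pairwise_disjoint_Ioc_intCast ℝ
  have h2 : ∀ n : ℤ, ∫⁻ v in Set.Ioc (n : ℝ) (n + 1), g v =
      ∫⁻ x in Set.Ioc (0 : ℝ) 1, g (x + n) := by
    intro n
    have := (measurePreserving_add_right volume (n : ℝ)).setLIntegral_comp_preimage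
      (s := Set.Ioc (n : ℝ) (n + 1)) measurableSet_Ioc hm
    rw [← this]
    congr 2
    ext y
    simp only [Set.mem_preimage, Set.mem_Ioc]
    constructor <;> rintro ⟨h, h'⟩ <;> constructor <;> linarith
  rw [h1]
  simp_rw [h2]
  rw [← lintegral_tsum (fun n => by
    exact (hm.comp (measurable_id.add_const _)).aemeasurable)]

/-- A positive continuous density with mass at least `1` on every window of length `l` is an
average of configurations with all gaps at most `l`; in particular some configuration has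
`∑ f(x_n) ≤ ∫ f ρ`. -/
theorem quant (ρ : ℝ → ℝ) (hρc : Continuous ρ) (hρ0 : ∀ u, 0 < ρ u) (l : ℝ) (hl : 0 < l)
    (hw : ∀ v : ℝ, 1 ≤ ∫ u in v..(v + l), ρ u) (f : ℝ → ℝ) (hf : Measurable f)
    (hf0 : ∀ u, 0 ≤ f u) (hfi : Integrable (fun u => f u * ρ u)) :
    ∃ x : ℤ → ℝ, StrictMono x ∧ (∀ n, x (n + 1) - x n ≤ l) ∧ Tendsto x atTop atTop ∧
      Tendsto x atBot atBot ∧ Summable (fun n => f (x n)) ∧
      ∑' n, f (x n) ≤ ∫ u, f u * ρ u := by
  have hii : ∀ a b : ℝ, IntervalIntegrable ρ volume a b := fun a b => hρc.intervalIntegrable a b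
  set F : ℝ → ℝ := fun u => ∫ t in (0 : ℝ)..u, ρ t with hF
  have hFd : ∀ u, HasDerivAt F (ρ u) u := fun u =>
    intervalIntegral.integral_hasDerivAt_right (hii 0 u)
      (hρc.stronglyMeasurableAtFilter _ _) hρc.continuousAt
  have hFc : Continuous F := continuous_iff_continuousAt.2 fun u => (hFd u).continuousAt
  have hFm : StrictMono F := by
    apply strictMono_of_deriv_pos
    intro u
    rw [(hFd u).deriv]
    exact hρ0 u
  have hstep : ∀ v, F v + 1 ≤ F (v + l) := by
    intro v
    have h := intervalIntegral.integral_add_adjacent_intervals (hii 0 v) (hii v (v + l))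
    have h2 := hw v
    simp only [hF]
    linarith
  have hup : ∀ k : ℕ, F 0 + k ≤ F (k * l) := by
    intro k
    induction k with
    | zero => simp
    | succ k ih =>
      have := hstep (k * l)
      have e : ((k + 1 : ℕ) : ℝ) * l = k * l + l := by push_cast; ring
      rw [e]
      push_cast
      linarith
  have hdn : ∀ k : ℕ, F (-(k * l)) ≤ F 0 - k := by
    intro k
    induction k with
    | zero => simp
    | succ k ih =>
      have := hstep (-((k + 1 : ℕ) * l))
      have e : -(((k + 1 : ℕ) : ℝ) * l) + l = -(k * l) := by push_cast; ring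
      rw [e] at this
      push_cast at this ⊢
      linarith
  have hsurj : Function.Surjective F := by
    intro y
    obtain ⟨k, hk⟩ := exists_nat_ge (|y - F 0|)
    have h1 : F (-(k * l)) ≤ y := by
      have := hdn k
      have := neg_abs_le (y - F 0)
      linarith
    have h2 : y ≤ F (k * l) := by
      have := hup k
      have := le_abs_self (y - F 0)
      linarith
    have hle : -((k : ℝ) * l) ≤ k * l := by
      have : (0 : ℝ) ≤ k * l := by positivity
      linarith
    obtain ⟨u, -, hu⟩ := intermediate_value_Icc hle hFc.continuousOn ⟨h1, h2⟩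
    exact ⟨u, hu⟩
  set e : ℝ ≃o ℝ := StrictMono.orderIsoOfSurjective F hFm hsurj with he
  have heF : ∀ u, e u = F u := fun u => rfl
  set G : ℝ → ℝ := fun y => e.symm y with hG
  have hGF : ∀ u, G (F u) = u := fun u => by
    rw [← heF]; exact e.symm_apply_apply u
  have hFG : ∀ y, F (G y) = y := fun y => by
    rw [← heF]; exact e.apply_symm_apply y
  have hGm : StrictMono G := e.symm.strictMono
  have hGc : Continuous G := e.symm.continuous
  -- change of variables
  set g : ℝ → ENNReal := fun y => ENNReal.ofReal (f (G y)) with hg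
  have hgm : Measurable g := ENNReal.measurable_ofReal.comp (hf.comp hGc.measurable)
  have hcv : ∫⁻ y, g y = ∫⁻ u, ENNReal.ofReal (f u * ρ u) := by
    have h := lintegral_image_eq_lintegral_abs_deriv_mul (s := Set.univ) MeasurableSet.univ
      (f := F) (f' := ρ) (fun u _ => (hFd u).hasDerivWithinAt) hFm.injective.injOn g
    rw [Set.image_univ, hsurj.range_eq, Measure.restrict_univ] at h
    rw [h]
    refine lintegral_congr fun u => ?_
    rw [hg]
    simp only
    rw [hGF, abs_of_pos (hρ0 u), ← ENNReal.ofReal_mul (hρ0 u).le, mul_comm]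
  have hA : ∫⁻ u, ENNReal.ofReal (f u * ρ u) = ENNReal.ofReal (∫ u, f u * ρ u) := by
    rw [ofReal_integral_eq_lintegral_ofReal hfi]
    exact Eventually.of_forall fun u => mul_nonneg (hf0 u) (hρ0 u).le
  have hav : ∃ θ ∈ Set.Ioc (0 : ℝ) 1, ∑' n : ℤ, g (θ + n) ≤
      ENNReal.ofReal (∫ u, f u * ρ u) := by
    have h := exists_le_setLAverage (μ := volume) (s := Set.Ioc (0 : ℝ) 1)
      (f := fun θ => ∑' n : ℤ, g (θ + n)) (by simp) (by simp)
      (Measurable.tsum fun n => hgm.comp (measurable_id.add_const _)).aemeasurable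
    obtain ⟨θ, hθ, h⟩ := h
    refine ⟨θ, hθ, h.trans (le_of_eq ?_)⟩
    rw [setLAverage_eq, ← lint_per g hgm, hcv, hA]
    simp
  obtain ⟨θ, -, hθ⟩ := hav
  refine ⟨fun n => G (θ + n), ?_, ?_, ?_, ?_, ?_⟩
  · intro m n hmn
    apply hGm
    have : (m : ℝ) < n := by exact_mod_cast hmn
    linarith
  · intro n
    have h1 := hstep (G (θ + n))
    rw [hFG] at h1
    have h2 : G (θ + ((n + 1 : ℤ) : ℝ)) ≤ G (θ + n) + l := by
      rw [← hFm.le_iff_le, hFG]
      push_cast
      linarith
    linarith
  · refine e.symm.tendsto_atTop.comp ?_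
    exact tendsto_atTop_add_const_left _ _ tendsto_intCast_atTop_atTop
  · refine e.symm.tendsto_atBot.comp ?_
    exact tendsto_atBot_add_const_left _ _ (tendsto_intCast_atBot_iff.2 tendsto_id)
  · have hne : ∑' n : ℤ, g (θ + n) ≠ ⊤ := ne_top_of_le_ne_top ENNReal.ofReal_ne_top hθ
    have hs : Summable (fun n : ℤ => f (G (θ + n))) := by
      have := ENNReal.summable_toReal hne
      refine this.congr fun n => ?_
      rw [hg]
      exact ENNReal.toReal_ofReal (hf0 _)
    refine ⟨hs, ?_⟩
    have h1 := ENNReal.ofReal_tsum_of_nonneg (fun n : ℤ => hf0 (G (θ + n))) hs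
    have h2 : ENNReal.ofReal (∑' n : ℤ, f (G (θ + n))) ≤ ENNReal.ofReal (∫ u, f u * ρ u) := by
      rw [h1]
      exact hθ
    refine (ENNReal.ofReal_le_ofReal_iff ?_).1 h2
    exact integral_nonneg fun u => mul_nonneg (hf0 u) (hρ0 u).le

end Pool.Agent.Work.MP_7b186b_nt.MO
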