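import Mathlib
import Pool.Agent.Work.MP_7b186b_nt.MO.Main1
import Pool.Agent.Work.MP_7b186b_nt.MO.Quant

set_option autoImplicit false

namespace Pool.Agent.Work.MP_7b186b_nt.MO

open MeasureTheory Filter

/-- no other kernel helps -/
theorem main4 : ∃ T₀ : ℝ, ∀ T : ℝ, T₀ ≤ T → ∀ X : ℕ, (X : ℝ) ≤ T / (Real.log T) ^ 2 →
    ∀ a : ℕ → ℂ, norm2 X a ≠ 0 → (∀ u : ℝ, 0 < rho T X a u) ∧
    ∀ f : ℝ → ℝ, Measurable f → (∀ u, 0 ≤ f u) → Integrable (fun u => f u * rho T X a u) →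
    ∃ x : ℤ → ℝ, StrictMono x ∧ (∀ n, x (n + 1) - x n ≤ 277 / 100) ∧ Tendsto x atTop atTop ∧
      Tendsto x atBot atBot ∧ Summable (fun n => f (x n)) ∧
      ∑' n, f (x n) ≤ ∫ u, f u * rho T X a u := by
  obtain ⟨T₁, h₁⟩ := main1 (277 / 100) le_rfl
  obtain ⟨T₂, h₂⟩ := rho_pos
  refine ⟨max (Real.exp 1) (max T₁ T₂), fun T hT X hX a ha => ?_⟩
  have hT1 : T₁ ≤ T := ((le_max_left _ _).trans (le_max_right _ _)).trans hT
  have hT2 : T₂ ≤ T := ((le_max_right _ _).trans (le_max_right _ _)).trans hT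
  have hTe : Real.exp 1 ≤ T := (le_max_left _ _).trans hT
  have hT0 : 0 < T := (Real.exp_pos _).trans_le hTe
  have hlT : 1 ≤ Real.log T := by
    rw [Real.le_log_iff_exp_le hT0]
    exact hTe
  have hXT : (X : ℝ) ≤ T := hX.trans (div_le_self hT0.le (one_le_pow₀ hlT))
  have hpos : ∀ u : ℝ, 0 < rho T X a u := h₂ T hT2 X hX a ha
  refine ⟨hpos, fun f hf hf0 hfi => ?_⟩
  exact quant (rho T X a) (rho_continuous T X a) hpos (277 / 100) (by norm_num)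
    (fun v => (h₁ T hT1 X hXT a ha v).le) f hf hf0 hfi

end Pool.Agent.Work.MP_7b186b_nt.MO
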