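import Mathlib
import Pool.Agent.Work.MP_7b186b_nt.MO.GF

set_option autoImplicit false

namespace Pool.Agent.Work.MP_7b186b_nt.MO

/-
PROOF. By the substitution v = c x: GI c z = c * int_0^{cz} sinc(pi v)^2 dv, so it suffices: J(y) = int_0^y sinc(pi v)^2 dv
satisfies J(y) < 1/2 and J(y) >= 1/2 - 1/(pi^2 y). Since sinc(pi v)^2 <= 1/(pi v)^2 and is not identically zero beyond y,
both follow from lim_{y->oo} J(y) = 1/2. For the limit: for x in (0,1) one has
sum_{n in Z} 1/(x+n)^2 = pi^2/sin^2(pi x), i.e. sum_{n in Z} sinc(pi(x+n))^2 = 1 (Parseval for the circle),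
so int_R sinc(pi v)^2 dv = int_0^1 sum_n sinc(pi(x+n))^2 dx = 1.
-/

open MeasureTheory Set Filter

private noncomputable def ph (v : ℝ) : ℝ := Real.sinc (Real.pi * v) ^ 2

private theorem ph_nonneg (v : ℝ) : 0 ≤ ph v := sq_nonneg _

private theorem ph_cont : Continuous ph := by
  unfold ph
  exact (Real.continuous_sinc.comp (continuous_const.mul continuous_id)).pow 2

private theorem ph_abs (v : ℝ) : ph |v| = ph v := by
  unfold ph
  rcases abs_cases v with h | h
  · rw [h.1]
  · rw [h.1, mul_neg, Real.sinc_neg]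

private theorem coeff_sinc (x : ℝ) (n : ℤ) (hab : (-(1 / 2) : ℝ) < 1 / 2) :
    fourierCoeffOn hab
      (fun t : ℝ => Complex.exp (-(2 * Real.pi * x : ℝ) * Complex.I * t)) n =
      ((Real.sinc (Real.pi * (x + n)) : ℝ) : ℂ) := by
  rw [fourierCoeffOn_eq_integral]
  have h1 : (1 / ((1 / 2 : ℝ) - (-(1 / 2))) : ℝ) = 1 := by norm_num
  rw [h1, one_smul]
  have h2 : ∀ t : ℝ, (fourier (-n) (t : AddCircle ((1 / 2 : ℝ) - (-(1 / 2)))) : ℂ) •
      Complex.exp (-(2 * Real.pi * x : ℝ) * Complex.I * t) =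
      Complex.exp ((-(2 * Real.pi * (x + n) : ℝ) * Complex.I) * t) := by
    intro t
    rw [fourier_coe_apply, smul_eq_mul, ← Complex.exp_add]
    congr 1
    push_cast
    ring_nf
  simp_rw [h2]
  by_cases hz : x + n = 0
  · simp [hz]
    norm_num
  · have hc : (-(2 * Real.pi * (x + n) : ℝ) * Complex.I : ℂ) ≠ 0 := by
      apply mul_ne_zero _ Complex.I_ne_zero
      rw [neg_ne_zero]
      exact_mod_cast mul_ne_zero (by positivity) hz
    rw [integral_exp_mul_complex hc]
    have hpi : Real.pi * (x + n) ≠ 0 := mul_ne_zero Real.pi_ne_zero hz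
    rw [Real.sinc_of_ne_zero hpi, div_eq_iff hc]
    push_cast
    have e1 : (-(2 * (Real.pi : ℂ) * (x + n)) * Complex.I * (1 / 2)) =
        -((Real.pi : ℂ) * (x + n)) * Complex.I := by ring
    have e2 : (-(2 * (Real.pi : ℂ) * (x + n)) * Complex.I * (-(1 / 2))) =
        ((Real.pi : ℂ) * (x + n)) * Complex.I := by ring
    rw [e1, e2, Complex.sin]
    have hpi' : ((Real.pi : ℂ) * (x + n)) ≠ 0 := by exact_mod_cast hpi
    have e3 : -(2 * (Real.pi : ℂ) * (x + n)) * Complex.I =
      -(2 * ((Real.pi : ℂ) * (x + n))) * Complex.I := by ring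
    rw [e3]
    generalize ((Real.pi : ℂ) * (x + n)) = w at hpi' ⊢
    generalize Complex.exp (-w * Complex.I) = A
    generalize Complex.exp (w * Complex.I) = B
    have : (A - B) * Complex.I / 2 / w * (-(2 * w) * Complex.I) =
        -(A - B) * (Complex.I * Complex.I) := by field_simp
    rw [this, Complex.I_mul_I]
    ring

private theorem hasSum_ph (x : ℝ) : HasSum (fun n : ℤ => ph (x + n)) 1 := by
  have hab : (-(1 / 2) : ℝ) < 1 / 2 := by norm_num
  have h := hasSum_sq_fourierCoeffOn (f := fun t : ℝ =>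
    Complex.exp (-(2 * Real.pi * x : ℝ) * Complex.I * t)) hab (by
      have : IsFiniteMeasure (volume.restrict (Ioc (-(1 / 2) : ℝ) (1 / 2))) := by infer_instance
      apply MemLp.of_bound (C := 1)
      · apply Continuous.aestronglyMeasurable
        fun_prop
      · refine Eventually.of_forall fun t => ?_
        rw [Complex.norm_exp]
        simp)
  simp_rw [coeff_sinc x _ hab] at h
  have h3 : ((1 / 2 - -(1 / 2) : ℝ))⁻¹ • (∫ t in (-(1 / 2) : ℝ)..(1 / 2),
      ‖Complex.exp (-(2 * Real.pi * x : ℝ) * Complex.I * t)‖ ^ 2) = 1 := by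
    have : ∀ t : ℝ, ‖Complex.exp (-(2 * Real.pi * x : ℝ) * Complex.I * t)‖ ^ 2 = 1 := by
      intro t
      rw [Complex.norm_exp]
      simp
    simp_rw [this]
    norm_num
  rw [h3] at h
  have h4 : ∀ n : ℤ, ‖((Real.sinc (Real.pi * (x + n)) : ℝ) : ℂ)‖ ^ 2 = ph (x + n) := by
    intro n
    rw [Complex.norm_real, Real.norm_eq_abs, sq_abs, ph]
  simpa only [h4] using h

private theorem lint_ph : ∫⁻ v, ENNReal.ofReal (ph v) = 1 := by
  have hm : Measurable fun v : ℝ => ENNReal.ofReal (ph v) :=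
    ENNReal.measurable_ofReal.comp ph_cont.measurable
  have h1 : ∫⁻ v, ENNReal.ofReal (ph v) =
      ∑' n : ℤ, ∫⁻ v in Ioc (n : ℝ) (n + 1), ENNReal.ofReal (ph v) := by
    rw [← lintegral_iUnion (fun n => measurableSet_Ioc), iUnion_Ioc_intCast, Measure.restrict_univ]
    exact pairwise_disjoint_Ioc_intCast ℝ
  have h2 : ∀ n : ℤ, ∫⁻ v in Ioc (n : ℝ) (n + 1), ENNReal.ofReal (ph v) =
      ∫⁻ x in Ioc (0 : ℝ) 1, ENNReal.ofReal (ph (x + n)) := by
    intro n
    have := (measurePreserving_add_right volume (n : ℝ)).setLIntegral_comp_preimage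
      (s := Ioc (n : ℝ) (n + 1)) measurableSet_Ioc hm
    rw [← this]
    congr 2
    ext y
    simp only [mem_preimage, mem_Ioc]
    constructor <;> rintro ⟨h, h'⟩ <;> constructor <;> linarith
  rw [h1]
  simp_rw [h2]
  rw [← lintegral_tsum (fun n => by
    exact (hm.comp (measurable_id.add_const _)).aemeasurable)]
  have h3 : ∀ x : ℝ, ∑' n : ℤ, ENNReal.ofReal (ph (x + n)) = 1 := by
    intro x
    rw [← ENNReal.ofReal_tsum_of_nonneg (fun n => ph_nonneg _) (hasSum_ph x).summable,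
      (hasSum_ph x).tsum_eq, ENNReal.ofReal_one]
  simp_rw [h3]
  simp

private theorem int_ph : Integrable ph := by
  refine ⟨ph_cont.aestronglyMeasurable, ?_⟩
  rw [hasFiniteIntegral_iff_ofReal (Eventually.of_forall ph_nonneg), lint_ph]
  exact ENNReal.one_lt_top

private theorem integral_ph : ∫ v, ph v = 1 := by
  rw [integral_eq_lintegral_of_nonneg_ae (Eventually.of_forall ph_nonneg)
    ph_cont.aestronglyMeasurable, lint_ph]
  simp

private theorem integral_Ioi_ph : ∫ v in Ioi (0 : ℝ), ph v = 1 / 2 := by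
  have h := integral_comp_abs (f := ph)
  simp_rw [ph_abs] at h
  rw [integral_ph] at h
  linarith

private theorem J_eq (y : ℝ) (hy : 0 ≤ y) :
    ∫ v in (0 : ℝ)..y, ph v = 1 / 2 - ∫ v in Ioi y, ph v := by
  rw [← integral_Ioi_ph, intervalIntegral.integral_of_le hy]
  have h := setIntegral_union (f := ph) (μ := volume) (s := Ioc 0 y) (t := Ioi y) (by
    rw [Set.disjoint_left]
    intro a ha hb
    exact absurd ha.2 (not_le.2 hb)) measurableSet_Ioi int_ph.integrableOn int_ph.integrableOn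
  rw [Ioc_union_Ioi_eq_Ioi hy] at h
  linarith

private theorem tail_pos (y : ℝ) : 0 < ∫ v in Ioi y, ph v := by
  rw [setIntegral_pos_iff_support_of_nonneg_ae (Eventually.of_forall ph_nonneg)
    int_ph.integrableOn]
  obtain ⟨N, hN⟩ := exists_int_gt (max y 1)
  have hsub : Ioo (N : ℝ) (N + 1) ⊆ Function.support ph ∩ Ioi y := by
    intro v hv
    have hN1 : (1 : ℝ) < N := lt_of_le_of_lt (le_max_right _ _) hN
    refine ⟨?_, lt_of_le_of_lt (le_of_lt (lt_of_le_of_lt (le_max_left _ _) hN)) hv.1⟩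
    rw [Function.mem_support, ph]
    apply pow_ne_zero
    have hv0 : Real.pi * v ≠ 0 := mul_ne_zero Real.pi_ne_zero (by linarith [hv.1])
    rw [Real.sinc_of_ne_zero hv0]
    apply div_ne_zero _ hv0
    intro h0
    rw [Real.sin_eq_zero_iff] at h0
    obtain ⟨m, hm⟩ := h0
    have hm' : (m : ℝ) = v := by
      have : Real.pi * (m : ℝ) = Real.pi * v := by linarith
      exact mul_left_cancel₀ Real.pi_ne_zero this
    rw [← hm'] at hv
    have h1 : N < m := by exact_mod_cast hv.1
    have h2 : m < N + 1 := by exact_mod_cast hv.2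
    omega
  refine lt_of_lt_of_le ?_ (measure_mono hsub)
  rw [Real.volume_Ioo]
  simp

private theorem tail_le (y : ℝ) (hy : 0 < y) :
    ∫ v in Ioi y, ph v ≤ 1 / (Real.pi ^ 2 * y) := by
  have h1 : ∫ v in Ioi y, (v : ℝ) ^ (-2 : ℝ) = 1 / y := by
    rw [integral_Ioi_rpow_of_lt (by norm_num) hy]
    norm_num
    rw [Real.rpow_neg_one]
  have h2 : IntegrableOn (fun v : ℝ => (v : ℝ) ^ (-2 : ℝ)) (Ioi y) :=
    integrableOn_Ioi_rpow_of_lt (by norm_num) hy
  have h3 : ∫ v in Ioi y, ph v ≤ ∫ v in Ioi y, 1 / Real.pi ^ 2 * (v : ℝ) ^ (-2 : ℝ) := by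
    apply setIntegral_mono_on int_ph.integrableOn (h2.const_mul _) measurableSet_Ioi
    intro v hv
    have hv0 : 0 < v := lt_trans hy hv
    have hv1 : Real.pi * v ≠ 0 := by positivity
    rw [ph, Real.sinc_of_ne_zero hv1, Real.rpow_neg hv0.le, div_pow]
    have : v ^ (2 : ℝ) = v ^ 2 := by norm_cast
    rw [this, mul_pow, div_mul_eq_mul_div, one_mul, inv_eq_one_div, div_div, mul_comm (v ^ 2)]
    apply div_le_div_of_nonneg_right _ (by positivity)
    have := Real.sin_sq_le_one (Real.pi * v)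
    linarith
  refine h3.trans (le_of_eq ?_)
  rw [integral_const_mul, h1]
  field_simp

private theorem GI_eq (c z : ℝ) (_hc : 0 < c) : GI c z = c * ∫ v in (0 : ℝ)..(c * z), ph v := by
  have h := intervalIntegral.mul_integral_comp_mul_left (f := ph) (a := 0) (b := z) (c := c)
  rw [mul_zero] at h
  rw [← h, GI, ← intervalIntegral.integral_const_mul, ← intervalIntegral.integral_const_mul]
  congr 1
  ext x
  rw [GG, ph, mul_pow, ← mul_assoc Real.pi c x]
  ring

/-- `∫_0^∞ (sin(π c x)/(π x))^2 dx = c/2` in quantitative form -/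
theorem GI_lt (c z : ℝ) (hc : 0 < c) (hz : 0 ≤ z) : GI c z < c / 2 := by
  rw [GI_eq c z hc, J_eq _ (by positivity)]
  have := tail_pos (c * z)
  nlinarith

theorem GI_ge (c z : ℝ) (hc : 0 < c) (hz : 0 < z) : c / 2 - 1 / (Real.pi ^ 2 * z) ≤ GI c z := by
  rw [GI_eq c z hc, J_eq _ (by positivity)]
  have h := tail_le (c * z) (by positivity)
  have h2 : c * (1 / (Real.pi ^ 2 * (c * z))) = 1 / (Real.pi ^ 2 * z) := by
    field_simp
  have h3 := mul_le_mul_of_nonneg_left h hc.le
  rw [h2] at h3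
  linarith

end Pool.Agent.Work.MP_7b186b_nt.MO
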