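import Mathlib
import Pool.Agent.Work.MP_7b186b_nt.MO.CorrC
import Pool.Agent.Work.MP_7b186b_nt.MO.SincI

set_option autoImplicit false

namespace Pool.Agent.Work.MP_7b186b_nt.MO

open Finset ArithmeticFunction

/-
PROOF. kappa = sqrt(c/2) in corr_const with G = GG c: kappa + (GI c 1)/kappa < 2 sqrt(c/2) = sqrt(2c) by GI_lt, so for T large
|corr|/norm2 < sqrt(2c). Part 1: c >= r+1+sqrt(2r+1) implies sqrt c >= sqrt(r+1/2) + 1/sqrt 2 (square it), so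
c - sqrt(2c) = (sqrt c - 1/sqrt 2)^2 - 1/2 >= r. Part 2: 0 < c <= r+1-sqrt(2r+1) = (sqrt(r+1/2) - 1/sqrt 2)^2 implies
c + sqrt(2c) = (sqrt c + 1/sqrt 2)^2 - 1/2 <= r.
-/

private theorem main2_bound (c : ℝ) (hc : 0 < c) : ∃ T₀ : ℝ, ∀ T : ℝ, T₀ ≤ T →
    ∀ X : ℕ, (X : ℝ) ≤ T → ∀ a : ℕ → ℂ, norm2 X a ≠ 0 →
      |corr X a (fun n => (gMO c T n : ℂ)) / norm2 X a| < Real.sqrt (2 * c) := by
  set κ : ℝ := Real.sqrt (c / 2) with hκ
  have hκ0 : 0 < κ := Real.sqrt_pos.2 (by positivity)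
  have hκ2 : κ ^ 2 = c / 2 := Real.sq_sqrt (by positivity)
  have h2κ : Real.sqrt (2 * c) = 2 * κ := by
    rw [Real.sqrt_eq_iff_mul_self_eq (by positivity) (by positivity)]
    linear_combination (-4 : ℝ) * hκ2
  have hGI := GI_lt c 1 hc zero_le_one
  set η : ℝ := 2 * κ - (κ + GI c 1 / κ) with hη
  have hη0 : 0 < η := by
    have h1 : GI c 1 / κ < κ := by
      rw [div_lt_iff₀ hκ0]
      nlinarith
    linarith
  obtain ⟨C, hC, hcorr⟩ := corr_const (GG c) (c ^ 2) (2 * Real.pi * c ^ 3) κ hκ0 (GG_nonneg c)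
    (fun x _ => by rw [abs_of_nonneg (GG_nonneg c x)]; exact GG_le c x)
    (fun x _ y _ => GG_lip c hc.le x y)
  refine ⟨max 2 (Real.exp (C / η + 1)), fun T hT X hX a ha => ?_⟩
  have hT2 : 2 ≤ T := (le_max_left _ _).trans hT
  have hT1 : 1 < T := by linarith
  have hlog : C / η + 1 ≤ Real.log T := by
    rw [Real.le_log_iff_exp_le (by linarith)]
    exact (le_max_right _ _).trans hT
  have hlog0 : 0 < Real.log T := Real.log_pos hT1
  have hCη : C / Real.log T < η := by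
    rw [div_lt_iff₀ hlog0]
    have h1 : C / η < Real.log T := by linarith
    rw [div_lt_iff₀ hη0] at h1
    linarith
  have hn : 0 < norm2 X a := lt_of_le_of_ne (Finset.sum_nonneg fun k _ => by positivity) ha.symm
  have h1 := hcorr T hT2 X hX a (fun n => (gMO c T n : ℂ)) (fun n hn => by
    rw [Complex.norm_real, Real.norm_eq_abs, gMO_abs c T n hT1 (Finset.mem_Icc.1 hn).1])
  have h2 : (∫ x in (0 : ℝ)..1, GG c x) = GI c 1 := rfl
  rw [h2] at h1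
  rw [abs_div, abs_of_pos hn, div_lt_iff₀ hn, h2κ]
  refine lt_of_le_of_lt h1 (mul_lt_mul_of_pos_right ?_ hn)
  linarith

/-- `r`-gaps: closed form limits -/
theorem main2 (r : ℕ) (hr : 1 ≤ r) :
    (∀ c : ℝ, (r : ℝ) + 1 + Real.sqrt (2 * r + 1) ≤ c → ∃ T₀ : ℝ, ∀ T : ℝ, T₀ ≤ T →
      ∀ X : ℕ, (X : ℝ) ≤ T → ∀ a : ℕ → ℂ, norm2 X a ≠ 0 → (r : ℝ) < hMO c T X a) ∧
    (∀ c : ℝ, 0 < c → c ≤ (r : ℝ) + 1 - Real.sqrt (2 * r + 1) → ∃ T₀ : ℝ, ∀ T : ℝ, T₀ ≤ T →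
      ∀ X : ℕ, (X : ℝ) ≤ T → ∀ a : ℕ → ℂ, norm2 X a ≠ 0 → hMO c T X a < r) := by
  set t : ℝ := Real.sqrt (2 * r + 1) with ht
  have ht2 : t ^ 2 = 2 * r + 1 := Real.sq_sqrt (by positivity)
  have hr' : (1 : ℝ) ≤ r := by exact_mod_cast hr
  have ht0 : 0 ≤ t := Real.sqrt_nonneg _
  have ht1 : 1 ≤ t := by nlinarith
  constructor
  · intro c hc
    have hc0 : 0 < c := by linarith
    obtain ⟨T₀, hT₀⟩ := main2_bound c hc0
    refine ⟨T₀, fun T hT X hX a ha => ?_⟩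
    have h1 := (abs_lt.1 (hT₀ T hT X hX a ha)).2
    unfold hMO
    have hs2 : Real.sqrt (2 * c) ^ 2 = 2 * c := Real.sq_sqrt (by positivity)
    have hs : 1 + t ≤ Real.sqrt (2 * c) := by
      refine Real.le_sqrt_of_sq_le ?_
      nlinarith
    nlinarith
  · intro c hc0 hc
    obtain ⟨T₀, hT₀⟩ := main2_bound c hc0
    refine ⟨T₀, fun T hT X hX a ha => ?_⟩
    have h1 := (abs_lt.1 (hT₀ T hT X hX a ha)).1
    unfold hMO
    have hs2 : Real.sqrt (2 * c) ^ 2 = 2 * c := Real.sq_sqrt (by positivity)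
    have hs0 : 0 ≤ Real.sqrt (2 * c) := Real.sqrt_nonneg _
    have hs : Real.sqrt (2 * c) ≤ t - 1 := by
      refine Real.sqrt_le_iff.2 ⟨by linarith, ?_⟩
      nlinarith
    nlinarith

end Pool.Agent.Work.MP_7b186b_nt.MO
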