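import Mathlib
import Pool.Agent.Work.MP_7b186b_nt.MO.Defs

set_option autoImplicit false

/-! Coefficients showing that the limits for `r`-gaps are of the right order. -/

namespace Pool.Agent.Work.MP_7b186b_nt.MO

open Finset ArithmeticFunction

/-- the primes `T^d < p ≤ T` -/
noncomputable def PP (T d : ℝ) : Finset ℕ :=
  (Icc 1 ⌊T⌋₊).filter (fun p : ℕ => p.Prime ∧ T ^ d < (p : ℝ))

/-- `σ θ sin(π c x_p) / (π x_p √p)`, `x_p = log p / log T` -/
noncomputable def eta (σ θ c T : ℝ) (p : ℕ) : ℝ :=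
  σ * θ * (c * Real.sinc (Real.pi * c * (Real.log p / Real.log T))) / Real.sqrt p

/-- `∏_{p | k} η_p` for squarefree `k` composed of primes `> T^d`, otherwise `0` -/
noncomputable def aL (σ θ c T d : ℝ) (k : ℕ) : ℝ :=
  if Squarefree k ∧ ∀ p ∈ k.primeFactors, T ^ d < (p : ℝ) then
    ∏ p ∈ k.primeFactors, eta σ θ c T p else 0

/-- the coefficients as complex numbers -/
noncomputable def aC (σ θ c T d : ℝ) (k : ℕ) : ℂ := (aL σ θ c T d k : ℂ)

end Pool.Agent.Work.MP_7b186b_nt.MO
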