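import Mathlib
import Pool.Agent.Work.MP_7b186b_nt.MO.LDefs
import Pool.Agent.Work.MP_7b186b_nt.MO.GF

set_option autoImplicit false

namespace Pool.Agent.Work.MP_7b186b_nt.MO

open Finset ArithmeticFunction

/-
PROOF. corr_aC: all numbers are real. The term (k,n) is aL k * aL (k n) * gMO n * Lambda(n)/sqrt n. If it is not zero then kn is
squarefree with all prime factors > T^d and n is a prime power dividing a squarefree number, so n = p is a prime, p does not
divide k, p > T^d, p <= X/k <= T, and aL(kp) = aL k * eta p. Then eta p * gMO p * log p/sqrt p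
= sigma theta (c sinc(pi c x)) (2 sin(pi c x)/pi)/p = sigma (2 theta/log T) (log p/p) GG c x, because
sin(pi c x)/pi = x (c sinc(pi c x)), x = log p/log T. Conversely each p of PP with p <= X/k, p not dividing k occurs (if aL k = 0
both sides vanish). inner_div: GG <= c^2, 1/p <= T^(-d), sum_{p | k} log p <= log k <= log T.
-/

/-- `c sinc(π c x)` -/
private theorem g_eq (c T : ℝ) (hT : 1 < T) (p : ℕ) (hp : 2 ≤ p) :
    gMO c T p = 2 / Real.log T * (c * Real.sinc (Real.pi * c * (Real.log p / Real.log T))) := by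
  have hL : 0 < Real.log T := Real.log_pos hT
  have hlp : 0 < Real.log p := Real.log_pos (by exact_mod_cast (by omega : 1 < p))
  unfold gMO
  by_cases hc : c = 0
  · subst hc
    simp
  · have hx : Real.pi * c * (Real.log p / Real.log T) ≠ 0 := by
      have := Real.pi_pos
      positivity
    rw [Real.sinc_of_ne_zero hx]
    have := Real.pi_pos
    field_simp

private theorem aL_mul (σ θ c T d : ℝ) (k p : ℕ) (hk : k ≠ 0) (hp : p.Prime)
    (hpT : T ^ d < (p : ℝ)) (hpk : ¬ p ∣ k) :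
    aL σ θ c T d (k * p) = aL σ θ c T d k * eta σ θ c T p := by
  have hcop : Nat.Coprime k p := ((Nat.Prime.coprime_iff_not_dvd hp).2 hpk).symm
  have hpf : (k * p).primeFactors = insert p k.primeFactors := by
    rw [Nat.primeFactors_mul hk hp.ne_zero, hp.primeFactors, Finset.union_comm]
    rfl
  have hnot : p ∉ k.primeFactors := fun h => hpk (Nat.dvd_of_mem_primeFactors h)
  have hiff : (Squarefree (k * p) ∧ ∀ q ∈ (k * p).primeFactors, T ^ d < (q : ℝ)) ↔
      (Squarefree k ∧ ∀ q ∈ k.primeFactors, T ^ d < (q : ℝ)) := by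
    rw [Nat.squarefree_mul hcop, hpf]
    constructor
    · rintro ⟨⟨h1, -⟩, h2⟩
      exact ⟨h1, fun q hq => h2 q (Finset.mem_insert_of_mem hq)⟩
    · rintro ⟨h1, h2⟩
      refine ⟨⟨h1, hp.prime.squarefree⟩, fun q hq => ?_⟩
      rcases Finset.mem_insert.1 hq with h3 | h3
      · rw [h3]
        exact hpT
      · exact h2 q h3
  unfold aL
  by_cases h : Squarefree k ∧ ∀ q ∈ k.primeFactors, T ^ d < (q : ℝ)
  · rw [if_pos (hiff.2 h), if_pos h, hpf, Finset.prod_insert hnot, mul_comm]
  · rw [if_neg (fun h' => h (hiff.1 h')), if_neg h, zero_mul]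

private theorem term_eq (σ θ c T d : ℝ) (hT : 1 < T) (k p : ℕ) (hk : k ≠ 0) (hp : p.Prime)
    (hpT : T ^ d < (p : ℝ)) (hpk : ¬ p ∣ k) :
    aL σ θ c T d k * aL σ θ c T d (k * p) * gMO c T p * vonMangoldt p / Real.sqrt p =
      σ * (2 * θ / Real.log T) * (aL σ θ c T d k ^ 2 *
        (Real.log p / p * GG c (Real.log p / Real.log T))) := by
  have hp0 : (0 : ℝ) < p := by exact_mod_cast hp.pos
  have hs : Real.sqrt p * Real.sqrt p = p := Real.mul_self_sqrt hp0.le
  have hs0 : Real.sqrt p ≠ 0 := (Real.sqrt_pos.2 hp0).ne'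
  rw [aL_mul σ θ c T d k p hk hp hpT hpk, g_eq c T hT p hp.two_le,
    ArithmeticFunction.vonMangoldt_apply_prime hp]
  unfold eta GG
  have hL : Real.log T ≠ 0 := (Real.log_pos hT).ne'
  have e1 : Real.log p / (p : ℝ) = Real.log p / Real.sqrt p / Real.sqrt p := by
    rw [div_div, hs]
  rw [e1]
  field_simp

/-- exact value of the correlation sum for the coefficients `aC` -/
theorem corr_aC (σ θ c T d : ℝ) (hT : 1 < T) (hd : 0 < d) (X : ℕ) (hX : (X : ℝ) ≤ T)
    (hσ : σ ^ 2 = 1) :
    corr X (aC σ θ c T d) (fun n => (gMO c T n : ℂ)) =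
      σ * (2 * θ / Real.log T) * ∑ k ∈ Icc 1 X, aL σ θ c T d k ^ 2 *
        ∑ p ∈ (PP T d).filter (fun p => p ≤ X / k ∧ ¬ p ∣ k),
          Real.log p / p * GG c (Real.log p / Real.log T) := by
  have hre : ∀ k n : ℕ, (aC σ θ c T d k * (starRingEnd ℂ) (aC σ θ c T d (k * n)) *
      (gMO c T n : ℂ)).re = aL σ θ c T d k * aL σ θ c T d (k * n) * gMO c T n := by
    intro k n
    unfold aC
    rw [Complex.conj_ofReal, ← Complex.ofReal_mul, ← Complex.ofReal_mul, Complex.ofReal_re]
  unfold corr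
  rw [Finset.mul_sum]
  refine Finset.sum_congr rfl fun k hk => ?_
  rw [Finset.mem_Icc] at hk
  have hk0 : k ≠ 0 := by omega
  rw [Finset.mul_sum, Finset.mul_sum]
  symm
  have hsub : (PP T d).filter (fun p => p ≤ X / k ∧ ¬ p ∣ k) ⊆ Icc 2 (X / k) := by
    intro p hp
    simp only [PP, Finset.mem_filter, Finset.mem_Icc] at hp
    rw [Finset.mem_Icc]
    exact ⟨hp.1.2.1.two_le, hp.2.1⟩
  rw [← Finset.sum_subset hsub]
  · refine Finset.sum_congr rfl fun p hp => ?_
    simp only [PP, Finset.mem_filter, Finset.mem_Icc] at hp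
    rw [hre, term_eq σ θ c T d hT k p hk0 hp.1.2.1 hp.1.2.2 hp.2.2]
  · intro n hn hnS
    rw [hre]
    rw [Finset.mem_Icc] at hn
    by_contra hne
    apply hnS
    have h1 : aL σ θ c T d (k * n) ≠ 0 := by
      intro h0
      apply hne
      rw [h0]
      ring
    have h2 : vonMangoldt n ≠ 0 := by
      intro h0
      apply hne
      rw [h0]
      ring
    have h3 : Squarefree (k * n) ∧ ∀ q ∈ (k * n).primeFactors, T ^ d < (q : ℝ) := by
      by_contra h
      apply h1
      unfold aL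
      rw [if_neg h]
    have h4 : n.Prime := Nat.squarefree_and_prime_pow_iff_prime.1
      ⟨h3.1.of_mul_right, ArithmeticFunction.vonMangoldt_ne_zero_iff.1 h2⟩
    have h5 : ¬ n ∣ k := by
      rintro ⟨m, rfl⟩
      have h6 : n * n ∣ n * m * n := ⟨m, by ring⟩
      exact h4.one_lt.ne' (Nat.isUnit_iff.1 (h3.1 n h6))
    have h6 : T ^ d < (n : ℝ) := h3.2 n (by
      rw [Nat.mem_primeFactors]
      exact ⟨h4, dvd_mul_left n k, mul_ne_zero hk0 h4.ne_zero⟩)
    have h7 : n ≤ ⌊T⌋₊ := by
      rw [Nat.le_floor_iff (by linarith)]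
      have h8 : n ≤ X := hn.2.trans (Nat.div_le_self X k)
      have h9 : (n : ℝ) ≤ X := by exact_mod_cast h8
      linarith
    simp only [PP, Finset.mem_filter, Finset.mem_Icc]
    exact ⟨⟨⟨h4.one_lt.le, h7⟩, h4, h6⟩, hn.2, h5⟩

/-- the primes dividing `k` contribute little -/
theorem inner_div (c T d : ℝ) (hT : 1 < T) (hd : 0 < d) (k : ℕ) (hk : 1 ≤ k) (hkT : (k : ℝ) ≤ T) :
    (∑ p ∈ (PP T d).filter (fun p => p ∣ k),
      Real.log p / p * GG c (Real.log p / Real.log T)) / Real.log T ≤ c ^ 2 / T ^ d := by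
  have hL : 0 < Real.log T := Real.log_pos hT
  have hTd : 0 < T ^ d := Real.rpow_pos_of_pos (by linarith) _
  have hk0 : k ≠ 0 := by omega
  have h1 : ∀ p ∈ (PP T d).filter (fun p => p ∣ k),
      Real.log p / p * GG c (Real.log p / Real.log T) ≤ Real.log p * (c ^ 2 / T ^ d) := by
    intro p hp
    simp only [PP, Finset.mem_filter, Finset.mem_Icc] at hp
    have hp0 : (0 : ℝ) < p := by exact_mod_cast hp.1.2.1.pos
    have hlp : 0 ≤ Real.log p := Real.log_natCast_nonneg p
    have e1 : Real.log p * (c ^ 2 / T ^ d) = Real.log p / T ^ d * c ^ 2 := by ring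
    rw [e1]
    refine mul_le_mul ?_ (GG_le c _) (GG_nonneg _ _) (div_nonneg hlp hTd.le)
    exact div_le_div_of_nonneg_left hlp hTd hp.1.2.2.le
  have h2 : ∑ p ∈ (PP T d).filter (fun p => p ∣ k), Real.log p ≤ Real.log T := by
    have h3 : ∑ p ∈ (PP T d).filter (fun p => p ∣ k), Real.log p ≤
        ∑ p ∈ k.primeFactors, Real.log p := by
      refine Finset.sum_le_sum_of_subset_of_nonneg ?_ fun p _ _ => Real.log_natCast_nonneg p
      intro p hp
      simp only [PP, Finset.mem_filter, Finset.mem_Icc] at hp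
      rw [Nat.mem_primeFactors]
      exact ⟨hp.1.2.1, hp.2, hk0⟩
    have h4 : ∑ p ∈ k.primeFactors, Real.log p = Real.log ((∏ p ∈ k.primeFactors, p : ℕ) : ℝ) := by
      rw [Nat.cast_prod, Real.log_prod]
      intro p hp
      exact_mod_cast (Nat.prime_of_mem_primeFactors hp).ne_zero
    have h5 : (∏ p ∈ k.primeFactors, p) ≤ k := Nat.le_of_dvd hk (Nat.prod_primeFactors_dvd k)
    have h6 : 0 < ∏ p ∈ k.primeFactors, p :=
      Finset.prod_pos fun p hp => (Nat.prime_of_mem_primeFactors hp).pos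
    rw [h4] at h3
    refine h3.trans (Real.log_le_log (by exact_mod_cast h6) (le_trans ?_ hkT))
    exact_mod_cast h5
  rw [div_le_iff₀ hL]
  refine (Finset.sum_le_sum h1).trans ?_
  rw [← Finset.sum_mul, mul_comm]
  exact mul_le_mul_of_nonneg_left h2 (by positivity)

end Pool.Agent.Work.MP_7b186b_nt.MO
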