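import Mathlib

set_option autoImplicit false

namespace Pool.Agent.Work.MP_7b186b_nt.MO

open Finset

private theorem lp_moment (P : Finset ℕ) (y x : ℕ → ℝ) (hy : ∀ p ∈ P, 0 ≤ y p) (t : ℝ) :
    ∑ A ∈ P.powerset, (∏ p ∈ A, y p) * ((∑ p ∈ A, x p) - t) ^ 2 =
      (∏ p ∈ P, (1 + y p)) * (((∑ p ∈ P, y p / (1 + y p) * x p) - t) ^ 2 +
        ∑ p ∈ P, y p / (1 + y p) ^ 2 * x p ^ 2) := by
  induction P using Finset.induction_on generalizing t with
  | empty => simp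
  | insert a s ha ih =>
    have hs : ∀ p ∈ s, 0 ≤ y p := fun p hp => hy p (Finset.mem_insert_of_mem hp)
    have hya : 0 ≤ y a := hy a (Finset.mem_insert_self a s)
    have h1 : ∑ A ∈ s.powerset, (∏ p ∈ insert a A, y p) * ((∑ p ∈ insert a A, x p) - t) ^ 2 =
        y a * ∑ A ∈ s.powerset, (∏ p ∈ A, y p) * ((∑ p ∈ A, x p) - (t - x a)) ^ 2 := by
      rw [Finset.mul_sum]
      refine Finset.sum_congr rfl fun A hA => ?_
      have hnot : a ∉ A := fun h => ha (Finset.mem_powerset.1 hA h)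
      rw [Finset.prod_insert hnot, Finset.sum_insert hnot]
      ring
    rw [Finset.sum_powerset_insert ha, h1, ih hs t, ih hs (t - x a), Finset.prod_insert ha,
      Finset.sum_insert ha, Finset.sum_insert ha]
    have h2 : 1 + y a ≠ 0 := by positivity
    field_simp
    ring

/-- Chebyshev's inequality for a random subset -/
theorem prob_tail (P : Finset ℕ) (y x : ℕ → ℝ) (hy : ∀ p ∈ P, 0 ≤ y p) (hx : ∀ p ∈ P, 0 ≤ x p)
    (μ ε : ℝ) (hε : 0 < ε) (hμ : ∑ p ∈ P, y p * x p ≤ μ) :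
    ∑ A ∈ P.powerset.filter (fun A => μ + ε < ∑ p ∈ A, x p), ∏ p ∈ A, y p ≤
      (∏ p ∈ P, (1 + y p)) * ((∑ p ∈ P, y p * x p ^ 2) / ε ^ 2) := by
  set m : ℝ := ∑ p ∈ P, y p / (1 + y p) * x p with hm
  have hmμ : m ≤ μ := by
    refine le_trans (Finset.sum_le_sum fun p hp => ?_) hμ
    refine mul_le_mul_of_nonneg_right ?_ (hx p hp)
    exact div_le_self (hy p hp) (by linarith [hy p hp])
  have hpos : ∀ A ∈ P.powerset, 0 ≤ ∏ p ∈ A, y p := fun A hA =>
    Finset.prod_nonneg fun p hp => hy p (Finset.mem_powerset.1 hA hp)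
  have h1 : ∑ A ∈ P.powerset.filter (fun A => μ + ε < ∑ p ∈ A, x p), ∏ p ∈ A, y p ≤
      ∑ A ∈ P.powerset, (∏ p ∈ A, y p) * ((∑ p ∈ A, x p) - m) ^ 2 / ε ^ 2 := by
    have h3 : ∑ A ∈ P.powerset.filter (fun A => μ + ε < ∑ p ∈ A, x p),
        (∏ p ∈ A, y p) * ((∑ p ∈ A, x p) - m) ^ 2 / ε ^ 2 ≤
        ∑ A ∈ P.powerset, (∏ p ∈ A, y p) * ((∑ p ∈ A, x p) - m) ^ 2 / ε ^ 2 := by
      refine Finset.sum_le_sum_of_subset_of_nonneg (Finset.filter_subset _ _) fun A hA _ => ?_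
      exact div_nonneg (mul_nonneg (hpos A hA) (sq_nonneg _)) (sq_nonneg _)
    refine le_trans ?_ h3
    refine Finset.sum_le_sum fun A hA => ?_
    rw [Finset.mem_filter] at hA
    have h2 : ε ^ 2 ≤ ((∑ p ∈ A, x p) - m) ^ 2 :=
      pow_le_pow_left₀ hε.le (by linarith [hA.2]) 2
    rw [le_div_iff₀ (by positivity)]
    exact mul_le_mul_of_nonneg_left h2 (hpos A hA.1)
  refine h1.trans ?_
  rw [← Finset.sum_div, lp_moment P y x hy m, ← hm, sub_self, mul_div_assoc]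
  have hZ : 0 ≤ ∏ p ∈ P, (1 + y p) := Finset.prod_nonneg fun p hp => by linarith [hy p hp]
  refine mul_le_mul_of_nonneg_left ?_ hZ
  refine div_le_div_of_nonneg_right ?_ (sq_nonneg _)
  rw [zero_pow two_ne_zero, zero_add]
  refine Finset.sum_le_sum fun p hp => ?_
  refine mul_le_mul_of_nonneg_right ?_ (sq_nonneg _)
  have h3 : (1 : ℝ) ≤ (1 + y p) ^ 2 := one_le_pow₀ (by linarith [hy p hp])
  exact div_le_self (hy p hp) h3

end Pool.Agent.Work.MP_7b186b_nt.MO
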