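import Mathlib
import Pool.Agent.Work.MP_7b186b_nt.MO.LDefs
import Pool.Agent.Work.MP_7b186b_nt.MO.LProb

set_option autoImplicit false

namespace Pool.Agent.Work.MP_7b186b_nt.MO

open Finset ArithmeticFunction

/-
PROOF. Subsets A of PP T d correspond to the squarefree numbers k = prod A with all prime factors in PP (primeFactors k = A),
aL k = prod_{p in A} eta p, log k/log T = sum_{p in A} log p/log T, and WW = sum_A prod_{p in A} eta^2 (Finset.prod_one_add or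
prod_add). norm2_aC_le: each k <= X <= T with aL k <> 0 has primeFactors k in PP, injective. mass_ge: prob_tail (y = eta^2,
x = log p/log T): the A with sum x <= mu + eps have mass >= WW - WW V/eps^2, and they give k <= T^(mu+eps) <= T.
-/

/-- total mass -/
noncomputable def WW (σ θ c T d : ℝ) : ℝ := ∏ p ∈ PP T d, (1 + eta σ θ c T p ^ 2)

private theorem lm_WW (σ θ c T d : ℝ) :
    WW σ θ c T d = ∑ A ∈ (PP T d).powerset, ∏ p ∈ A, eta σ θ c T p ^ 2 := by
  unfold WW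
  exact Finset.prod_one_add _

private theorem lm_PP {T d : ℝ} {p : ℕ} (hp : p ∈ PP T d) :
    p.Prime ∧ T ^ d < (p : ℝ) := by
  unfold PP at hp
  exact (Finset.mem_filter.1 hp).2

private theorem lm_nonneg (σ θ c T : ℝ) (A : Finset ℕ) : 0 ≤ ∏ p ∈ A, eta σ θ c T p ^ 2 :=
  Finset.prod_nonneg (fun _ _ => sq_nonneg _)

private theorem lm_sqf {A : Finset ℕ} (hA : ∀ p ∈ A, p.Prime) : Squarefree (∏ p ∈ A, p) := by
  refine Finset.squarefree_prod_of_pairwise_isCoprime (fun p hp q hq hpq => ?_)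
    (fun p hp => (hA p hp).squarefree)
  exact Nat.coprime_iff_isRelPrime.1 ((Nat.coprime_primes (hA p hp) (hA q hq)).2 hpq)

theorem norm2_aC_le (σ θ c T d : ℝ) (hT : 1 < T) (X : ℕ) (hX : (X : ℝ) ≤ T) :
    norm2 X (aC σ θ c T d) ≤ WW σ θ c T d := by
  have hT0 : 0 ≤ T := by linarith
  rw [lm_WW]
  unfold norm2
  have e1 : ∑ k ∈ Icc 1 X, ‖aC σ θ c T d k‖ ^ 2 =
      ∑ k ∈ (Icc 1 X).filter (fun k : ℕ => Squarefree k ∧ ∀ p ∈ k.primeFactors, T ^ d < (p : ℝ)),
        ∏ p ∈ k.primeFactors, eta σ θ c T p ^ 2 := by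
    rw [Finset.sum_filter]
    refine Finset.sum_congr rfl (fun k _ => ?_)
    unfold aC aL
    rw [Complex.norm_real, Real.norm_eq_abs, sq_abs]
    split_ifs
    · rw [Finset.prod_pow]
    · norm_num
  rw [e1]
  have hinj : Set.InjOn (fun k : ℕ => k.primeFactors)
      (((Icc 1 X).filter (fun k : ℕ => Squarefree k ∧ ∀ p ∈ k.primeFactors, T ^ d < (p : ℝ)) :
        Finset ℕ) : Set ℕ) := by
    intro k hk l hl hkl
    have h1 := (Finset.mem_filter.1 (Finset.mem_coe.1 hk)).2.1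
    have h2 := (Finset.mem_filter.1 (Finset.mem_coe.1 hl)).2.1
    rw [← Nat.prod_primeFactors_of_squarefree h1, ← Nat.prod_primeFactors_of_squarefree h2]
    have h3 : k.primeFactors = l.primeFactors := hkl
    rw [h3]
  rw [← Finset.sum_image (f := fun A : Finset ℕ => ∏ p ∈ A, eta σ θ c T p ^ 2) hinj]
  refine Finset.sum_le_sum_of_subset_of_nonneg ?_ (fun A _ _ => lm_nonneg σ θ c T A)
  intro A hA
  obtain ⟨k, hk, rfl⟩ := Finset.mem_image.1 hA
  rw [Finset.mem_filter, Finset.mem_Icc] at hk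
  rw [Finset.mem_powerset]
  intro p hp
  have hpp := Nat.prime_of_mem_primeFactors hp
  have hpk : p ≤ k := Nat.le_of_dvd (by omega) (Nat.dvd_of_mem_primeFactors hp)
  unfold PP
  rw [Finset.mem_filter, Finset.mem_Icc]
  refine ⟨⟨hpp.one_lt.le, Nat.le_floor ?_⟩, hpp, hk.2.2 p hp⟩
  have h1 : (p : ℝ) ≤ X := by
    have : p ≤ X := hpk.trans hk.1.2
    exact_mod_cast this
  exact h1.trans hX

/-- the mass of the `k ≤ T^(μ + ε)` -/
theorem mass_ge (σ θ c T d μ ε : ℝ) (hT : 1 < T) (hd : 0 < d) (hε : 0 < ε)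
    (hμ : ∑ p ∈ PP T d, eta σ θ c T p ^ 2 * (Real.log p / Real.log T) ≤ μ) (hμ1 : μ + ε ≤ 1) :
    WW σ θ c T d * (1 - (∑ p ∈ PP T d, eta σ θ c T p ^ 2 * (Real.log p / Real.log T) ^ 2) / ε ^ 2) ≤
      ∑ k ∈ (Icc 1 ⌊T⌋₊).filter (fun k : ℕ => Real.log k / Real.log T ≤ μ + ε),
        aL σ θ c T d k ^ 2 := by
  have hT0 : 0 < T := by linarith
  have hlog : 0 < Real.log T := Real.log_pos hT
  have tail := prob_tail (PP T d) (fun p => eta σ θ c T p ^ 2)
    (fun p => Real.log p / Real.log T) (fun _ _ => sq_nonneg _)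
    (fun p hp => div_nonneg (Real.log_nonneg (by
      have := (lm_PP hp).1.one_lt.le
      exact_mod_cast this)) hlog.le) μ ε hε hμ
  have hWW : (∏ p ∈ PP T d, (1 + eta σ θ c T p ^ 2)) = WW σ θ c T d := rfl
  rw [hWW] at tail
  have hsplit := Finset.sum_filter_add_sum_filter_not (PP T d).powerset
    (fun A : Finset ℕ => μ + ε < ∑ p ∈ A, Real.log p / Real.log T) (fun A : Finset ℕ => ∏ p ∈ A, eta σ θ c T p ^ 2)
  rw [← lm_WW] at hsplit
  have h1 : WW σ θ c T d *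
      (1 - (∑ p ∈ PP T d, eta σ θ c T p ^ 2 * (Real.log p / Real.log T) ^ 2) / ε ^ 2) ≤
      ∑ A ∈ (PP T d).powerset.filter (fun A : Finset ℕ => ¬ (μ + ε < ∑ p ∈ A, Real.log p / Real.log T)),
        ∏ p ∈ A, eta σ θ c T p ^ 2 := by
    rw [mul_sub, mul_one]
    linarith
  refine h1.trans ?_
  have hprime : ∀ A ∈ (PP T d).powerset.filter
      (fun A : Finset ℕ => ¬ (μ + ε < ∑ p ∈ A, Real.log p / Real.log T)), ∀ p ∈ A, p.Prime := by
    intro A hA p hp
    exact (lm_PP (Finset.mem_powerset.1 (Finset.mem_filter.1 hA).1 hp)).1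
  have hinj : Set.InjOn (fun A : Finset ℕ => ∏ p ∈ A, p)
      (((PP T d).powerset.filter (fun A : Finset ℕ => ¬ (μ + ε < ∑ p ∈ A, Real.log p / Real.log T)) :
        Finset (Finset ℕ)) : Set (Finset ℕ)) := by
    intro A hA B hB hAB
    rw [← Nat.primeFactors_prod (hprime A (Finset.mem_coe.1 hA)),
      ← Nat.primeFactors_prod (hprime B (Finset.mem_coe.1 hB))]
    have h3 : ∏ p ∈ A, p = ∏ p ∈ B, p := hAB
    rw [h3]
  have h2 : ∑ A ∈ (PP T d).powerset.filter
      (fun A : Finset ℕ => ¬ (μ + ε < ∑ p ∈ A, Real.log p / Real.log T)), ∏ p ∈ A, eta σ θ c T p ^ 2 =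
      ∑ k ∈ ((PP T d).powerset.filter
        (fun A : Finset ℕ => ¬ (μ + ε < ∑ p ∈ A, Real.log p / Real.log T))).image
          (fun A : Finset ℕ => ∏ p ∈ A, p), aL σ θ c T d k ^ 2 := by
    rw [Finset.sum_image hinj]
    refine Finset.sum_congr rfl (fun A hA => ?_)
    have hp := hprime A hA
    unfold aL
    rw [if_pos, Nat.primeFactors_prod hp, Finset.prod_pow]
    refine ⟨lm_sqf hp, fun p hpA => ?_⟩
    rw [Nat.primeFactors_prod hp] at hpA
    exact (lm_PP (Finset.mem_powerset.1 (Finset.mem_filter.1 hA).1 hpA)).2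
  rw [h2]
  refine Finset.sum_le_sum_of_subset_of_nonneg ?_ (fun k _ _ => sq_nonneg _)
  intro k hk
  obtain ⟨A, hA, rfl⟩ := Finset.mem_image.1 hk
  have hp := hprime A hA
  have hpos : 0 < ∏ p ∈ A, p := Finset.prod_pos (fun p hpA => (hp p hpA).pos)
  have hlk : Real.log ((∏ p ∈ A, p : ℕ) : ℝ) / Real.log T =
      ∑ p ∈ A, Real.log p / Real.log T := by
    rw [Nat.cast_prod, Real.log_prod (fun p hpA => by
      have := (hp p hpA).pos
      positivity), Finset.sum_div]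
  have hle : Real.log ((∏ p ∈ A, p : ℕ) : ℝ) / Real.log T ≤ μ + ε := by
    rw [hlk]
    exact not_lt.1 (Finset.mem_filter.1 hA).2
  have hposR : (0 : ℝ) < ((∏ p ∈ A, p : ℕ) : ℝ) := by exact_mod_cast hpos
  rw [Finset.mem_filter, Finset.mem_Icc]
  refine ⟨⟨hpos, Nat.le_floor ?_⟩, hle⟩
  have h5 : Real.log ((∏ p ∈ A, p : ℕ) : ℝ) ≤ Real.log T := by
    have h6 := hle.trans hμ1
    rwa [div_le_one hlog] at h6
  exact (Real.log_le_log_iff hposR hT0).1 h5

end Pool.Agent.Work.MP_7b186b_nt.MO
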