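import Mathlib
import Pool.Agent.Work.MP_7b186b_nt.MO.Lip
import Pool.Agent.Work.MP_2dba45_nt.Mert

set_option autoImplicit false

namespace Pool.Agent.Work.MP_7b186b_nt.MO

open Finset ArithmeticFunction

private theorem lpr_filter (N : ℕ) : (Icc 1 N).filter Nat.Prime = (Icc 2 N).filter Nat.Prime := by
  ext p
  rw [mem_filter, mem_filter, mem_Icc, mem_Icc]
  constructor
  · rintro ⟨⟨_, h2⟩, hp⟩
    exact ⟨⟨hp.two_le, h2⟩, hp⟩
  · rintro ⟨⟨_, h2⟩, hp⟩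
    exact ⟨⟨hp.one_lt.le, h2⟩, hp⟩

private theorem lpr_filter' (N : ℕ) : (Ioc 0 N).filter Nat.Prime = (Icc 2 N).filter Nat.Prime := by
  ext p
  rw [mem_filter, mem_filter, mem_Icc, mem_Ioc]
  constructor
  · rintro ⟨⟨_, h2⟩, hp⟩
    exact ⟨⟨hp.two_le, h2⟩, hp⟩
  · rintro ⟨⟨_, h2⟩, hp⟩
    exact ⟨⟨hp.pos, h2⟩, hp⟩

/-- the Lipschitz sum lemma for primes -/
theorem lip_primes : ∃ C : ℝ, 0 < C ∧ ∀ (f : ℝ → ℝ) (B K : ℝ),
    (∀ x ∈ Set.Icc (0 : ℝ) 1, |f x| ≤ B) →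
    (∀ x ∈ Set.Icc (0 : ℝ) 1, ∀ y ∈ Set.Icc (0 : ℝ) 1, |f x - f y| ≤ K * |x - y|) →
    ∀ T : ℝ, 2 ≤ T → ∀ Y : ℝ, 1 ≤ Y → Y ≤ T →
    |(∑ p ∈ (Icc 1 ⌊Y⌋₊).filter Nat.Prime, Real.log p / p * f (Real.log p / Real.log T)) /
      Real.log T - ∫ x in (0 : ℝ)..(Real.log Y / Real.log T), f x| ≤ C * (B + K) / Real.log T := by
  obtain ⟨C0, hC0⟩ := Pool.Agent.Work.MP_2dba45_nt.Mert.mertens_one
  obtain ⟨C, hC, hmain⟩ := lip_gen C0
  refine ⟨C, hC, fun f B K hB hK T hT Y hY hYT => ?_⟩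
  have h := hmain (fun n => if n.Prime then Real.log n / n else 0) (fun n => by
    show 0 ≤ (if n.Prime then Real.log n / n else 0 : ℝ)
    split_ifs with hn
    · exact div_nonneg (Real.log_natCast_nonneg n) (Nat.cast_nonneg n)
    · exact le_refl _) (fun N hN => by
    have h1 := hC0 N hN
    rw [lpr_filter', sum_filter] at h1
    exact h1) f B K hB hK T hT Y hY hYT
  have e : ∑ n ∈ Icc 2 ⌊Y⌋₊, (if n.Prime then Real.log n / n else 0 : ℝ) *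
      f (Real.log n / Real.log T) =
      ∑ p ∈ (Icc 1 ⌊Y⌋₊).filter Nat.Prime, Real.log p / p * f (Real.log p / Real.log T) := by
    rw [lpr_filter, sum_filter]
    apply sum_congr rfl
    intro n _
    split_ifs with hn
    · rfl
    · rw [zero_mul]
  rw [← e]
  exact h

end Pool.Agent.Work.MP_7b186b_nt.MO
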