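import Mathlib
import Pool.Agent.Work.MP_7b186b_nt.MO.LDefs
import Pool.Agent.Work.MP_7b186b_nt.MO.LPr
import Pool.Agent.Work.MP_7b186b_nt.MO.SincI

set_option autoImplicit false

namespace Pool.Agent.Work.MP_7b186b_nt.MO

open Finset ArithmeticFunction

/-
PROOF. eta^2 = theta^2 GG c x/p (sigma^2 = 1), x = log p/log T. mom1: = theta^2 (1/L) sum (log p/p) GG(x) over PP <= the sum over all
primes <= T <= theta^2 (GI c 1 + C/L), lip_primes with f = GG c (GG_le, GG_lip), GI_lt. mom2: f(x) = x GG c x, and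
int_0^1 x GG c x dx <= int_0^{1/c} c^2 x dx + int_{1/c}^1 dx/(pi^2 x) = 1/2 + log c/pi^2 <= 1 + log c.
inner_ge: all primes <= Y give >= GI c (log Y/L) - C/L; those <= T^d give <= GI c d + C/L <= c^2 d + C/L
(if Y < T^d the left side is <= c^2 log Y/L - ... <= 0 <= right side).
-/

private theorem lm_eta {σ θ c T : ℝ} (hσ : σ ^ 2 = 1) (p : ℕ) :
    eta σ θ c T p ^ 2 = θ ^ 2 * (GG c (Real.log p / Real.log T) / p) := by
  unfold eta GG
  rw [div_pow, mul_pow, mul_pow, hσ, one_mul, Real.sq_sqrt (Nat.cast_nonneg p)]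
  ring

private theorem lm_x {T : ℝ} (hT : 2 ≤ T) {p : ℕ} (hp : p ∈ (Icc 1 ⌊T⌋₊).filter Nat.Prime) :
    Real.log p / Real.log T ∈ Set.Icc (0 : ℝ) 1 := by
  rw [mem_filter, mem_Icc] at hp
  have hlT : 0 < Real.log T := Real.log_pos (by linarith)
  have h1 : (1 : ℝ) ≤ p := by exact_mod_cast hp.1.1
  have h2 : (p : ℝ) ≤ T := (Nat.cast_le.2 hp.1.2).trans (Nat.floor_le (by linarith))
  refine ⟨div_nonneg (Real.log_nonneg h1) hlT.le, ?_⟩
  rw [div_le_one hlT]
  exact Real.log_le_log (by linarith) h2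

private theorem lm_sub (T d : ℝ) : PP T d ⊆ (Icc 1 ⌊T⌋₊).filter Nat.Prime := by
  intro p hp
  unfold PP at hp
  rw [mem_filter] at hp ⊢
  exact ⟨hp.1, hp.2.1⟩

/-- the sum over `PP` of a nonnegative Lipschitz symbol -/
private theorem lm_upper : ∃ C : ℝ, 0 < C ∧ ∀ (f : ℝ → ℝ) (B K : ℝ),
    (∀ x ∈ Set.Icc (0 : ℝ) 1, 0 ≤ f x) → (∀ x ∈ Set.Icc (0 : ℝ) 1, |f x| ≤ B) →
    (∀ x ∈ Set.Icc (0 : ℝ) 1, ∀ y ∈ Set.Icc (0 : ℝ) 1, |f x - f y| ≤ K * |x - y|) →
    ∀ T : ℝ, 2 ≤ T → ∀ d : ℝ,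
    (∑ p ∈ PP T d, Real.log p / p * f (Real.log p / Real.log T)) / Real.log T ≤
      (∫ x in (0 : ℝ)..1, f x) + C * (B + K) / Real.log T := by
  obtain ⟨C, hC, h⟩ := lip_primes
  refine ⟨C, hC, fun f B K hf hB hK T hT d => ?_⟩
  have hlT : 0 < Real.log T := Real.log_pos (by linarith)
  have h1 := h f B K hB hK T hT T (by linarith) le_rfl
  rw [div_self hlT.ne'] at h1
  have h2 := (abs_le.1 h1).2
  have h3 : ∑ p ∈ PP T d, Real.log p / p * f (Real.log p / Real.log T) ≤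
      ∑ p ∈ (Icc 1 ⌊T⌋₊).filter Nat.Prime, Real.log p / p * f (Real.log p / Real.log T) := by
    refine Finset.sum_le_sum_of_subset_of_nonneg (lm_sub T d) fun p hp _ => ?_
    exact mul_nonneg (div_nonneg (Real.log_natCast_nonneg p) (Nat.cast_nonneg p))
      (hf _ (lm_x hT hp))
  have h4 := div_le_div_of_nonneg_right h3 hlT.le
  linarith

private theorem lm_GGabs (c x : ℝ) : |GG c x| ≤ c ^ 2 := by
  rw [abs_of_nonneg (GG_nonneg c x)]
  exact GG_le c x

/-- first moment -/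
theorem mom1 (c : ℝ) (hc : 1 ≤ c) : ∃ C : ℝ, 0 < C ∧ ∀ σ θ T d : ℝ, σ ^ 2 = 1 → 2 ≤ T → 0 < d →
    ∑ p ∈ PP T d, eta σ θ c T p ^ 2 * (Real.log p / Real.log T) ≤
      θ ^ 2 * (c / 2 + C / Real.log T) := by
  obtain ⟨C, hC, h⟩ := lm_upper
  have hc0 : 0 < c := by linarith
  refine ⟨C * (c ^ 2 + 2 * Real.pi * c ^ 3), by positivity, fun σ θ T d hσ hT _ => ?_⟩
  have hlT : 0 < Real.log T := Real.log_pos (by linarith)
  have h1 := h (GG c) (c ^ 2) (2 * Real.pi * c ^ 3) (fun x _ => GG_nonneg c x)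
    (fun x _ => lm_GGabs c x) (fun x _ y _ => GG_lip c hc0.le x y) T hT d
  have h2 : ∫ x in (0 : ℝ)..1, GG c x < c / 2 := GI_lt c 1 hc0 zero_le_one
  have h3 : ∑ p ∈ PP T d, eta σ θ c T p ^ 2 * (Real.log p / Real.log T) = θ ^ 2 *
      ((∑ p ∈ PP T d, Real.log p / p * GG c (Real.log p / Real.log T)) / Real.log T) := by
    rw [Finset.sum_div, Finset.mul_sum]
    refine Finset.sum_congr rfl fun p _ => ?_
    rw [lm_eta hσ]
    ring
  rw [h3]
  refine mul_le_mul_of_nonneg_left ?_ (sq_nonneg θ)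
  linarith

private theorem lm_int (c : ℝ) (hc : 1 ≤ c) :
    ∫ x in (0 : ℝ)..1, x * GG c x ≤ 1 + Real.log c := by
  have hc0 : 0 < c := by linarith
  have hcont : Continuous (fun x => x * GG c x) := continuous_id.mul (GG_continuous c)
  have hci : 1 / c ≤ 1 := (div_le_one hc0).2 hc
  have hci0 : 0 < 1 / c := by positivity
  rw [← intervalIntegral.integral_add_adjacent_intervals (b := 1 / c)
    (hcont.intervalIntegrable _ _) (hcont.intervalIntegrable _ _)]
  have h1 : ∫ x in (0 : ℝ)..(1 / c), x * GG c x ≤ 1 / 2 := by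
    have h2 : ∫ x in (0 : ℝ)..(1 / c), x * GG c x ≤ ∫ x in (0 : ℝ)..(1 / c), x * c ^ 2 := by
      refine intervalIntegral.integral_mono_on hci0.le (hcont.intervalIntegrable _ _)
        ((continuous_id.mul continuous_const).intervalIntegrable _ _) fun x hx => ?_
      exact mul_le_mul_of_nonneg_left (GG_le c x) hx.1
    refine h2.trans (le_of_eq ?_)
    rw [intervalIntegral.integral_mul_const, integral_id]
    field_simp
    ring
  have hp2 : 1 ≤ Real.pi ^ 2 := one_le_pow₀ (by linarith [Real.pi_gt_three])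
  have h3 : ∫ x in (1 / c)..(1 : ℝ), x * GG c x ≤ Real.log c := by
    have hne : ∀ x ∈ Set.uIcc (1 / c) (1 : ℝ), x ≠ 0 := by
      intro x hx
      rw [Set.uIcc_of_le hci] at hx
      exact (hci0.trans_le hx.1).ne'
    have h2 : ∫ x in (1 / c)..(1 : ℝ), x * GG c x ≤ ∫ x in (1 / c)..(1 : ℝ), x⁻¹ := by
      refine intervalIntegral.integral_mono_on hci (hcont.intervalIntegrable _ _)
        (intervalIntegral.intervalIntegrable_inv hne continuousOn_id) fun x hx => ?_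
      have hx0 : 0 < x := hci0.trans_le hx.1
      rw [GG_eq c x hx0.ne']
      have h4 := Real.neg_one_le_cos (2 * Real.pi * c * x)
      have h5 : x * ((1 - Real.cos (2 * Real.pi * c * x)) / (2 * Real.pi ^ 2 * x ^ 2)) =
          (1 - Real.cos (2 * Real.pi * c * x)) / (2 * Real.pi ^ 2) * x⁻¹ := by
        field_simp
      rw [h5]
      refine mul_le_of_le_one_left (inv_nonneg.2 hx0.le) ?_
      rw [div_le_one (by positivity)]
      linarith
    refine h2.trans (le_of_eq ?_)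
    rw [integral_inv_of_pos hci0 one_pos]
    congr 1
    field_simp
  linarith

/-- second moment -/
theorem mom2 (c : ℝ) (hc : 1 ≤ c) : ∃ C : ℝ, 0 < C ∧ ∀ σ θ T d : ℝ, σ ^ 2 = 1 → 2 ≤ T → 0 < d →
    ∑ p ∈ PP T d, eta σ θ c T p ^ 2 * (Real.log p / Real.log T) ^ 2 ≤
      θ ^ 2 * (1 + Real.log c + C / Real.log T) := by
  obtain ⟨C, hC, h⟩ := lm_upper
  have hc0 : 0 < c := by linarith
  refine ⟨C * (c ^ 2 + (2 * Real.pi * c ^ 3 + c ^ 2)), by positivity,
    fun σ θ T d hσ hT _ => ?_⟩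
  have hlT : 0 < Real.log T := Real.log_pos (by linarith)
  have h1 := h (fun x => x * GG c x) (c ^ 2) (2 * Real.pi * c ^ 3 + c ^ 2)
    (fun x hx => mul_nonneg hx.1 (GG_nonneg c x))
    (fun x hx => by
      rw [abs_mul, abs_of_nonneg hx.1]
      have := mul_le_mul hx.2 (lm_GGabs c x) (abs_nonneg _) zero_le_one
      linarith) (fun x hx y hy => by
      have e : x * GG c x - y * GG c y = x * (GG c x - GG c y) + (x - y) * GG c y := by ring
      rw [e]
      refine (abs_add_le _ _).trans ?_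
      rw [abs_mul, abs_mul, abs_of_nonneg hx.1]
      have h2 : x * |GG c x - GG c y| ≤ 1 * (2 * Real.pi * c ^ 3 * |x - y|) :=
        mul_le_mul hx.2 (GG_lip c hc0.le x y) (abs_nonneg _) zero_le_one
      have h3 : |x - y| * |GG c y| ≤ |x - y| * c ^ 2 :=
        mul_le_mul_of_nonneg_left (lm_GGabs c y) (abs_nonneg _)
      linarith) T hT d
  have h2 := lm_int c hc
  have h3 : ∑ p ∈ PP T d, eta σ θ c T p ^ 2 * (Real.log p / Real.log T) ^ 2 = θ ^ 2 *
      ((∑ p ∈ PP T d, Real.log p / p * ((Real.log p / Real.log T) *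
        GG c (Real.log p / Real.log T))) / Real.log T) := by
    rw [Finset.sum_div, Finset.mul_sum]
    refine Finset.sum_congr rfl fun p _ => ?_
    rw [lm_eta hσ]
    ring
  rw [h3]
  refine mul_le_mul_of_nonneg_left ?_ (sq_nonneg θ)
  linarith

/-- the sum over the primes in `(T^d, Y]` -/
theorem inner_ge (c : ℝ) (hc : 1 ≤ c) : ∃ C : ℝ, 0 < C ∧ ∀ T d Y : ℝ, 2 ≤ T → 0 < d → d < 1 →
    1 ≤ Y → Y ≤ T →
    GI c (Real.log Y / Real.log T) - c ^ 2 * d - C / Real.log T ≤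
      (∑ p ∈ (PP T d).filter (fun p : ℕ => (p : ℝ) ≤ Y),
        Real.log p / p * GG c (Real.log p / Real.log T)) / Real.log T := by
  obtain ⟨C, hC, h⟩ := lip_primes
  have hc0 : 0 < c := by linarith
  refine ⟨2 * (C * (c ^ 2 + 2 * Real.pi * c ^ 3)), by positivity,
    fun T d Y hT hd hd1 hY hYT => ?_⟩
  have hT0 : 0 < T := by linarith
  have hT1 : 1 ≤ T := by linarith
  have hlT : 0 < Real.log T := Real.log_pos (by linarith)
  have h1 := h (GG c) (c ^ 2) (2 * Real.pi * c ^ 3)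
    (fun x _ => lm_GGabs c x) (fun x _ y _ => GG_lip c hc0.le x y) T hT Y hY hYT
  have hTd1 : 1 ≤ T ^ d := Real.one_le_rpow hT1 hd.le
  have hTdT : T ^ d ≤ T := by
    calc T ^ d ≤ T ^ (1 : ℝ) := Real.rpow_le_rpow_of_exponent_le hT1 hd1.le
      _ = T := Real.rpow_one T
  have h2 := h (GG c) (c ^ 2) (2 * Real.pi * c ^ 3)
    (fun x _ => lm_GGabs c x) (fun x _ y _ => GG_lip c hc0.le x y) T hT (T ^ d) hTd1 hTdT
  rw [Real.log_rpow hT0, mul_div_cancel_right₀ _ hlT.ne'] at h2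
  have h3 : ∫ x in (0 : ℝ)..d, GG c x ≤ c ^ 2 * d := by
    have h4 : ∫ x in (0 : ℝ)..d, GG c x ≤ ∫ _ in (0 : ℝ)..d, c ^ 2 :=
      intervalIntegral.integral_mono_on hd.le ((GG_continuous c).intervalIntegrable _ _)
        (by simp) fun x _ => GG_le c x
    rw [intervalIntegral.integral_const, smul_eq_mul, sub_zero] at h4
    linarith
  -- splitting of the sum over the primes up to `Y`
  have hnn : ∀ p : ℕ, 0 ≤ Real.log p / p * GG c (Real.log p / Real.log T) := fun p =>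
    mul_nonneg (div_nonneg (Real.log_natCast_nonneg p) (Nat.cast_nonneg p)) (GG_nonneg c _)
  have h5 : ∑ p ∈ (Icc 1 ⌊Y⌋₊).filter Nat.Prime,
      Real.log p / p * GG c (Real.log p / Real.log T) ≤
      (∑ p ∈ (PP T d).filter (fun p : ℕ => (p : ℝ) ≤ Y),
        Real.log p / p * GG c (Real.log p / Real.log T)) +
      ∑ p ∈ (Icc 1 ⌊T ^ d⌋₊).filter Nat.Prime,
        Real.log p / p * GG c (Real.log p / Real.log T) := by
    refine le_trans (Finset.sum_le_sum_of_subset_of_nonneg (t := (PP T d).filter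
      (fun p : ℕ => (p : ℝ) ≤ Y) ∪ (Icc 1 ⌊T ^ d⌋₊).filter Nat.Prime) ?_ fun p _ _ => hnn p) ?_
    · intro p hp
      rw [mem_filter, mem_Icc] at hp
      obtain ⟨⟨p1, p2⟩, p3⟩ := hp
      have p4 : (p : ℝ) ≤ Y := (Nat.cast_le.2 p2).trans (Nat.floor_le (by linarith))
      rw [mem_union]
      by_cases hpd : T ^ d < (p : ℝ)
      · left
        rw [mem_filter]
        unfold PP
        rw [mem_filter, mem_Icc]
        exact ⟨⟨⟨p1, Nat.le_floor (p4.trans hYT)⟩, p3, hpd⟩, p4⟩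
      · right
        rw [mem_filter, mem_Icc]
        exact ⟨⟨p1, Nat.le_floor (not_lt.1 hpd)⟩, p3⟩
    · have h6 := Finset.sum_union_inter (s₁ := (PP T d).filter (fun p : ℕ => (p : ℝ) ≤ Y))
        (s₂ := (Icc 1 ⌊T ^ d⌋₊).filter Nat.Prime)
        (f := fun p : ℕ => Real.log p / p * GG c (Real.log p / Real.log T))
      have h7 : 0 ≤ ∑ p ∈ (PP T d).filter (fun p : ℕ => (p : ℝ) ≤ Y) ∩
          (Icc 1 ⌊T ^ d⌋₊).filter Nat.Prime,
          Real.log p / p * GG c (Real.log p / Real.log T) := Finset.sum_nonneg fun p _ => hnn p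
      linarith
  have h8 := div_le_div_of_nonneg_right h5 hlT.le
  rw [add_div] at h8
  have h9 := (abs_le.1 h1).1
  have h10 := (abs_le.1 h2).2
  have h11 : 2 * (C * (c ^ 2 + 2 * Real.pi * c ^ 3)) / Real.log T =
      C * (c ^ 2 + 2 * Real.pi * c ^ 3) / Real.log T +
        C * (c ^ 2 + 2 * Real.pi * c ^ 3) / Real.log T := by ring
  rw [h11]
  unfold GI
  linarith

end Pool.Agent.Work.MP_7b186b_nt.MO
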