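import Mathlib
import Pool.Agent.Work.MP_7b186b_nt.MO.LCorr
import Pool.Agent.Work.MP_7b186b_nt.MO.LMass
import Pool.Agent.Work.MP_7b186b_nt.MO.LMom

set_option autoImplicit false

namespace Pool.Agent.Work.MP_7b186b_nt.MO

open Finset ArithmeticFunction

private theorem ev_all (c ε η θ d C₁ C₂ C₃ B : ℝ) (hε : 0 < ε) (hd : 0 < d)
    (target : ℝ)
    (ht : target < 2 * θ * (B * (1 - θ ^ 2 * (1 + Real.log c) / ε ^ 2) - c ^ 2 * d)) :
    ∃ T₀ : ℝ, ∀ T : ℝ, T₀ ≤ T → 2 ≤ T ∧ 0 < ε - θ ^ 2 * C₁ / Real.log T ∧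
      target < 2 * θ * (B * (1 - θ ^ 2 * (1 + Real.log c + C₂ / Real.log T) /
        (ε - θ ^ 2 * C₁ / Real.log T) ^ 2) -
        (c ^ 2 * d + C₃ / Real.log T + c ^ 2 / T ^ d)) := by
  have t0 : ∀ C : ℝ, Filter.Tendsto (fun T : ℝ => C / Real.log T) Filter.atTop (nhds 0) :=
    fun C => tendsto_const_nhds.div_atTop Real.tendsto_log_atTop
  have t1 : Filter.Tendsto (fun T : ℝ => c ^ 2 / T ^ d) Filter.atTop (nhds 0) :=
    tendsto_const_nhds.div_atTop (tendsto_rpow_atTop hd)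
  have t2 : Filter.Tendsto (fun T : ℝ => ε - θ ^ 2 * C₁ / Real.log T) Filter.atTop
      (nhds (ε - 0)) := tendsto_const_nhds.sub (t0 _)
  rw [sub_zero] at t2
  have t3 : Filter.Tendsto (fun T : ℝ => 2 * θ * (B * (1 - θ ^ 2 * (1 + Real.log c +
      C₂ / Real.log T) / (ε - θ ^ 2 * C₁ / Real.log T) ^ 2) -
        (c ^ 2 * d + C₃ / Real.log T + c ^ 2 / T ^ d))) Filter.atTop
      (nhds (2 * θ * (B * (1 - θ ^ 2 * (1 + Real.log c + 0) / ε ^ 2) - (c ^ 2 * d + 0 + 0)))) := by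
    refine tendsto_const_nhds.mul ((tendsto_const_nhds.mul (tendsto_const_nhds.sub
      ((tendsto_const_nhds.mul (tendsto_const_nhds.add (t0 C₂))).div (t2.pow 2) ?_))).sub
      ((tendsto_const_nhds.add (t0 C₃)).add t1))
    exact pow_ne_zero 2 hε.ne'
  rw [add_zero, add_zero, add_zero] at t3
  have e1 := t3.eventually (lt_mem_nhds ht)
  have e2 := t2.eventually (lt_mem_nhds hε)
  obtain ⟨T₀, h⟩ := Filter.eventually_atTop.1 ((Filter.eventually_ge_atTop (2 : ℝ)).and (e2.and e1))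
  exact ⟨T₀, fun T hT => h T hT⟩

private theorem WW_pos (σ θ c T d : ℝ) : 0 < WW σ θ c T d := by
  unfold WW
  exact Finset.prod_pos fun p _ => by positivity

private theorem aL_one (σ θ c T d : ℝ) : aL σ θ c T d 1 = 1 := by
  unfold aL
  rw [if_pos]
  · simp
  · exact ⟨squarefree_one, by simp⟩

private theorem norm2_eq (X : ℕ) (σ θ c T d : ℝ) :
    norm2 X (aC σ θ c T d) = ∑ k ∈ Icc 1 X, aL σ θ c T d k ^ 2 := by
  unfold norm2
  refine Finset.sum_congr rfl fun k _ => ?_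
  unfold aC
  rw [Complex.norm_real, Real.norm_eq_abs, sq_abs]

/-- the inner sum for a good `k` -/
private theorem inner_good (c ε T d C₃ : ℝ) (hc : 1 ≤ c) (hε : 0 < ε) (hε4 : ε < 1 / 4)
    (hT : 2 ≤ T) (hd : 0 < d) (hd1 : d < 1)
    (h3 : ∀ T d Y : ℝ, 2 ≤ T → 0 < d → d < 1 →
    1 ≤ Y → Y ≤ T →
    GI c (Real.log Y / Real.log T) - c ^ 2 * d - C₃ / Real.log T ≤
      (∑ p ∈ (PP T d).filter (fun p : ℕ => (p : ℝ) ≤ Y),
        Real.log p / p * GG c (Real.log p / Real.log T)) / Real.log T)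
    (X k : ℕ) (hX : X = ⌊T ^ (1 - ε)⌋₊) (hk : 1 ≤ k)
    (hkx : Real.log k / Real.log T ≤ 1 - 2 * ε) :
    c / 2 - 1 / (Real.pi ^ 2 * ε) - (c ^ 2 * d + C₃ / Real.log T + c ^ 2 / T ^ d) ≤
      (∑ p ∈ (PP T d).filter (fun p => p ≤ X / k ∧ ¬ p ∣ k),
          Real.log p / p * GG c (Real.log p / Real.log T)) / Real.log T := by
  have hT0 : 0 < T := by linarith
  have hT1 : 1 < T := by linarith
  have hL : 0 < Real.log T := Real.log_pos hT1
  have hk0 : (0 : ℝ) < k := by exact_mod_cast hk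
  have hk1 : (1 : ℝ) ≤ k := by exact_mod_cast hk
  have hlk : Real.log k ≤ (1 - 2 * ε) * Real.log T := (div_le_iff₀ hL).1 hkx
  have hkT : (k : ℝ) ≤ T ^ (1 - 2 * ε) := by
    rw [← Real.log_le_log_iff hk0 (Real.rpow_pos_of_pos hT0 _), Real.log_rpow hT0]
    exact hlk
  have hkT' : (k : ℝ) ≤ T := hkT.trans (by
    nth_rewrite 2 [← Real.rpow_one T]
    exact Real.rpow_le_rpow_of_exponent_le hT1.le (by linarith))
  set Y : ℝ := T ^ (1 - ε) / k with hY
  have hYpos : 0 < Y := div_pos (Real.rpow_pos_of_pos hT0 _) hk0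
  have hY1 : 1 ≤ Y := by
    rw [hY, le_div_iff₀ hk0, one_mul]
    exact hkT.trans (Real.rpow_le_rpow_of_exponent_le hT1.le (by linarith))
  have hYT : Y ≤ T := by
    rw [hY]
    refine (div_le_self (Real.rpow_pos_of_pos hT0 _).le hk1).trans ?_
    nth_rewrite 2 [← Real.rpow_one T]
    exact Real.rpow_le_rpow_of_exponent_le hT1.le (by linarith)
  have hlY : Real.log Y = (1 - ε) * Real.log T - Real.log k := by
    rw [hY, Real.log_div (Real.rpow_pos_of_pos hT0 _).ne' hk0.ne', Real.log_rpow hT0]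
  have hz : ε ≤ Real.log Y / Real.log T := by
    rw [le_div_iff₀ hL, hlY]
    linarith
  have hGI : c / 2 - 1 / (Real.pi ^ 2 * ε) ≤ GI c (Real.log Y / Real.log T) := by
    refine le_trans ?_ (GI_ge c _ (by linarith) (hε.trans_le hz))
    have hpi : 0 < Real.pi ^ 2 := by positivity
    have : 1 / (Real.pi ^ 2 * (Real.log Y / Real.log T)) ≤ 1 / (Real.pi ^ 2 * ε) :=
      one_div_le_one_div_of_le (by positivity) (mul_le_mul_of_nonneg_left hz hpi.le)
    linarith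
  have h4 := h3 T d Y hT hd hd1 hY1 hYT
  have h5 := inner_div c T d hT1 hd k hk hkT'
  have hpos : ∀ p ∈ PP T d, 0 ≤ Real.log p / p * GG c (Real.log p / Real.log T) := by
    intro p hp
    refine mul_nonneg (div_nonneg (Real.log_natCast_nonneg p) (Nat.cast_nonneg p)) (GG_nonneg _ _)
  have h6 : (∑ p ∈ (PP T d).filter (fun p : ℕ => (p : ℝ) ≤ Y),
        Real.log p / p * GG c (Real.log p / Real.log T)) ≤
      (∑ p ∈ (PP T d).filter (fun p => p ≤ X / k ∧ ¬ p ∣ k),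
          Real.log p / p * GG c (Real.log p / Real.log T)) +
      ∑ p ∈ (PP T d).filter (fun p => p ∣ k),
        Real.log p / p * GG c (Real.log p / Real.log T) := by
    rw [← Finset.sum_filter_add_sum_filter_not ((PP T d).filter (fun p : ℕ => (p : ℝ) ≤ Y))
      (fun p => ¬ p ∣ k)]
    refine add_le_add ?_ ?_
    · refine le_of_eq (Finset.sum_congr ?_ fun _ _ => rfl)
      ext p
      simp only [Finset.mem_filter, and_assoc]
      refine and_congr_right fun _ => and_congr_left fun _ => ?_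
      rw [Nat.le_div_iff_mul_le hk, hX, Nat.le_floor_iff (Real.rpow_pos_of_pos hT0 _).le, hY,
        le_div_iff₀ hk0]
      push_cast
      exact Iff.rfl
    · refine Finset.sum_le_sum_of_subset_of_nonneg ?_ ?_
      · intro p hp
        simp only [Finset.mem_filter, not_not] at hp ⊢
        exact ⟨hp.1.1, hp.2⟩
      · intro p hp _
        exact hpos p (Finset.mem_of_mem_filter p hp)
  have h7 := div_le_div_of_nonneg_right h6 hL.le
  rw [add_div] at h7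
  linarith

/-- What the coefficients `aC` give: for `c ≥ 1`, `0 < ε < 1/4`, `η > 0`, `θ = √((1 - 3 ε) 2 / c)`,
the correlation sum is at least
`2 θ (c/2 - 1/(π² ε)) (1 - (2/c) (1 + log c) / ε²) - η`. -/
theorem low_asm (c ε η : ℝ) (hc : 1 ≤ c) (hε : 0 < ε) (hε4 : ε < 1 / 4) (hη : 0 < η)
    (h1 : 0 ≤ c / 2 - 1 / (Real.pi ^ 2 * ε))
    (h2 : 2 / c * (1 + Real.log c) / ε ^ 2 < 1) :
    ∃ d : ℝ, 0 < d ∧ ∃ T₀ : ℝ, ∀ T : ℝ, T₀ ≤ T → ∀ X : ℕ, X = ⌊T ^ (1 - ε)⌋₊ →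
      ∀ σ : ℝ, σ ^ 2 = 1 →
      norm2 X (aC σ (Real.sqrt ((1 - 3 * ε) * (2 / c))) c T d) ≠ 0 ∧
      2 * Real.sqrt ((1 - 3 * ε) * (2 / c)) * (c / 2 - 1 / (Real.pi ^ 2 * ε)) *
        (1 - 2 / c * (1 + Real.log c) / ε ^ 2) - η ≤
      σ * corr X (aC σ (Real.sqrt ((1 - 3 * ε) * (2 / c))) c T d) (fun n => (gMO c T n : ℂ)) /
        norm2 X (aC σ (Real.sqrt ((1 - 3 * ε) * (2 / c))) c T d) := by
  obtain ⟨C₁, hC₁, hm1⟩ := mom1 c hc
  obtain ⟨C₂, hC₂, hm2⟩ := mom2 c hc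
  obtain ⟨C₃, hC₃, hm3⟩ := inner_ge c hc
  have hc0 : 0 < c := by linarith
  have hlc : 0 ≤ Real.log c := Real.log_nonneg hc
  set θ : ℝ := Real.sqrt ((1 - 3 * ε) * (2 / c)) with hθ
  have hθ0 : 0 ≤ θ := Real.sqrt_nonneg _
  have hθ2 : θ ^ 2 = (1 - 3 * ε) * (2 / c) := by
    rw [hθ, Real.sq_sqrt]
    have : 0 < 1 - 3 * ε := by linarith
    positivity
  have hθc : θ ^ 2 * (c / 2) = 1 - 3 * ε := by
    rw [hθ2]
    field_simp
  have hθle : θ ^ 2 ≤ 2 / c := by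
    rw [hθ2]
    have h3 : 0 < 2 / c := by positivity
    nlinarith
  set B : ℝ := c / 2 - 1 / (Real.pi ^ 2 * ε) with hB
  set M : ℝ := 1 - 2 / c * (1 + Real.log c) / ε ^ 2 with hM
  have hden : 0 < 4 * θ * c ^ 2 + 1 := by positivity
  set d : ℝ := min (1 / 2) (η / (4 * θ * c ^ 2 + 1)) with hd
  have hd0 : 0 < d := lt_min (by norm_num) (div_pos hη hden)
  have hd1 : d < 1 := lt_of_le_of_lt (min_le_left _ _) (by norm_num)
  have hdη : 2 * θ * (c ^ 2 * d) < η := by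
    have h3 : d ≤ η / (4 * θ * c ^ 2 + 1) := min_le_right _ _
    have h4 : d * (4 * θ * c ^ 2 + 1) ≤ η := (le_div_iff₀ hden).1 h3
    have h5 : 0 ≤ θ * c ^ 2 * d := by positivity
    nlinarith
  have htarget : 2 * θ * B * M - η <
      2 * θ * (B * (1 - θ ^ 2 * (1 + Real.log c) / ε ^ 2) - c ^ 2 * d) := by
    have h3 : M ≤ 1 - θ ^ 2 * (1 + Real.log c) / ε ^ 2 := by
      rw [hM]
      have h4 : θ ^ 2 * (1 + Real.log c) / ε ^ 2 ≤ 2 / c * (1 + Real.log c) / ε ^ 2 :=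
        div_le_div_of_nonneg_right (mul_le_mul_of_nonneg_right hθle (by linarith)) (by positivity)
      linarith
    have h5 : 2 * θ * (B * M) ≤ 2 * θ * (B * (1 - θ ^ 2 * (1 + Real.log c) / ε ^ 2)) :=
      mul_le_mul_of_nonneg_left (mul_le_mul_of_nonneg_left h3 h1) (by positivity)
    nlinarith
  obtain ⟨T₀, hT₀⟩ := ev_all c ε η θ d C₁ C₂ C₃ B hε hd0 _ htarget
  refine ⟨d, hd0, T₀, ?_⟩
  intro T hTT X hX σ hσ
  obtain ⟨hT2, hε', hF⟩ := hT₀ T hTT
  have hT0 : 0 < T := by linarith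
  have hT1 : 1 < T := by linarith
  have hL : 0 < Real.log T := Real.log_pos hT1
  have hXle : (X : ℝ) ≤ T ^ (1 - ε) := by
    rw [hX]
    exact Nat.floor_le (Real.rpow_pos_of_pos hT0 _).le
  have hXT : (X : ℝ) ≤ T := hXle.trans (by
    nth_rewrite 2 [← Real.rpow_one T]
    exact Real.rpow_le_rpow_of_exponent_le hT1.le (by linarith))
  have hX1 : 1 ≤ X := by
    rw [hX, Nat.one_le_floor_iff]
    exact Real.one_le_rpow hT1.le (by linarith)
  -- the norm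
  have hN : 0 < norm2 X (aC σ θ c T d) := by
    rw [norm2_eq]
    have h3 : aL σ θ c T d 1 ^ 2 ≤ ∑ k ∈ Icc 1 X, aL σ θ c T d k ^ 2 :=
      Finset.single_le_sum (f := fun k => aL σ θ c T d k ^ 2) (fun k _ => sq_nonneg _)
        (Finset.mem_Icc.2 ⟨le_rfl, hX1⟩)
    rw [aL_one] at h3
    linarith
  refine ⟨hN.ne', ?_⟩
  -- the mass
  set μ : ℝ := θ ^ 2 * (c / 2 + C₁ / Real.log T) with hμ
  have hμe : μ = 1 - 3 * ε + θ ^ 2 * C₁ / Real.log T := by
    rw [hμ, mul_add, hθc]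
    ring
  set ε' : ℝ := ε - θ ^ 2 * C₁ / Real.log T with hε'd
  have hsum : μ + ε' = 1 - 2 * ε := by
    rw [hμe, hε'd]
    ring
  have hmass := mass_ge σ θ c T d μ ε' hT1 hd0 hε' (hm1 σ θ T d hσ hT2 hd0)
    (by rw [hsum]; linarith)
  rw [hsum] at hmass
  set G : ℝ := ∑ k ∈ (Icc 1 ⌊T⌋₊).filter (fun k : ℕ => Real.log k / Real.log T ≤ 1 - 2 * ε),
        aL σ θ c T d k ^ 2 with hG
  have hG0 : 0 ≤ G := Finset.sum_nonneg fun k _ => sq_nonneg _
  set ρ : ℝ := 1 - θ ^ 2 * (1 + Real.log c + C₂ / Real.log T) / ε' ^ 2 with hρ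
  have hW : 0 < WW σ θ c T d := WW_pos σ θ c T d
  have hGW : WW σ θ c T d * ρ ≤ G := by
    refine le_trans (mul_le_mul_of_nonneg_left ?_ hW.le) hmass
    rw [hρ]
    have h3 := hm2 σ θ T d hσ hT2 hd0
    have h4 : (∑ p ∈ PP T d, eta σ θ c T p ^ 2 * (Real.log p / Real.log T) ^ 2) / ε' ^ 2 ≤
        θ ^ 2 * (1 + Real.log c + C₂ / Real.log T) / ε' ^ 2 :=
      div_le_div_of_nonneg_right h3 (by positivity)
    linarith
  have hNW := norm2_aC_le σ θ c T d hT1 X hXT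
  have hGN : norm2 X (aC σ θ c T d) * ρ ≤ G := by
    rcases le_or_gt ρ 0 with h3 | h3
    · exact (mul_nonpos_of_nonneg_of_nonpos hN.le h3).trans hG0
    · exact (mul_le_mul_of_nonneg_right hNW h3.le).trans hGW
  -- the good `k` are at most `X`
  have hsubset : (Icc 1 ⌊T⌋₊).filter (fun k : ℕ => Real.log k / Real.log T ≤ 1 - 2 * ε) ⊆
      Icc 1 X := by
    intro k hk
    simp only [Finset.mem_filter, Finset.mem_Icc] at hk
    obtain ⟨⟨hk1, -⟩, hkx⟩ := hk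
    rw [Finset.mem_Icc]
    refine ⟨hk1, ?_⟩
    have hk0 : (0 : ℝ) < k := by exact_mod_cast hk1
    rw [hX, Nat.le_floor_iff (Real.rpow_pos_of_pos hT0 _).le,
      ← Real.log_le_log_iff hk0 (Real.rpow_pos_of_pos hT0 _), Real.log_rpow hT0]
    have h3 := (div_le_iff₀ hL).1 hkx
    nlinarith
  have hGle : G ≤ norm2 X (aC σ θ c T d) := by
    rw [norm2_eq, hG]
    exact Finset.sum_le_sum_of_subset_of_nonneg hsubset fun k _ _ => sq_nonneg _
  -- the correlation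
  set δ' : ℝ := c ^ 2 * d + C₃ / Real.log T + c ^ 2 / T ^ d with hδ'
  have hδ0 : 0 ≤ δ' := by
    have : 0 < T ^ d := Real.rpow_pos_of_pos hT0 _
    positivity
  have hcorr := corr_aC σ θ c T d hT1 hd0 X hXT hσ
  set inn : ℕ → ℝ := fun k => ∑ p ∈ (PP T d).filter (fun p => p ≤ X / k ∧ ¬ p ∣ k),
          Real.log p / p * GG c (Real.log p / Real.log T) with hinn
  have hinn0 : ∀ k, 0 ≤ inn k := by
    intro k
    refine Finset.sum_nonneg fun p _ => ?_
    exact mul_nonneg (div_nonneg (Real.log_natCast_nonneg p) (Nat.cast_nonneg p)) (GG_nonneg _ _)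
  have hS : (B - δ') * G ≤ ∑ k ∈ Icc 1 X, aL σ θ c T d k ^ 2 * (inn k / Real.log T) := by
    have h3 : (B - δ') * G ≤ ∑ k ∈ (Icc 1 ⌊T⌋₊).filter
        (fun k : ℕ => Real.log k / Real.log T ≤ 1 - 2 * ε),
        aL σ θ c T d k ^ 2 * (inn k / Real.log T) := by
      rw [hG, Finset.mul_sum]
      refine Finset.sum_le_sum fun k hk => ?_
      simp only [Finset.mem_filter, Finset.mem_Icc] at hk
      rw [mul_comm]
      refine mul_le_mul_of_nonneg_left ?_ (sq_nonneg _)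
      exact inner_good c ε T d C₃ hc hε hε4 hT2 hd0 hd1 hm3 X k hX hk.1.1 hk.2
    refine h3.trans ?_
    exact Finset.sum_le_sum_of_subset_of_nonneg hsubset fun k _ _ =>
      mul_nonneg (sq_nonneg _) (div_nonneg (hinn0 k) hL.le)
  have hcorr2 : σ * corr X (aC σ θ c T d) (fun n => (gMO c T n : ℂ)) =
      2 * θ * ∑ k ∈ Icc 1 X, aL σ θ c T d k ^ 2 * (inn k / Real.log T) := by
    rw [hcorr]
    have e1 : ∑ k ∈ Icc 1 X, aL σ θ c T d k ^ 2 * (inn k / Real.log T) =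
        (∑ k ∈ Icc 1 X, aL σ θ c T d k ^ 2 * inn k) / Real.log T := by
      rw [Finset.sum_div]
      refine Finset.sum_congr rfl fun k _ => ?_
      ring
    rw [e1]
    have e2 : σ * (σ * (2 * θ / Real.log T) * ∑ k ∈ Icc 1 X, aL σ θ c T d k ^ 2 * inn k) =
        σ ^ 2 * ((2 * θ / Real.log T) * ∑ k ∈ Icc 1 X, aL σ θ c T d k ^ 2 * inn k) := by ring
    rw [e2, hσ]
    ring
  rw [hcorr2, le_div_iff₀ hN]
  have h3 : (B * ρ - δ') * norm2 X (aC σ θ c T d) ≤ (B - δ') * G := by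
    have h4 : B * (norm2 X (aC σ θ c T d) * ρ) ≤ B * G := mul_le_mul_of_nonneg_left hGN h1
    have h5 : δ' * G ≤ δ' * norm2 X (aC σ θ c T d) := mul_le_mul_of_nonneg_left hGle hδ0
    nlinarith
  have h4 : 2 * θ * ((B * ρ - δ') * norm2 X (aC σ θ c T d)) ≤
      2 * θ * ∑ k ∈ Icc 1 X, aL σ θ c T d k ^ 2 * (inn k / Real.log T) :=
    mul_le_mul_of_nonneg_left (h3.trans hS) (by positivity)
  refine le_trans ?_ h4
  rw [← mul_assoc]
  exact mul_le_mul_of_nonneg_right hF.le hN.le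

end Pool.Agent.Work.MP_7b186b_nt.MO
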