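import Mathlib
import Pool.Agent.Work.MP_7b186b_nt.MO.LAsm

set_option autoImplicit false

namespace Pool.Agent.Work.MP_7b186b_nt.MO

open Finset ArithmeticFunction

/-
PROOF. S(c,e) := 2 theta (c/2 - 1/(pi^2 e)) (1 - (2/c)(1+log c)/e^2) = sqrt((1-3e) 2c) (1 - 2/(pi^2 e c)) (1 - (2/c)(1+log c)/e^2),
theta = sqrt((1-3e) 2/c). Given eps choose e < 1/4 with sqrt(1-3e) >= 1 - eps/8; then for c large
S(c,e) >= (1 - eps/4) sqrt(2c). c1 = r + (sqrt 2 - eps) sqrt r >= r: hMO c1 <= c1 - S + eta <= r + (sqrt 2 - eps) sqrt r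
- (1-eps/4) sqrt 2 sqrt r + eta < r - delta for r large (sigma = 1, low_asm, hMO = c - corr/norm2).
c2 = r - (sqrt 2 - eps) sqrt r, sigma = -1: hMO = c2 + (sigma corr)/norm2 >= c2 + (1-eps/4) sqrt(2 c2) - eta and
sqrt(2 c2) >= sqrt 2 sqrt r (1 - 2/sqrt r) for r large. X = floor(T^(1-e)) <= T^(1-delta) with delta <= e.
-/

private theorem m3_S (ε e : ℝ) (hε : 0 < ε) (hε1 : ε < 1) (he : 0 < e) (he4 : e < 1 / 4)
    (hsq : 1 - ε / 8 ≤ Real.sqrt (1 - 3 * e)) : ∃ c₀ : ℝ, 1 ≤ c₀ ∧ ∀ c : ℝ, c₀ ≤ c →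
      0 ≤ c / 2 - 1 / (Real.pi ^ 2 * e) ∧ 2 / c * (1 + Real.log c) / e ^ 2 < 1 ∧
      (1 - ε / 4) * Real.sqrt (2 * c) ≤
        2 * Real.sqrt ((1 - 3 * e) * (2 / c)) * (c / 2 - 1 / (Real.pi ^ 2 * e)) *
          (1 - 2 / c * (1 + Real.log c) / e ^ 2) := by
  have t1 : Filter.Tendsto (fun c : ℝ => 1 - 2 / (Real.pi ^ 2 * e) / c) Filter.atTop
      (nhds (1 - 0)) :=
    tendsto_const_nhds.sub (tendsto_const_nhds.div_atTop Filter.tendsto_id)
  have t2 : Filter.Tendsto (fun c : ℝ => Real.log c / c) Filter.atTop (nhds 0) :=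
    Real.isLittleO_log_id_atTop.tendsto_div_nhds_zero
  have t3 : Filter.Tendsto (fun c : ℝ => 1 / c) Filter.atTop (nhds 0) :=
    tendsto_const_nhds.div_atTop Filter.tendsto_id
  have t4 : Filter.Tendsto (fun c : ℝ => 1 - 2 / e ^ 2 * (1 / c + Real.log c / c)) Filter.atTop
      (nhds (1 - 2 / e ^ 2 * (0 + 0))) :=
    tendsto_const_nhds.sub (tendsto_const_nhds.mul (t3.add t2))
  have t5 := (tendsto_const_nhds (x := 1 - ε / 8) (f := (Filter.atTop : Filter ℝ))).mul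
    (t1.mul t4)
  have e1 := t1.eventually (lt_mem_nhds (show (0 : ℝ) < 1 - 0 by norm_num))
  have e2 := t4.eventually (lt_mem_nhds (show (0 : ℝ) < 1 - 2 / e ^ 2 * (0 + 0) by norm_num))
  have e3 := t5.eventually (lt_mem_nhds (show 1 - ε / 4 <
    (1 - ε / 8) * ((1 - 0) * (1 - 2 / e ^ 2 * (0 + 0))) by norm_num; linarith))
  obtain ⟨c₀, h⟩ := Filter.eventually_atTop.1 (e1.and (e2.and e3))
  refine ⟨max 1 c₀, le_max_left _ _, fun c hc => ?_⟩
  have hc1 : 1 ≤ c := (le_max_left _ _).trans hc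
  have hc0 : 0 < c := by linarith
  obtain ⟨u0, v0, huv⟩ := h c ((le_max_right _ _).trans hc)
  set u := 1 - 2 / (Real.pi ^ 2 * e) / c with hu
  set v := 1 - 2 / e ^ 2 * (1 / c + Real.log c / c) with hv
  have hpi : 0 < Real.pi ^ 2 := by positivity
  have eu : c / 2 - 1 / (Real.pi ^ 2 * e) = c / 2 * u := by
    rw [hu]
    field_simp
  have ev : 1 - 2 / c * (1 + Real.log c) / e ^ 2 = v := by
    rw [hv]
    field_simp
  refine ⟨?_, ?_, ?_⟩
  · rw [eu]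
    positivity
  · linarith
  · rw [eu, ev]
    have s1 : Real.sqrt ((1 - 3 * e) * (2 / c)) = Real.sqrt (1 - 3 * e) * Real.sqrt (2 / c) :=
      Real.sqrt_mul (by linarith) _
    have s2 : Real.sqrt (2 * c) = Real.sqrt (2 / c) * c := by
      have h1 : 2 * c = 2 / c * c ^ 2 := by field_simp
      rw [h1, Real.sqrt_mul (by positivity), Real.sqrt_sq hc0.le]
    have s3 : 2 * Real.sqrt ((1 - 3 * e) * (2 / c)) * (c / 2 * u) * v =
        Real.sqrt (2 * c) * (Real.sqrt (1 - 3 * e) * (u * v)) := by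
      rw [s1, s2]
      ring
    rw [s3, mul_comm]
    refine mul_le_mul_of_nonneg_left ?_ (Real.sqrt_nonneg _)
    refine huv.le.trans ?_
    exact mul_le_mul_of_nonneg_right hsq (by positivity)

/-- the limits for `r`-gaps are asymptotically sharp -/
theorem main3 (ε : ℝ) (hε : 0 < ε) (hε1 : ε < 1) : ∃ r₀ : ℕ, ∀ r : ℕ, r₀ ≤ r →
    ∃ δ : ℝ, 0 < δ ∧ ∃ T₀ : ℝ, ∀ T : ℝ, T₀ ≤ T → ∃ X : ℕ, (X : ℝ) ≤ T ^ (1 - δ) ∧
      (∃ a : ℕ → ℂ, norm2 X a ≠ 0 ∧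
        hMO ((r : ℝ) + (Real.sqrt 2 - ε) * Real.sqrt r) T X a < (r : ℝ) - δ) ∧
      (∃ a : ℕ → ℂ, norm2 X a ≠ 0 ∧
        (r : ℝ) + δ < hMO ((r : ℝ) - (Real.sqrt 2 - ε) * Real.sqrt r) T X a) := by
  have he : 0 < ε / 24 := by positivity
  have he4 : ε / 24 < 1 / 4 := by linarith
  have hsq : 1 - ε / 8 ≤ Real.sqrt (1 - 3 * (ε / 24)) := by
    apply Real.le_sqrt_of_sq_le
    nlinarith
  obtain ⟨c₀, hc₀, hS⟩ := m3_S ε (ε / 24) hε hε1 he he4 hsq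
  set e : ℝ := ε / 24 with hed
  set D : ℝ := Real.sqrt 2 - ε with hD
  have h2a : Real.sqrt 2 ^ 2 = 2 := Real.sq_sqrt (by norm_num)
  have h2b : 1.4 < Real.sqrt 2 := by
    rw [show (1.4 : ℝ) = Real.sqrt (1.4 ^ 2) by rw [Real.sqrt_sq (by norm_num)]]
    exact Real.sqrt_lt_sqrt (by norm_num) (by norm_num)
  have h2c : Real.sqrt 2 < 1.5 := by
    rw [show (1.5 : ℝ) = Real.sqrt (1.5 ^ 2) by rw [Real.sqrt_sq (by norm_num)]]
    exact Real.sqrt_lt_sqrt (by norm_num) (by norm_num)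
  have hD0 : 0 < D := by rw [hD]; linarith
  have hD2 : D < 1.5 := by rw [hD]; linarith
  set R : ℝ := 6 / ε + c₀ + 4 with hR
  have h6 : 0 < 6 / ε := by positivity
  refine ⟨⌈R ^ 2⌉₊, fun r hr => ?_⟩
  have hr1 : R ^ 2 ≤ (r : ℝ) := (Nat.le_ceil _).trans (by exact_mod_cast hr)
  have hRr : R ≤ Real.sqrt r := Real.le_sqrt_of_sq_le hr1
  set q : ℝ := Real.sqrt r with hq
  have hqq : q * q = r := Real.mul_self_sqrt (Nat.cast_nonneg r)
  have hq4 : 4 ≤ q := by linarith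
  have hqc : c₀ ≤ q := by linarith
  have hqε : 3 ≤ ε / 2 * q := by
    have h1 : 6 / ε ≤ q := by linarith
    have h2 : 6 ≤ q * ε := (div_le_iff₀ hε).1 h1
    linarith
  -- the two values of `c`
  set c₁ : ℝ := (r : ℝ) + D * q with hc₁
  set c₂ : ℝ := (r : ℝ) - D * q with hc₂
  have hc₁r : (r : ℝ) ≤ c₁ := by
    rw [hc₁]
    have : 0 ≤ D * q := by positivity
    linarith
  have hrq : q ≤ r := by rw [← hqq]; nlinarith
  have hc₂q : q ≤ c₂ := by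
    rw [hc₂, ← hqq]
    nlinarith
  have hc₁0 : c₀ ≤ c₁ := by linarith
  have hc₂0 : c₀ ≤ c₂ := by linarith
  obtain ⟨a1, a2, a3⟩ := hS c₁ hc₁0
  obtain ⟨b1, b2, b3⟩ := hS c₂ hc₂0
  obtain ⟨d₁, hd₁, T₁, hT₁⟩ := low_asm c₁ e (1 / 4) (by linarith) he he4 (by norm_num) a1 a2
  obtain ⟨d₂, hd₂, T₂, hT₂⟩ := low_asm c₂ e (1 / 4) (by linarith) he he4 (by norm_num) b1 b2
  refine ⟨min e (1 / 4), lt_min he (by norm_num), max 1 (max T₁ T₂), fun T hT => ?_⟩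
  have hT1 : 1 ≤ T := (le_max_left _ _).trans hT
  have hTT₁ : T₁ ≤ T := ((le_max_left _ _).trans (le_max_right _ _)).trans hT
  have hTT₂ : T₂ ≤ T := ((le_max_right _ _).trans (le_max_right _ _)).trans hT
  refine ⟨⌊T ^ (1 - e)⌋₊, ?_, ?_, ?_⟩
  · refine (Nat.floor_le (Real.rpow_nonneg (by linarith) _)).trans ?_
    exact Real.rpow_le_rpow_of_exponent_le hT1 (by linarith [min_le_left e (1 / 4)])
  · obtain ⟨hn, hlow⟩ := hT₁ T hTT₁ _ rfl 1 (by norm_num)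
    refine ⟨_, hn, ?_⟩
    unfold hMO
    rw [one_mul] at hlow
    have k1 : Real.sqrt 2 * q ≤ Real.sqrt (2 * c₁) := by
      rw [hq, ← Real.sqrt_mul (by norm_num)]
      exact Real.sqrt_le_sqrt (by linarith)
    have k2 : (1 - ε / 4) * (Real.sqrt 2 * q) ≤ (1 - ε / 4) * Real.sqrt (2 * c₁) :=
      mul_le_mul_of_nonneg_left k1 (by linarith)
    have k3 : (r : ℝ) + D * q - (1 - ε / 4) * (Real.sqrt 2 * q) =
        r - ε * (1 - Real.sqrt 2 / 4) * q := by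
      rw [hD]
      ring
    have k4 : ε / 2 * q ≤ ε * (1 - Real.sqrt 2 / 4) * q := by
      refine mul_le_mul_of_nonneg_right ?_ (by linarith)
      nlinarith
    have k5 : min e (1 / 4) ≤ 1 / 4 := min_le_right _ _
    linarith
  · obtain ⟨hn, hlow⟩ := hT₂ T hTT₂ _ rfl (-1) (by norm_num)
    refine ⟨_, hn, ?_⟩
    unfold hMO
    rw [neg_one_mul, neg_div] at hlow
    have k0 : q - D ≤ Real.sqrt c₂ := by
      apply Real.le_sqrt_of_sq_le
      rw [hc₂, ← hqq]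
      nlinarith
    have k1 : Real.sqrt 2 * (q - D) ≤ Real.sqrt (2 * c₂) := by
      rw [Real.sqrt_mul (by norm_num)]
      exact mul_le_mul_of_nonneg_left k0 (Real.sqrt_nonneg _)
    have k2 : (1 - ε / 4) * (Real.sqrt 2 * (q - D)) ≤ (1 - ε / 4) * Real.sqrt (2 * c₂) :=
      mul_le_mul_of_nonneg_left k1 (by linarith)
    have k3 : (r : ℝ) - D * q + (1 - ε / 4) * (Real.sqrt 2 * (q - D)) =
        r + ε * (1 - Real.sqrt 2 / 4) * q - (1 - ε / 4) * (Real.sqrt 2 * D) := by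
      rw [hD]
      ring
    have k4 : ε / 2 * q ≤ ε * (1 - Real.sqrt 2 / 4) * q := by
      refine mul_le_mul_of_nonneg_right ?_ (by linarith)
      nlinarith
    have k5 : min e (1 / 4) ≤ 1 / 4 := min_le_right _ _
    have k6 : (1 - ε / 4) * (Real.sqrt 2 * D) ≤ 2 := by
      have m1 : Real.sqrt 2 * D ≤ 2 := by
        rw [hD]
        nlinarith
      have m2 : 0 ≤ Real.sqrt 2 * D := by positivity
      nlinarith
    linarith

end Pool.Agent.Work.MP_7b186b_nt.MO
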